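import Pool.Agent.MCF.Defs

namespace Pool.Agent.MCF

section
variable {G H : Type*} [Group G] [Group H]

theorem HEquiv.refl (l : List G) : HEquiv l l := Relation.EqvGen.refl l
theorem HEquiv.symm {l l' : List G} (h : HEquiv l l') : HEquiv l' l := Relation.EqvGen.symm _ _ h
theorem HEquiv.trans {l l' l'' : List G} (h : HEquiv l l') (h' : HEquiv l' l'') :
    HEquiv l l'' := Relation.EqvGen.trans _ _ _ h h'

theorem HEquiv.step (p : List G) (a b : G) (q : List G) :
    HEquiv (p ++ a :: b :: q) (p ++ b :: (b⁻¹ * a * b) :: q) :=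
  Relation.EqvGen.rel _ _ (HStep.mk p a b q)

/-- induction principle: a relation which is an equivalence and holds for steps -/
theorem HEquiv.induct {P : List G → List G → Prop} (h1 : ∀ l l', HStep l l' → P l l')
    (hr : ∀ l, P l l) (hs : ∀ l l', P l l' → P l' l) (ht : ∀ a b c, P a b → P b c → P a c)
    {l l' : List G} (h : HEquiv l l') : P l l' := by
  induction h with
  | rel x y h => exact h1 _ _ h
  | refl x => exact hr x
  | symm x y _ ih => exact hs _ _ ih
  | trans x y z _ _ ih1 ih2 => exact ht _ _ _ ih1 ih2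

theorem HEquiv.app {l l' : List G} (h : HEquiv l l') (p q : List G) :
    HEquiv (p ++ l ++ q) (p ++ l' ++ q) := by
  refine HEquiv.induct (P := fun l l' => HEquiv (p ++ l ++ q) (p ++ l' ++ q)) ?_ ?_ ?_ ?_ h
  · rintro _ _ ⟨p', a, b, q'⟩
    have := HEquiv.step (p ++ p') a b (q' ++ q)
    simpa [List.append_assoc] using this
  · intro l; exact HEquiv.refl _
  · intro l l' h; exact h.symm
  · intro a b c h h'; exact h.trans h'

theorem HEquiv.app_left {l l' : List G} (h : HEquiv l l') (p : List G) :
    HEquiv (p ++ l) (p ++ l') := by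
  simpa using h.app p []

theorem HEquiv.app_right {l l' : List G} (h : HEquiv l l') (q : List G) :
    HEquiv (l ++ q) (l' ++ q) := by
  simpa using h.app [] q

theorem HEquiv.cons {l l' : List G} (h : HEquiv l l') (a : G) :
    HEquiv (a :: l) (a :: l') := by
  simpa using h.app [a] []

theorem HEquiv.prod_eq {l l' : List G} (h : HEquiv l l') : l.prod = l'.prod := by
  refine HEquiv.induct (P := fun l l' => l.prod = l'.prod) ?_ ?_ ?_ ?_ h
  · rintro _ _ ⟨p', a, b, q'⟩
    simp only [List.prod_append, List.prod_cons]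
    group
  · intro l; rfl
  · intro l l' h; exact h.symm
  · intro a b c h h'; exact h.trans h'

theorem HEquiv.length_eq {l l' : List G} (h : HEquiv l l') : l.length = l'.length := by
  refine HEquiv.induct (P := fun l l' => l.length = l'.length) ?_ ?_ ?_ ?_ h
  · rintro _ _ ⟨p', a, b, q'⟩
    simp
  · intro l; rfl
  · intro l l' h; exact h.symm
  · intro a b c h h'; exact h.trans h'

theorem HEquiv.closure_eq {l l' : List G} (h : HEquiv l l') :
    Subgroup.closure {x | x ∈ l} = Subgroup.closure {x | x ∈ l'} := by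
  refine HEquiv.induct (P := fun l l' => Subgroup.closure {x | x ∈ l} =
    Subgroup.closure {x | x ∈ l'}) ?_ ?_ ?_ ?_ h
  · rintro _ _ ⟨p', a, b, q'⟩
    apply le_antisymm
    · rw [Subgroup.closure_le]
      intro x hx
      have hb : b ∈ Subgroup.closure {x | x ∈ p' ++ b :: (b⁻¹ * a * b) :: q'} :=
        Subgroup.subset_closure (by simp)
      have hc : b⁻¹ * a * b ∈ Subgroup.closure {x | x ∈ p' ++ b :: (b⁻¹ * a * b) :: q'} :=
        Subgroup.subset_closure (by simp)
      simp only [Set.mem_ofPred_eq, List.mem_append, List.mem_cons] at hx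
      rcases hx with hx | rfl | rfl | hx
      · exact Subgroup.subset_closure (by simp [hx])
      · have := mul_mem (mul_mem hb hc) (inv_mem hb)
        have e : b * (b⁻¹ * x * b) * b⁻¹ = x := by group
        rwa [e] at this
      · exact hb
      · exact Subgroup.subset_closure (by simp [hx])
    · rw [Subgroup.closure_le]
      intro x hx
      have ha : a ∈ Subgroup.closure {x | x ∈ p' ++ a :: b :: q'} :=
        Subgroup.subset_closure (by simp)
      have hb : b ∈ Subgroup.closure {x | x ∈ p' ++ a :: b :: q'} :=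
        Subgroup.subset_closure (by simp)
      simp only [Set.mem_ofPred_eq, List.mem_append, List.mem_cons] at hx
      rcases hx with hx | rfl | rfl | hx
      · exact Subgroup.subset_closure (by simp [hx])
      · exact hb
      · exact mul_mem (mul_mem (inv_mem hb) ha) hb
      · exact Subgroup.subset_closure (by simp [hx])
  · intro l; rfl
  · intro l l' h; exact h.symm
  · intro a b c h h'; exact h.trans h'

@[simp] theorem conjL_nil (g : G) : conjL g [] = [] := rfl
@[simp] theorem conjL_cons (g a : G) (l : List G) :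
    conjL g (a :: l) = (g * a * g⁻¹) :: conjL g l := rfl
@[simp] theorem conjL_append (g : G) (l l' : List G) :
    conjL g (l ++ l') = conjL g l ++ conjL g l' := by simp [conjL]
@[simp] theorem conjL_length (g : G) (l : List G) : (conjL g l).length = l.length := by
  simp [conjL]
@[simp] theorem conjL_one (l : List G) : conjL 1 l = l := by simp [conjL]

theorem conjL_mul (g h : G) (l : List G) : conjL (g * h) l = conjL g (conjL h l) := by
  simp only [conjL, List.map_map]
  apply List.map_congr_left
  intro x _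
  simp [mul_assoc, mul_inv_rev]

@[simp] theorem conjL_inv_conjL (g : G) (l : List G) : conjL g⁻¹ (conjL g l) = l := by
  rw [← conjL_mul]; simp
@[simp] theorem conjL_conjL_inv (g : G) (l : List G) : conjL g (conjL g⁻¹ l) = l := by
  rw [← conjL_mul]; simp

theorem conjL_prod (g : G) (l : List G) : (conjL g l).prod = g * l.prod * g⁻¹ := by
  induction l with
  | nil => simp
  | cons a l ih => simp only [conjL_cons, List.prod_cons, ih]; group

theorem mem_conjL {g x : G} {l : List G} : x ∈ conjL g l ↔ ∃ a ∈ l, g * a * g⁻¹ = x := by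
  simp [conjL]

theorem conjL_map (f : G →* H) (g : G) (l : List G) :
    (conjL g l).map f = conjL (f g) (l.map f) := by
  simp [conjL]

theorem conjL_eq_self {g : G} {l : List G} (h : ∀ a ∈ l, g * a = a * g) : conjL g l = l := by
  conv_rhs => rw [← List.map_id l]
  apply List.map_congr_left
  intro a ha
  rw [h a ha]; simp

theorem conjL_eq_self_iff {g : G} {l : List G} : conjL g l = l ↔ ∀ a ∈ l, g * a = a * g := by
  constructor
  · intro h
    induction l with
    | nil => simp
    | cons b l ih =>
      simp only [conjL_cons, List.cons.injEq] at h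
      intro a ha
      rcases List.mem_cons.mp ha with rfl | ha
      · exact mul_inv_eq_iff_eq_mul.mp h.1
      · exact ih h.2 a ha
  · exact conjL_eq_self

theorem HEquiv.conj {l l' : List G} (h : HEquiv l l') (g : G) :
    HEquiv (conjL g l) (conjL g l') := by
  refine HEquiv.induct (P := fun l l' => HEquiv (conjL g l) (conjL g l')) ?_ ?_ ?_ ?_ h
  · rintro _ _ ⟨p, a, b, q⟩
    have := HEquiv.step (conjL g p) (g * a * g⁻¹) (g * b * g⁻¹) (conjL g q)
    have e : (g * b * g⁻¹)⁻¹ * (g * a * g⁻¹) * (g * b * g⁻¹) = g * (b⁻¹ * a * b) * g⁻¹ := by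
      group
    rw [e] at this
    simpa using this
  · intro l; exact HEquiv.refl _
  · intro l l' h; exact h.symm
  · intro a b c h h'; exact h.trans h'

theorem HEquiv.map {l l' : List G} (h : HEquiv l l') (f : G →* H) :
    HEquiv (l.map f) (l'.map f) := by
  refine HEquiv.induct (P := fun l l' => HEquiv (l.map f) (l'.map f)) ?_ ?_ ?_ ?_ h
  · rintro _ _ ⟨p, a, b, q⟩
    have := HEquiv.step (p.map f) (f a) (f b) (q.map f)
    simpa using this
  · intro l; exact HEquiv.refl _
  · intro l l' h; exact h.symm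
  · intro a b c h h'; exact h.trans h'

/-- Hurwitz equivalences lift along homomorphisms. -/
theorem HEquiv.lift {l : List G} {m : List H} (f : G →* H) (h : HEquiv (l.map f) m) :
    ∃ l', HEquiv l l' ∧ l'.map f = m := by
  have key : ∀ {m m' : List H}, HEquiv m m' →
      (∀ l : List G, l.map f = m → ∃ l', HEquiv l l' ∧ l'.map f = m') ∧
      (∀ l : List G, l.map f = m' → ∃ l', HEquiv l l' ∧ l'.map f = m) := by
    intro m m' h
    refine HEquiv.induct (P := fun m m' =>
      (∀ l : List G, l.map f = m → ∃ l', HEquiv l l' ∧ l'.map f = m') ∧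
      (∀ l : List G, l.map f = m' → ∃ l', HEquiv l l' ∧ l'.map f = m)) ?_ ?_ ?_ ?_ h
    · rintro _ _ ⟨p, a, b, q⟩
      constructor
      · intro l hl
        obtain ⟨p', l₂, rfl, hp, hl₂⟩ := List.map_eq_append_iff.mp hl
        obtain ⟨a', l₃, rfl, ha, hl₃⟩ := List.map_eq_cons_iff.mp hl₂
        obtain ⟨b', q', rfl, hb, hq⟩ := List.map_eq_cons_iff.mp hl₃
        exact ⟨_, HEquiv.step p' a' b' q', by simp [hp, ha, hb, hq]⟩
      · intro l hl
        obtain ⟨p', l₂, rfl, hp, hl₂⟩ := List.map_eq_append_iff.mp hl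
        obtain ⟨b', l₃, rfl, hb, hl₃⟩ := List.map_eq_cons_iff.mp hl₂
        obtain ⟨c', q', rfl, hc, hq⟩ := List.map_eq_cons_iff.mp hl₃
        have := HEquiv.step p' (b' * c' * b'⁻¹) b' q'
        have e : b'⁻¹ * (b' * c' * b'⁻¹) * b' = c' := by group
        rw [e] at this
        refine ⟨_, this.symm, ?_⟩
        simp only [List.map_append, List.map_cons, map_mul, map_inv, hp, hb, hq, hc]
        congr 2
        group
    · intro l
      exact ⟨fun l' h => ⟨l', HEquiv.refl _, h⟩, fun l' h => ⟨l', HEquiv.refl _, h⟩⟩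
    · intro l l' h; exact ⟨h.2, h.1⟩
    · intro a b c h h'
      constructor
      · intro l hl
        obtain ⟨l', h1, h2⟩ := h.1 l hl
        obtain ⟨l'', h3, h4⟩ := h'.1 l' h2
        exact ⟨l'', h1.trans h3, h4⟩
      · intro l hl
        obtain ⟨l', h1, h2⟩ := h'.2 l hl
        obtain ⟨l'', h3, h4⟩ := h.2 l' h2
        exact ⟨l'', h1.trans h3, h4⟩
  exact (key h).1 l rfl

/-- move `a` to the right across `q`, `q` unchanged -/
theorem HEquiv.moveR (a : G) (q : List G) :
    HEquiv (a :: q) (q ++ [q.prod⁻¹ * a * q.prod]) := by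
  induction q generalizing a with
  | nil => simpa using HEquiv.refl [a]
  | cons b q ih =>
    have h1 := HEquiv.step [] a b q
    have h2 := (ih (b⁻¹ * a * b)).cons b
    refine (by simpa using h1 : HEquiv (a :: b :: q) (b :: (b⁻¹ * a * b) :: q)).trans ?_
    have e : (b :: q).prod⁻¹ * a * (b :: q).prod = q.prod⁻¹ * (b⁻¹ * a * b) * q.prod := by
      simp only [List.prod_cons]; group
    rw [e]
    simpa using h2

/-- move `a` to the right across `q`, `a` unchanged -/
theorem HEquiv.moveR' (a : G) (q : List G) :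
    HEquiv (a :: q) (conjL a q ++ [a]) := by
  induction q with
  | nil => simpa using HEquiv.refl [a]
  | cons b q ih =>
    have h1 := HEquiv.step [] (a * b * a⁻¹) a q
    have e : a⁻¹ * (a * b * a⁻¹) * a = b := by group
    rw [e] at h1
    have h2 := ih.cons (a * b * a⁻¹)
    refine (by simpa using h1.symm : HEquiv (a :: b :: q) ((a * b * a⁻¹) :: a :: q)).trans ?_
    simpa using h2

/-- swap two blocks, the second one unchanged -/
theorem HEquiv.swapR (X Y : List G) :
    HEquiv (X ++ Y) (Y ++ conjL Y.prod⁻¹ X) := by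
  induction X with
  | nil => simpa using HEquiv.refl Y
  | cons a X ih =>
    have h1 := ih.cons a
    have h2 := (HEquiv.moveR a Y).app_right (conjL Y.prod⁻¹ X)
    refine (by simpa using h1 : HEquiv (a :: X ++ Y) (a :: (Y ++ conjL Y.prod⁻¹ X))).trans ?_
    simpa using h2

/-- swap two blocks, the first one unchanged -/
theorem HEquiv.swapL (X Y : List G) :
    HEquiv (X ++ Y) (conjL X.prod Y ++ X) := by
  have h := (HEquiv.swapR (conjL X.prod Y) X)
  rw [conjL_inv_conjL] at h
  exact h.symm

/-- the full twist of a block -/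
theorem HEquiv.twist (B : List G) : HEquiv B (conjL B.prod⁻¹ B) := by
  have key : ∀ X Y : List G, HEquiv (X ++ Y) (Y ++ conjL (X ++ Y).prod⁻¹ X) := by
    intro X
    induction X with
    | nil => intro Y; simpa using HEquiv.refl Y
    | cons a X ih =>
      intro Y
      have h1 := HEquiv.moveR a (X ++ Y)
      have h2 := ih (Y ++ [(X ++ Y).prod⁻¹ * a * (X ++ Y).prod])
      have e : (X ++ (Y ++ [(X ++ Y).prod⁻¹ * a * (X ++ Y).prod])).prod
          = ((a :: X) ++ Y).prod := by
        simp only [List.prod_append, List.prod_cons, List.prod_nil, List.cons_append]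
        group
      rw [e] at h2
      refine (by simpa using h1 : HEquiv (a :: X ++ Y)
        (X ++ (Y ++ [(X ++ Y).prod⁻¹ * a * (X ++ Y).prod]))).trans ?_
      refine h2.trans ?_
      have e2 : ((a :: X) ++ Y).prod⁻¹ * a * ((a :: X) ++ Y).prod
          = (X ++ Y).prod⁻¹ * a * (X ++ Y).prod := by
        simp only [List.cons_append, List.prod_cons]; group
      have : Y ++ [(X ++ Y).prod⁻¹ * a * (X ++ Y).prod] ++ conjL ((a :: X) ++ Y).prod⁻¹ X
          = Y ++ conjL ((a :: X) ++ Y).prod⁻¹ (a :: X) := by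
        rw [conjL_cons, inv_inv, e2]; simp
      rw [this]
      exact HEquiv.refl _
  simpa using key B []

/-- cyclic rotation of a tuple with product one -/
theorem HEquiv.rotate {X Y : List G} (h : (X ++ Y).prod = 1) : HEquiv (X ++ Y) (Y ++ X) := by
  have h1 := HEquiv.swapL X Y
  have h2 : conjL X.prod Y = conjL Y.prod⁻¹ Y := by
    have : X.prod = Y.prod⁻¹ := by
      rw [List.prod_append] at h
      exact eq_inv_of_mul_eq_one_left h
    rw [this]
  rw [h2] at h1
  exact h1.trans ((HEquiv.twist Y).symm.app_right X)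

theorem FiniteOrbit.of_equiv {l l' : List G} (h : FiniteOrbit l) (e : HEquiv l l') :
    FiniteOrbit l' := by
  obtain ⟨S, hS, H⟩ := h
  exact ⟨S, hS, fun m hm => H m (e.trans hm)⟩

theorem FiniteOrbit.conj {l : List G} (h : FiniteOrbit l) (g : G) : FiniteOrbit (conjL g l) := by
  obtain ⟨S, hS, H⟩ := h
  refine ⟨S, hS, fun m hm => ?_⟩
  have := hm.conj g⁻¹
  rw [conjL_inv_conjL] at this
  obtain ⟨s, hs, k, hk⟩ := H _ this
  refine ⟨s, hs, g * k, ?_⟩
  rw [conjL_mul, ← hk, conjL_conjL_inv]

theorem FiniteOrbit.of_conj {l : List G} {g : G} (h : FiniteOrbit (conjL g l)) :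
    FiniteOrbit l := by
  have := h.conj g⁻¹
  rwa [conjL_inv_conjL] at this

theorem FiniteOrbit.map {l : List G} (h : FiniteOrbit l) (f : G →* H) :
    FiniteOrbit (l.map f) := by
  obtain ⟨S, hS, HS⟩ := h
  refine ⟨(fun l => l.map f) '' S, hS.image _, fun m hm => ?_⟩
  obtain ⟨l', h1, rfl⟩ := HEquiv.lift f hm
  obtain ⟨s, hs, g, rfl⟩ := HS l' h1
  exact ⟨s.map f, ⟨s, hs, rfl⟩, f g, conjL_map f g s⟩

/-- a sequence of tuples in a finite orbit: two of them are conjugate -/
theorem FiniteOrbit.pigeonhole {l : List G} (h : FiniteOrbit l) (u : ℕ → List G)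
    (hu : ∀ n, HEquiv l (u n)) : ∃ i j, i < j ∧ ∃ g, u j = conjL g (u i) := by
  obtain ⟨S, hS, HS⟩ := h
  choose s hs g hg using fun n => HS (u n) (hu n)
  have : ¬ Function.Injective (fun n => (⟨s n, hs n⟩ : S)) := by
    intro hi
    have := hS.to_subtype
    exact not_injective_infinite_finite _ hi
  simp only [Function.Injective, not_forall] at this
  obtain ⟨i, j, hij, hne⟩ := this
  have hij' : s i = s j := by simpa using hij
  rcases lt_or_gt_of_ne hne with h | h
  · refine ⟨i, j, h, g j * (g i)⁻¹, ?_⟩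
    rw [conjL_mul, hg i, conjL_inv_conjL, hij']; exact hg j
  · refine ⟨j, i, h, g i * (g j)⁻¹, ?_⟩
    rw [conjL_mul, hg j, conjL_inv_conjL, ← hij']; exact hg i

theorem HEquiv.twist_pow (B : List G) (n : ℕ) : HEquiv B (conjL (B.prod ^ n)⁻¹ B) := by
  induction n with
  | zero => simpa using HEquiv.refl B
  | succ n ih =>
    have h1 := HEquiv.twist (conjL (B.prod ^ n)⁻¹ B)
    have e : (conjL (B.prod ^ n)⁻¹ B).prod = B.prod := by
      rw [conjL_prod, inv_inv]
      have : (B.prod ^ n)⁻¹ * B.prod = B.prod * (B.prod ^ n)⁻¹ := by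
        have : Commute (B.prod ^ n) B.prod := (Commute.refl _).pow_left n
        exact (this.inv_left).eq
      rw [this]; simp
    rw [e, ← conjL_mul] at h1
    have e2 : B.prod⁻¹ * (B.prod ^ n)⁻¹ = (B.prod ^ (n+1))⁻¹ := by
      rw [← mul_inv_rev, ← pow_succ]
    rw [e2] at h1
    exact ih.trans h1

/-- The twist lemma. -/
theorem FiniteOrbit.twist {p B q : List G} (h : FiniteOrbit (p ++ B ++ q)) :
    ∃ k : ℕ, 1 ≤ k ∧ ∃ g : G, (∀ a ∈ p ++ q, g * a = a * g) ∧
      (∀ b ∈ B, (B.prod ^ k * g) * b = b * (B.prod ^ k * g)) := by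
  obtain ⟨i, j, hij, g, hg⟩ := h.pigeonhole
    (fun n => p ++ conjL (B.prod ^ n)⁻¹ B ++ q)
    (fun n => (HEquiv.twist_pow B n).app p q)
  simp only [conjL_append] at hg
  have l1 : p.length = (conjL g p).length := by simp
  have l2 : (p ++ conjL (B.prod ^ j)⁻¹ B).length =
    (conjL g p ++ conjL g (conjL (B.prod ^ i)⁻¹ B)).length := by simp
  obtain ⟨h1, hq⟩ := List.append_inj hg l2
  obtain ⟨hp, hB⟩ := List.append_inj h1 l1
  have hg1 : ∀ a ∈ p ++ q, g * a = a * g := by
    intro a ha
    rcases List.mem_append.mp ha with ha | ha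
    · exact conjL_eq_self_iff.mp hp.symm a ha
    · exact conjL_eq_self_iff.mp hq.symm a ha
  -- B^j g B^{-i} commutes with B
  have hB2 : conjL (B.prod ^ j * (g * (B.prod ^ i)⁻¹)) B = B := by
    rw [conjL_mul, conjL_mul, ← hB, conjL_conjL_inv]
  have hB3 := conjL_eq_self_iff.mp hB2
  set x := B.prod ^ j * (g * (B.prod ^ i)⁻¹) with hx
  -- x commutes with B.prod
  have hxm : Commute x B.prod := by
    have : ∀ L : List G, (∀ b ∈ L, x * b = b * x) → x * L.prod = L.prod * x := by
      intro L
      induction L with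
      | nil => intro _; simp
      | cons b L ih =>
        intro hL
        rw [List.prod_cons, ← mul_assoc, hL b (by simp), mul_assoc,
          ih (fun c hc => hL c (by simp [hc])), mul_assoc]
    exact this B hB3
  refine ⟨j - i, by omega, g, hg1, ?_⟩
  have hgx : B.prod ^ (j - i) * g = x := by
    have h1 : g = (B.prod ^ j)⁻¹ * x * B.prod ^ i := by rw [hx]; group
    have h2 : x * B.prod ^ i = B.prod ^ i * x := (hxm.pow_right i).eq
    rw [h1, mul_assoc _ x, h2]
    have h3 : B.prod ^ j = B.prod ^ (j - i) * B.prod ^ i := by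
      rw [← pow_add]; congr 1; omega
    have h4 : B.prod ^ (j-i) * B.prod ^ i = B.prod ^ i * B.prod ^ (j - i) :=
      ((Commute.refl B.prod).pow_pow _ _).eq
    rw [h3, h4]; group
  rw [hgx]
  exact hB3

end

end Pool.Agent.MCF
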