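import Pool.Agent.MCF.Lin

namespace Pool.Agent.MCF

open Equiv

variable {W : Type} [AddCommGroup W] [Module ℚ W]

omit [Module ℚ W] in
theorem Aff.conj_tr (a : Aff W) (v : Fin 3 → W) : a * Aff.tr v * a⁻¹ = Aff.tr (act a.s v) := by
  apply Aff.ext'
  · rw [Aff.mul_v', Aff.mul_v', Aff.inv_v']
    simp only [Aff.mul_s, Aff.tr_v, Aff.tr_s, mul_one, act_neg]
    rw [← act_mul, mul_inv_cancel, act_one]
    abel
  · simp

/-- the centre of a rotation -/
theorem exists_center {a : Aff W} (h : IsRot a.s) (ha : Sum0 a.v) :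
    ∃ c : Fin 3 → W, Sum0 c ∧ (Aff.tr c * a * (Aff.tr c)⁻¹).v = 0 := by
  -- v + c - σ c = 0 : c = -(1/3)(v - σ⁻¹ v)... use c = (1/3) (σ⁻¹ v - v)
  set c : Fin 3 → W := (1/3 : ℚ) • (act a.s⁻¹ a.v - a.v) with hc
  have hsum : a.v + act a.s a.v + act a.s⁻¹ a.v = 0 := by
    have h0 := ha
    unfold Sum0 at h0
    rcases h.cases with ⟨e0, e1, e2⟩ | ⟨e0, e1, e2⟩
    · have i0 : a.s⁻¹ 0 = 2 := by rw [← e2]; simp
      have i1 : a.s⁻¹ 1 = 0 := by rw [← e0]; simp
      have i2 : a.s⁻¹ 2 = 1 := by rw [← e1]; simp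
      ext i
      fin_cases i
      · simp [act, i0, e0]; first | done | exact h0 | (rw [← h0]; abel)
      · simp [act, i1, e1]; first | done | exact h0 | (rw [← h0]; abel)
      · simp [act, i2, e2]; first | done | exact h0 | (rw [← h0]; abel)
    · have i0 : a.s⁻¹ 0 = 1 := by rw [← e1]; simp
      have i1 : a.s⁻¹ 1 = 2 := by rw [← e2]; simp
      have i2 : a.s⁻¹ 2 = 0 := by rw [← e0]; simp
      ext i
      fin_cases i
      · simp [act, i0, e0]; first | done | exact h0 | (rw [← h0]; abel)
      · simp [act, i1, e1]; first | done | exact h0 | (rw [← h0]; abel)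
      · simp [act, i2, e2]; first | done | exact h0 | (rw [← h0]; abel)
  have hq : ∀ (σ : Perm (Fin 3)) (q : ℚ) (v : Fin 3 → W), act σ (q • v) = q • act σ v := by
    intro σ q v; rfl
  refine ⟨c, ?_, ?_⟩
  · have h1 : Sum0 (act a.s⁻¹ a.v - a.v) := (ha.act _).sub ha
    unfold Sum0 at *
    rw [hc]
    simp only [Pi.smul_apply]
    rw [← smul_add, ← smul_add, h1, smul_zero]
  · rw [Aff.mul_v', Aff.mul_v', Aff.inv_v']
    simp only [Aff.mul_s, Aff.tr_v, Aff.tr_s, act_neg, act_one, inv_one, one_mul]
    rw [hc, hq, act_sub, ← act_mul, mul_inv_cancel, act_one]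
    have e : act a.s⁻¹ a.v = -(a.v + act a.s a.v) := by
      rw [← add_eq_zero_iff_eq_neg, add_comm]; exact hsum
    rw [e]
    module

/-- the vector part of a conjugate of a rotation centred at zero -/
theorem center_unique {a x : Aff W} (h : IsRot a.s) (ha : a.v = 0) (hx : Sum0 x.v)
    (hxa : (x * a * x⁻¹).v = 0) : x.v = 0 := by
  rw [Aff.mul_v', Aff.mul_v', Aff.inv_v', ha] at hxa
  simp only [Aff.mul_s, act_zero, add_zero, act_neg] at hxa
  have h1 : act (x.s * a.s * x.s⁻¹) x.v = x.v := by
    rw [act_mul]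
    exact (add_neg_eq_zero.mp hxa).symm
  exact rot_fix (h.conj x.s) hx h1

omit [Module ℚ W] in
theorem prod_s (l : List (Aff W)) : l.prod.s = (l.map Aff.s).prod := by
  induction l with
  | nil => simp
  | cons a l ih => simp [ih]

/-- a trivial entry next to two nested large blocks -/
theorem kill_trivial {P B R S : List (Aff W)} {z : Aff W}
    (h : FiniteOrbit (P ++ B ++ R ++ [z] ++ S)) (h0 : AllSum0 (P ++ B ++ R ++ [z] ++ S))
    (hz : z.s = 1) (hB : B.prod.s = 1) (hBl : Large B) (hc : Large (P ++ R)) : z = 1 := by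
  have hB0 : AllSum0 B := h0.left.left.left.right
  have hR0 : AllSum0 R := h0.left.left.right
  have hz0 : Sum0 z.v := h0 z (by simp)
  -- first block
  have h1 : B.prod = 1 := by
    have h' : FiniteOrbit (P ++ B ++ (R ++ [z] ++ S)) := by simpa [List.append_assoc] using h
    refine block_one h' hB hB0 (hc.mono ?_) hBl
    intro a ha
    rcases List.mem_append.mp ha with ha | ha <;> simp [ha]
  -- move z left across R
  have e := (HEquiv.swapL R [z]).app (P ++ B) S
  have h2 : FiniteOrbit (P ++ (B ++ conjL R.prod [z]) ++ (R ++ S)) := by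
    have := FiniteOrbit.of_equiv (by simpa [List.append_assoc] using h :
      FiniteOrbit (P ++ B ++ (R ++ [z]) ++ S)) e
    simpa [List.append_assoc] using this
  have hz' : (R.prod * z * R.prod⁻¹).s = 1 := by simp [hz]
  have hz0' : Sum0 (R.prod * z * R.prod⁻¹).v := hz0.conjA hR0.prod
  have h3 : (B ++ conjL R.prod [z]).prod = 1 := by
    refine block_one h2 ?_ ?_ (hc.mono ?_) (hBl.mono ?_)
    · rw [List.prod_append, h1, one_mul]; simpa using hz'
    · apply hB0.app
      intro a ha
      simp at ha
      rw [ha]; exact hz0'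
    · intro a ha
      rcases List.mem_append.mp ha with ha | ha <;> simp [ha]
    · intro a ha; simp [ha]
  rw [List.prod_append, h1, one_mul] at h3
  simp at h3
  exact h3

/-- all trivial entries vanish, once there is a good block -/
theorem kill_all {P B R Z : List (Aff W)}
    (h : FiniteOrbit (P ++ B ++ R ++ Z)) (h0 : AllSum0 (P ++ B ++ R ++ Z))
    (hz : ∀ z ∈ Z, z.s = 1) (hB : B.prod.s = 1) (hBl : Large B) (hc : Large (P ++ R)) :
    ∀ z ∈ Z, z = 1 := by
  intro z hzZ
  obtain ⟨Z1, Z2, rfl⟩ := List.append_of_mem hzZ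
  have h' : FiniteOrbit (P ++ B ++ (R ++ Z1) ++ [z] ++ Z2) := by
    simpa [List.append_assoc] using h
  have h0' : AllSum0 (P ++ B ++ (R ++ Z1) ++ [z] ++ Z2) := by
    simpa [List.append_assoc] using h0
  refine kill_trivial h' h0' (hz z (by simp)) hB hBl (hc.mono ?_)
  intro a ha
  rcases List.mem_append.mp ha with ha | ha <;> simp [ha]

/-- opposite rotations are inverse -/
theorem opp_inverse {A Z : List (Aff W)} (h : FiniteOrbit (A ++ Z)) (h0 : AllSum0 (A ++ Z))
    (hA : ∀ a ∈ A, IsRot a.s) (hlen : 3 ≤ A.length) {P Q : List (Aff W)} {x y : Aff W}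
    (hPQ : A = P ++ x :: Q) (hy : y ∈ Q) (hs : y.s = x.s⁻¹) : x * y = 1 := by
  obtain ⟨Q1, Q2, rfl⟩ := List.append_of_mem hy
  have hx : IsRot x.s := hA x (by simp [hPQ])
  -- move y left across Q1, unchanged
  have e := (HEquiv.swapR Q1 [y]).app (P ++ [x]) (Q2 ++ Z)
  have h1 : FiniteOrbit (P ++ [x, y] ++ (conjL y⁻¹ Q1 ++ Q2 ++ Z)) := by
    have h' : FiniteOrbit (P ++ [x] ++ (Q1 ++ [y]) ++ (Q2 ++ Z)) := by
      rw [hPQ] at h; simpa [List.append_assoc] using h
    have := FiniteOrbit.of_equiv h' e
    simpa [List.append_assoc] using this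
  have hlarge : Large (P ++ (conjL y⁻¹ Q1 ++ Q2 ++ Z)) := by
    -- there is a third rotation
    rw [hPQ] at hlen
    simp only [List.length_append, List.length_cons] at hlen
    by_cases hP : P = []
    · by_cases hQ1 : Q1 = []
      · have : Q2 ≠ [] := by
          rintro rfl; subst hP; subst hQ1; simp at hlen
        obtain ⟨a, Q3, rfl⟩ := List.exists_cons_of_ne_nil this
        exact Large.of_mem_rot (a := a) (by simp) (hA a (by simp [hPQ]))
      · obtain ⟨a, Q3, rfl⟩ := List.exists_cons_of_ne_nil hQ1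
        refine Large.of_mem_rot (a := y⁻¹ * a * y⁻¹⁻¹) (by simp) ?_
        have := (hA a (by simp [hPQ])).conj (y⁻¹).s
        simpa using this
    · obtain ⟨a, Q3, rfl⟩ := List.exists_cons_of_ne_nil hP
      exact Large.of_mem_rot (a := a) (by simp) (hA a (by simp [hPQ]))
  have := block_one h1 (by simp [hs]) (by
    intro a ha
    apply h0 a
    rw [hPQ]
    simp at ha
    rcases ha with rfl | rfl <;> simp) hlarge (Large.of_mem_rot (a := x) (by simp) hx)
  simpa using this

/-- In a finite orbit tuple of at least four rotations with both directions present, all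
are powers of one. -/
theorem cyc_mixed {A Z : List (Aff W)} (h : FiniteOrbit (A ++ Z)) (h0 : AllSum0 (A ++ Z))
    (hA : ∀ a ∈ A, IsRot a.s) (hlen : 3 ≤ A.length) {x0 y0 : Aff W} (hx0 : x0 ∈ A)
    (hy0 : y0 ∈ A) (hs : y0.s = x0.s⁻¹) : ∀ a ∈ A, a = x0 ∨ a = x0⁻¹ := by
  -- opposite elements are inverse
  have key : ∀ x ∈ A, ∀ y ∈ A, y.s = x.s⁻¹ → y = x⁻¹ := by
    intro x hx y hy hxy
    have hxr := hA x hx
    have hne : x ≠ y := by
      rintro rfl
      have := hxr.cases
      have h3 : x.s * x.s = 1 := by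
        nth_rewrite 1 [hxy]; simp
      have h2 := hxr.mul_three
      rw [h3, one_mul] at h2
      exact hxr.1 h2
    obtain ⟨P, Q, hPQ⟩ := List.append_of_mem hx
    have hy' : y ∈ P ∨ y ∈ Q := by
      rw [hPQ] at hy
      simp only [List.mem_append, List.mem_cons] at hy
      rcases hy with hy | rfl | hy
      · exact Or.inl hy
      · exact absurd rfl hne
      · exact Or.inr hy
    rcases hy' with hy' | hy'
    · obtain ⟨P1, P2, hP⟩ := List.append_of_mem hy'
      have := opp_inverse h h0 hA hlen (P := P1) (x := y) (Q := P2 ++ x :: Q)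
        (by rw [hPQ, hP]; simp) (y := x) (by simp) (by rw [hxy, inv_inv])
      exact eq_inv_of_mul_eq_one_left this
    · have := opp_inverse h h0 hA hlen hPQ hy' hxy
      exact (inv_eq_of_mul_eq_one_right this).symm
  have hy0' := key x0 hx0 y0 hy0 hs
  intro a ha
  rcases (hA x0 hx0).eq_or (hA a ha) with h1 | h1
  · left
    have := key y0 hy0 a ha (by rw [h1, hs, inv_inv])
    rw [this, hy0', inv_inv]
  · right
    exact key x0 hx0 a ha h1

/-- same direction: adjacent entries are equal -/
theorem cyc_same_adj {A Z : List (Aff W)} (h : FiniteOrbit (A ++ Z)) (h0 : AllSum0 (A ++ Z))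
    {ρ : Perm (Fin 3)} (hρ : IsRot ρ) (hA : ∀ a ∈ A, a.s = ρ) (hlen : 6 ≤ A.length)
    {P Q : List (Aff W)} {b c : Aff W} (hPQ : A = P ++ b :: c :: Q) : b = c := by
  have hb : b.s = ρ := hA b (by simp [hPQ])
  have hc : c.s = ρ := hA c (by simp [hPQ])
  have hlen2 : 4 ≤ P.length + Q.length := by
    rw [hPQ] at hlen; simp at hlen; omega
  by_cases hP : 2 ≤ P.length
  · -- two before
    obtain ⟨P', xy, hP', hxy⟩ : ∃ P' xy, P = P' ++ xy ∧ xy.length = 2 :=
      ⟨P.take (P.length - 2), P.drop (P.length - 2), by simp, by simp; omega⟩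
    obtain ⟨x, y, rfl⟩ := List.length_eq_two.mp hxy
    have hx : x.s = ρ := hA x (by simp [hPQ, hP'])
    have hy : y.s = ρ := hA y (by simp [hPQ, hP'])
    have h1 : FiniteOrbit (P' ++ [x, y, b] ++ (c :: Q ++ Z)) := by
      rw [hPQ, hP'] at h; simpa [List.append_assoc] using h
    have e1 : [x, y, b].prod = 1 := by
      refine block_one h1 ?_ ?_ ?_ ?_
      · simp [hx, hy, hb]; rw [← mul_assoc]; exact hρ.mul_three
      · intro a ha
        apply h0 a
        rw [hPQ, hP']
        simp at ha; rcases ha with rfl | rfl | rfl <;> simp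
      · exact Large.of_mem_rot (a := c) (by simp) (by rw [hc]; exact hρ)
      · exact Large.of_mem_rot (a := x) (by simp) (by rw [hx]; exact hρ)
    have st := HEquiv.step (P' ++ [x, y]) b c (Q ++ Z)
    have h2 : FiniteOrbit (P' ++ [x, y, c] ++ ((c⁻¹ * b * c) :: Q ++ Z)) := by
      have := FiniteOrbit.of_equiv (by simpa [List.append_assoc] using h1 :
        FiniteOrbit (P' ++ [x, y] ++ b :: c :: (Q ++ Z))) st
      simpa [List.append_assoc] using this
    have e2 : [x, y, c].prod = 1 := by
      refine block_one h2 ?_ ?_ ?_ ?_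
      · simp [hx, hy, hc]; rw [← mul_assoc]; exact hρ.mul_three
      · intro a ha
        apply h0 a
        rw [hPQ, hP']
        simp at ha; rcases ha with rfl | rfl | rfl <;> simp
      · refine Large.of_mem_rot (a := c⁻¹ * b * c) (by simp) ?_
        have := hρ.conj ρ⁻¹
        simpa [hb, hc] using this
      · exact Large.of_mem_rot (a := x) (by simp) (by rw [hx]; exact hρ)
    simp only [List.prod_cons, List.prod_nil, mul_one] at e1 e2
    rw [← e2] at e1
    exact mul_left_cancel (mul_left_cancel e1)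
  · -- two after
    have hQ : 2 ≤ Q.length := by omega
    obtain ⟨xy, Q', hQ', hxy⟩ : ∃ xy Q', Q = xy ++ Q' ∧ xy.length = 2 :=
      ⟨Q.take 2, Q.drop 2, by simp, by simp; omega⟩
    obtain ⟨x, y, rfl⟩ := List.length_eq_two.mp hxy
    have hx : x.s = ρ := hA x (by simp [hPQ, hQ'])
    have hy : y.s = ρ := hA y (by simp [hPQ, hQ'])
    have h1 : FiniteOrbit (P ++ [b] ++ [c, x, y] ++ (Q' ++ Z)) := by
      rw [hPQ, hQ'] at h; simpa [List.append_assoc] using h
    have e1 : [c, x, y].prod = 1 := by
      refine block_one h1 ?_ ?_ ?_ ?_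
      · simp [hx, hy, hc]; rw [← mul_assoc]; exact hρ.mul_three
      · intro a ha
        apply h0 a
        rw [hPQ, hQ']
        simp at ha; rcases ha with rfl | rfl | rfl <;> simp
      · exact Large.of_mem_rot (a := b) (by simp) (by rw [hb]; exact hρ)
      · exact Large.of_mem_rot (a := x) (by simp) (by rw [hx]; exact hρ)
    have st := (HEquiv.step P (b * c * b⁻¹) b (x :: y :: (Q' ++ Z)))
    have e : b⁻¹ * (b * c * b⁻¹) * b = c := by group
    rw [e] at st
    have h2 : FiniteOrbit (P ++ [b * c * b⁻¹] ++ [b, x, y] ++ (Q' ++ Z)) := by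
      have := FiniteOrbit.of_equiv (by simpa [List.append_assoc] using h1 :
        FiniteOrbit (P ++ b :: c :: x :: y :: (Q' ++ Z))) st.symm
      simpa [List.append_assoc] using this
    have e2 : [b, x, y].prod = 1 := by
      refine block_one h2 ?_ ?_ ?_ ?_
      · simp [hx, hy, hb]; rw [← mul_assoc]; exact hρ.mul_three
      · intro a ha
        apply h0 a
        rw [hPQ, hQ']
        simp at ha; rcases ha with rfl | rfl | rfl <;> simp
      · refine Large.of_mem_rot (a := b * c * b⁻¹) (by simp) ?_
        have := hρ.conj ρ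
        simpa [hb, hc] using this
      · exact Large.of_mem_rot (a := x) (by simp) (by rw [hx]; exact hρ)
    simp only [List.prod_cons, List.prod_nil, mul_one] at e1 e2
    rw [← e2] at e1
    exact (mul_right_cancel e1).symm

theorem all_eq_of_adj {α : Type*} {a : α} {A : List α}
    (h : ∀ P b c Q, a :: A = P ++ b :: c :: Q → b = c) : ∀ x ∈ A, x = a := by
  induction A generalizing a with
  | nil => simp
  | cons b A ih =>
    have hab : a = b := h [] a b A rfl
    subst hab
    have := ih (a := a) (fun P b c Q hQ => h (a :: P) b c Q (by rw [hQ]; rfl))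
    intro x hx
    rcases List.mem_cons.mp hx with rfl | hx
    · rfl
    · exact this x hx

/-- Finite orbit tuples of at least four rotations (and trivial entries). -/
theorem cycA {A Z : List (Aff W)} (h : FiniteOrbit (A ++ Z)) (h0 : AllSum0 (A ++ Z))
    (hA : ∀ a ∈ A, IsRot a.s) (hZ : ∀ z ∈ Z, z.s = 1) (hlen : 4 ≤ A.length)
    (hp : (A ++ Z).prod = 1) :
    (∀ z ∈ Z, z = 1) ∧ ∃ g : Aff W, IsRot g.s ∧ Sum0 g.v ∧ ∀ a ∈ A, a = g ∨ a = g⁻¹ := by
  obtain ⟨a, b, c, d, A', rfl⟩ : ∃ a b c d A', A = a :: b :: c :: d :: A' := by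
    match A, hlen with
    | a :: b :: c :: d :: A', _ => exact ⟨a, b, c, d, A', rfl⟩
  have ha : IsRot a.s := hA a (by simp)
  have hb : IsRot b.s := hA b (by simp)
  have hc : IsRot c.s := hA c (by simp)
  have hd : IsRot d.s := hA d (by simp)
  constructor
  · rcases ha.eq_or hb with h1 | h1
    · rcases hb.eq_or hc with h2 | h2
      · refine kill_all (P := []) (B := [a, b, c]) (R := d :: A') (Z := Z)
          (by simpa using h) (by simpa using h0) hZ ?_ (Large.of_mem_rot (a := a) (by simp) ha)
          (Large.of_mem_rot (a := d) (by simp) hd)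
        simp [h1, h2]; rw [← mul_assoc]; exact ha.mul_three
      · refine kill_all (P := [a]) (B := [b, c]) (R := d :: A') (Z := Z)
          (by simpa using h) (by simpa using h0) hZ ?_ (Large.of_mem_rot (a := b) (by simp) hb)
          (Large.of_mem_rot (a := d) (by simp) hd)
        simp [h2]
    · refine kill_all (P := []) (B := [a, b]) (R := c :: d :: A') (Z := Z)
          (by simpa using h) (by simpa using h0) hZ ?_ (Large.of_mem_rot (a := a) (by simp) ha)
          (Large.of_mem_rot (a := d) (by simp) hd)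
      simp [h1]
  · by_cases hall : ∃ x ∈ a :: b :: c :: d :: A', x.s ≠ a.s
    · obtain ⟨x, hx, hxs⟩ := hall
      have hx' : x.s = a.s⁻¹ := (ha.eq_or (hA x hx)).resolve_left hxs
      exact ⟨a, ha, h0 a (by simp), cyc_mixed h h0 hA (by simp) (by simp) hx hx'⟩
    · push Not at hall
      have hl6 : 6 ≤ (a :: b :: c :: d :: A').length := by
        -- a.s ^ length = 1
        have h1 : ((a :: b :: c :: d :: A') ++ Z).prod.s = 1 := by rw [hp]; rfl
        rw [prod_s, List.map_append, List.prod_append] at h1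
        have h2 : (Z.map Aff.s).prod = 1 := by
          apply List.prod_eq_one
          intro x hx
          obtain ⟨z, hz, rfl⟩ := List.mem_map.mp hx
          exact hZ z hz
        rw [h2, mul_one] at h1
        have h3 : (a :: b :: c :: d :: A').map Aff.s =
            List.replicate (a :: b :: c :: d :: A').length a.s := by
          rw [List.eq_replicate_iff]
          refine ⟨by simp, ?_⟩
          intro x hx
          obtain ⟨z, hz, rfl⟩ := List.mem_map.mp hx
          exact hall z hz
        rw [h3, List.prod_replicate] at h1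
        by_contra hlt
        push Not at hlt
        have h4 : (a :: b :: c :: d :: A').length = 4 ∨
            (a :: b :: c :: d :: A').length = 5 := by omega
        have h5 := ha.2
        rcases h4 with h4 | h4
        · rw [h4] at h1
          have : a.s = 1 := by
            have e : a.s ^ 4 = a.s ^ 3 * a.s := by rw [← pow_succ]
            rw [e, h5, one_mul] at h1; exact h1
          exact ha.1 this
        · rw [h4] at h1
          have e : a.s ^ 5 = a.s ^ 3 * a.s ^ 2 := by rw [← pow_add]
          rw [e, h5, one_mul] at h1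
          have : a.s = 1 := by
            have e : a.s ^ 3 = a.s ^ 2 * a.s := by rw [← pow_succ]
            rw [e, h1, one_mul] at h5; exact h5
          exact ha.1 this
      refine ⟨a, ha, h0 a (by simp), ?_⟩
      have hadj := all_eq_of_adj (a := a) (A := b :: c :: d :: A') (fun P x y Q hQ =>
        cyc_same_adj h h0 ha hall hl6 (P := P) (Q := Q) hQ)
      intro x hx
      rcases List.mem_cons.mp hx with rfl | hx
      · exact Or.inl rfl
      · exact Or.inl (hadj x hx)

end Pool.Agent.MCF
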