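import Mathlib

/-!
# Braid group orbits of tuples and monomial tuples (MP_4bc213_ag)
-/

namespace Pool.Agent.MCF

section Hurwitz

variable {G : Type*} [Group G]

/-- One elementary braid (Hurwitz) move on a tuple of group elements:
`(…, a, b, …) ↦ (…, b, b⁻¹ a b, …)`. -/
inductive HStep : List G → List G → Prop
  | mk (p : List G) (a b : G) (q : List G) :
      HStep (p ++ a :: b :: q) (p ++ b :: (b⁻¹ * a * b) :: q)

/-- Two tuples are Hurwitz equivalent if they lie in the same orbit of the braid group. -/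
def HEquiv (l l' : List G) : Prop := Relation.EqvGen HStep l l'

/-- Simultaneous conjugation of a tuple. -/
def conjL (g : G) (l : List G) : List G := l.map (fun x => g * x * g⁻¹)

/-- The orbit of the tuple `l` under the braid group is finite modulo simultaneous
conjugation. -/
def FiniteOrbit (l : List G) : Prop :=
  ∃ S : Set (List G), S.Finite ∧ ∀ l', HEquiv l l' → ∃ s ∈ S, ∃ g : G, l' = conjL g s

end Hurwitz

/-- The group `W³ ⋊ S₃`: pairs `(v, s)` with `(v, s)(v', s') = (v + s • v', s s')`. -/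
@[ext] structure Aff (W : Type*) where
  v : Fin 3 → W
  s : Equiv.Perm (Fin 3)

namespace Aff

variable {W : Type*} [AddCommGroup W]

instance : Mul (Aff W) := ⟨fun a b => ⟨fun i => a.v i + b.v (a.s⁻¹ i), a.s * b.s⟩⟩
instance : One (Aff W) := ⟨⟨fun _ => 0, 1⟩⟩
instance : Inv (Aff W) := ⟨fun a => ⟨fun i => - a.v (a.s i), a.s⁻¹⟩⟩

@[simp] theorem mul_v (a b : Aff W) (i : Fin 3) : (a * b).v i = a.v i + b.v (a.s⁻¹ i) := rfl
@[simp] theorem mul_s (a b : Aff W) : (a * b).s = a.s * b.s := rfl
@[simp] theorem one_v (i : Fin 3) : (1 : Aff W).v i = 0 := rfl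
@[simp] theorem one_s : (1 : Aff W).s = 1 := rfl
@[simp] theorem inv_v (a : Aff W) (i : Fin 3) : (a⁻¹).v i = - a.v (a.s i) := rfl
@[simp] theorem inv_s (a : Aff W) : (a⁻¹).s = a.s⁻¹ := rfl

instance : Group (Aff W) := Group.ofLeftAxioms
  (fun a b c => by
    ext i
    · simp [add_assoc, Equiv.Perm.mul_apply, mul_inv_rev]
    · simp [mul_assoc])
  (fun a => by ext i <;> simp)
  (fun a => by ext i <;> simp)

/-- The linear part. -/
def perm : Aff W →* Equiv.Perm (Fin 3) where
  toFun a := a.s
  map_one' := rfl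
  map_mul' _ _ := rfl

@[simp] theorem perm_apply (a : Aff W) : perm a = a.s := rfl

/-- Change of the coefficient group. -/
def map {W' : Type*} [AddCommGroup W'] (f : W →+ W') : Aff W →* Aff W' where
  toFun a := ⟨fun i => f (a.v i), a.s⟩
  map_one' := by ext i <;> simp
  map_mul' a b := by ext i <;> simp

@[simp] theorem map_v {W' : Type*} [AddCommGroup W'] (f : W →+ W') (a : Aff W) (i : Fin 3) :
    (map f a).v i = f (a.v i) := rfl
@[simp] theorem map_s {W' : Type*} [AddCommGroup W'] (f : W →+ W') (a : Aff W) :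
    (map f a).s = a.s := rfl

/-- The translation by `v`. -/
def tr (v : Fin 3 → W) : Aff W := ⟨v, 1⟩

@[simp] theorem tr_v (v : Fin 3 → W) : (tr v).v = v := rfl
@[simp] theorem tr_s (v : Fin 3 → W) : (tr v).s = 1 := rfl

/-- Sum zero (determinant one, additively and modulo torsion). -/
def SumZero (a : Aff W) : Prop := a.v 0 + a.v 1 + a.v 2 = 0

end Aff

end Pool.Agent.MCF
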