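import Pool.Agent.MCF.Stmts

set_option autoImplicit false

/-!
# MCF, module IMP: finite orbit modulo `GL₃(ℂ)` implies finite orbit modulo monomial matrices
-/

namespace Pool.Agent.MCF

open Equiv

namespace IMP_

/-- If among any `j` elements of `X` two are related, finitely many elements meet all classes. -/
theorem fin_classes {α : Type*} (X : Set α) (r : α → α → Prop) (j : ℕ)
    (h : ∀ L : List α, L.length = j → (∀ a ∈ L, a ∈ X) → ¬ L.Pairwise (fun a b => ¬ r a b)) :
    ∃ F : List α, ∀ x ∈ X, ∃ a ∈ F, r x a := by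
  induction j with
  | zero => exact absurd List.Pairwise.nil (h [] rfl (by simp))
  | succ j ih =>
    by_cases hj : ∀ L : List α, L.length = j → (∀ a ∈ L, a ∈ X) →
        ¬ L.Pairwise (fun a b => ¬ r a b)
    · exact ih hj
    · push Not at hj
      obtain ⟨L, hL, hX, hp⟩ := hj
      refine ⟨L, fun x hx => ?_⟩
      by_contra hc
      push Not at hc
      refine h (x :: L) (by simp [hL]) ?_ (List.pairwise_cons.2 ⟨hc, hp⟩)
      intro a ha
      rcases List.mem_cons.1 ha with rfl | ha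
      · exact hx
      · exact hX a ha

/-- The relation between corresponding entries. -/
def Q (g : GL (Fin 3) ℂ) (a b : Aff (Additive ℂˣ)) : Prop :=
  a.s = b.s ∧ Aff.mat b = g * Aff.mat a * g⁻¹

theorem forall2 (g : GL (Fin 3) ℂ) : ∀ l1 l2 : List (Aff (Additive ℂˣ)),
    l1.map Aff.perm = l2.map Aff.perm → l2.map Aff.mat = conjL g (l1.map Aff.mat) →
    List.Forall₂ (Q g) l1 l2 := by
  intro l1
  induction l1 with
  | nil =>
    intro l2 h1 _
    cases l2 with
    | nil => exact List.Forall₂.nil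
    | cons b l2 => simp at h1
  | cons a l1 ih =>
    intro l2 h1 h2
    cases l2 with
    | nil => simp at h1
    | cons b l2 =>
      simp only [List.map_cons, List.cons.injEq, conjL_cons] at h1 h2
      exact List.Forall₂.cons ⟨h1.1, h2.1⟩ (ih l2 h1.2 h2.2)

theorem conj_of_forall2 (h : Aff (Additive ℂˣ)) {l1 l2 : List (Aff (Additive ℂˣ))}
    (H : List.Forall₂ (fun a b => b = h * a * h⁻¹) l1 l2) : l2 = conjL h l1 := by
  induction H with
  | nil => rfl
  | cons h1 _ ih => rw [conjL_cons, ← h1, ← ih]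

/-- The entrywise relation. -/
theorem entry {g : GL (Fin 3) ℂ} {a b : Aff (Additive ℂˣ)} (h : Q g a b) (c j : Fin 3) :
    (g : Matrix (Fin 3) (Fin 3) ℂ) (a.s c) (a.s j) * (((a.v (a.s j)).toMul : ℂˣ) : ℂ) =
      (((b.v (a.s c)).toMul : ℂˣ) : ℂ) * (g : Matrix (Fin 3) (Fin 3) ℂ) c j := by
  have h1 : Aff.mat b * g = g * Aff.mat a := by
    rw [h.2]; group
  have h2 : ((Aff.mat b * g : GL (Fin 3) ℂ) : Matrix (Fin 3) (Fin 3) ℂ) (a.s c) j =
      ((g * Aff.mat a : GL (Fin 3) ℂ) : Matrix (Fin 3) (Fin 3) ℂ) (a.s c) j := by rw [h1]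
  rw [Units.val_mul, Units.val_mul, Matrix.mul_apply, Matrix.mul_apply] at h2
  rw [Finset.sum_eq_single c, Finset.sum_eq_single (a.s j)] at h2
  · rw [Aff.mat_apply, Aff.mat_apply, ← h.1] at h2
    simp only [if_true] at h2
    exact h2.symm
  · intro k _ hk
    rw [Aff.mat_apply, if_neg hk, mul_zero]
  · intro hk; exact absurd (Finset.mem_univ _) hk
  · intro k _ hk
    rw [Aff.mat_apply, ← h.1, if_neg, zero_mul]
    intro he
    exact hk (a.s.injective he).symm
  · intro hk; exact absurd (Finset.mem_univ _) hk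

/-- Conjugate by `g` with `g 0 0 ≠ 0`: conjugate by a diagonal matrix. -/
theorem diag_conj (g : GL (Fin 3) ℂ) (l1 l2 : List (Aff (Additive ℂˣ)))
    (hT : Transitive (l1.map Aff.perm))
    (h1 : l1.map Aff.perm = l2.map Aff.perm) (h2 : l2.map Aff.mat = conjL g (l1.map Aff.mat))
    (h0 : (g : Matrix (Fin 3) (Fin 3) ℂ) 0 0 ≠ 0) : ∃ h, l2 = conjL h l1 := by
  have hF := forall2 g l1 l2 h1 h2
  -- invariance of the zero pattern
  have inv1 : ∀ a b, Q g a b → ∀ c : Fin 3, (g : Matrix (Fin 3) (Fin 3) ℂ) c c ≠ 0 ↔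
      (g : Matrix (Fin 3) (Fin 3) ℂ) (a.s c) (a.s c) ≠ 0 := by
    intro a b hab c
    have e := entry hab c c
    have ha : (((a.v (a.s c)).toMul : ℂˣ) : ℂ) ≠ 0 := Units.ne_zero _
    have hb : (((b.v (a.s c)).toMul : ℂˣ) : ℂ) ≠ 0 := Units.ne_zero _
    constructor
    · intro hc hn
      rw [hn, zero_mul] at e
      exact (mul_ne_zero hb hc) e.symm
    · intro hc hn
      rw [hn, mul_zero] at e
      exact (mul_ne_zero hc ha) e
  have inv2 : ∀ σ ∈ Subgroup.closure {x | x ∈ l1.map Aff.perm}, ∀ c : Fin 3,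
      (g : Matrix (Fin 3) (Fin 3) ℂ) c c ≠ 0 ↔
      (g : Matrix (Fin 3) (Fin 3) ℂ) (σ c) (σ c) ≠ 0 := by
    intro σ hσ
    induction hσ using Subgroup.closure_induction with
    | mem x hx =>
      obtain ⟨a, ha, rfl⟩ := List.mem_map.1 hx
      obtain ⟨i, hi, hai⟩ := List.getElem_of_mem ha
      have hQ := hF.get (i := i) (by simpa using hi) (by
        have := hF.length_eq
        omega)
      simp only [List.get_eq_getElem] at hQ
      rw [hai] at hQ
      exact inv1 a _ hQ
    | one => intro c; simp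
    | mul x y _ _ hx hy => intro c; rw [hy c, hx (y c)]; rfl
    | inv x _ hx => intro c; rw [hx (x⁻¹ c)]; simp
  have hall : ∀ j : Fin 3, (g : Matrix (Fin 3) (Fin 3) ℂ) j j ≠ 0 := by
    intro j
    obtain ⟨σ, hσ, hj⟩ := hT 0 j
    rw [← hj]
    exact (inv2 σ hσ 0).1 h0
  refine ⟨⟨fun j => Additive.ofMul (Units.mk0 _ (hall j)), 1⟩, conj_of_forall2 _ ?_⟩
  refine hF.imp ?_
  intro a b hab
  ext i
  · have e := entry hab (a.s⁻¹ i) (a.s⁻¹ i)
    have hi : a.s (a.s⁻¹ i) = i := by simp
    rw [hi] at e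
    have e2 : (b.v i).toMul = Units.mk0 _ (hall i) * (a.v i).toMul *
        (Units.mk0 _ (hall (a.s⁻¹ i)))⁻¹ := by
      apply Units.ext
      simp only [Units.val_mul, Units.val_inv_eq_inv_val, Units.val_mk0]
      rw [e, mul_assoc, mul_inv_cancel₀ (hall _), mul_one]
    apply Additive.toMul.injective
    rw [e2]
    rfl
  · simp [hab.1]

end IMP_

open IMP_ in
theorem imp_proof : Stmt_IMP := by
  intro l hT hfin
  obtain ⟨S, hS, H⟩ := hfin
  have key : ∀ s : List (GL (Fin 3) ℂ), ∀ π : List (Perm (Fin 3)),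
      ∃ F : List (List (Aff (Additive ℂˣ))), ∀ x, HEquiv l x → x.map Aff.perm = π →
        (∃ g, x.map Aff.mat = conjL g s) → ∃ a ∈ F, ∃ g, x = conjL g a := by
    intro s π
    obtain ⟨F, hF⟩ := fin_classes
      {x : List (Aff (Additive ℂˣ)) | HEquiv l x ∧ x.map Aff.perm = π ∧
        ∃ g, x.map Aff.mat = conjL g s} (fun x a => ∃ g, x = conjL g a) 4 (by
      intro L hL hX hp
      let u : Fin 4 → List (Aff (Additive ℂˣ)) := fun i => L.get (i.cast hL.symm)
      have hX' : ∀ i, HEquiv l (u i) ∧ (u i).map Aff.perm = π ∧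
          ∃ g, (u i).map Aff.mat = conjL g s := by
        intro i
        exact hX (u i) (List.get_mem _ _)
      choose g hg using fun i => (hX' i).2.2
      have hneg : ∀ i j : Fin 4, i < j → ¬ ∃ h, u i = conjL h (u j) := by
        intro i j hij
        exact List.pairwise_iff_get.1 hp (i.cast hL.symm) (j.cast hL.symm) (by simpa using hij)
      have hne : ∀ i j : Fin 4, i ≠ j → ¬ ∃ h, u i = conjL h (u j) := by
        intro i j hij
        rcases lt_or_gt_of_ne hij with h | h
        · exact hneg i j h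
        · rintro ⟨k, hk⟩
          refine hneg j i h ⟨k⁻¹, ?_⟩
          rw [hk, conjL_inv_conjL]
      have h00 : ∀ i j : Fin 4, i ≠ j →
          ((g i * (g j)⁻¹ : GL (Fin 3) ℂ) : Matrix (Fin 3) (Fin 3) ℂ) 0 0 = 0 := by
        intro i j hij
        by_contra hn
        refine hne i j hij (diag_conj (g i * (g j)⁻¹) (u j) (u i) ?_ ?_ ?_ hn)
        · intro a b
          obtain ⟨τ, hτ, e⟩ := hT a b
          refine ⟨τ, ?_, e⟩
          rw [← ((hX' j).1.map Aff.perm).closure_eq]
          exact hτ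
        · rw [(hX' i).2.1, (hX' j).2.1]
        · rw [hg i, hg j, conjL_mul, conjL_inv_conjL]
      let A : Matrix (Fin 4) (Fin 3) ℂ := fun i k => (g i : Matrix (Fin 3) (Fin 3) ℂ) 0 k
      let B : Matrix (Fin 3) (Fin 4) ℂ := fun k j =>
        (((g j)⁻¹ : GL (Fin 3) ℂ) : Matrix (Fin 3) (Fin 3) ℂ) k 0
      have hAB : A * B = 1 := by
        ext i j
        have e : (A * B) i j =
            ((g i * (g j)⁻¹ : GL (Fin 3) ℂ) : Matrix (Fin 3) (Fin 3) ℂ) 0 0 := by
          rw [Units.val_mul, Matrix.mul_apply, Matrix.mul_apply]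
        rw [e]
        by_cases hij : i = j
        · subst hij
          rw [mul_inv_cancel]
          simp
        · rw [h00 i j hij, Matrix.one_apply_ne hij]
      have r1 : (A * B).rank ≤ 3 := by
        refine (Matrix.rank_mul_le_left A B).trans ?_
        simpa using Matrix.rank_le_card_width A
      rw [hAB, Matrix.rank_one] at r1
      simp at r1)
    exact ⟨F, fun x h1 h2 h3 => hF x ⟨h1, h2, h3⟩⟩
  choose F hF using key
  have hP : {π : List (Perm (Fin 3)) | π.length = l.length}.Finite := List.finite_length_eq _ _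
  refine ⟨⋃ s ∈ S, ⋃ π ∈ {π : List (Perm (Fin 3)) | π.length = l.length},
    {a | a ∈ F s π}, ?_, ?_⟩
  · refine hS.biUnion fun s _ => hP.biUnion fun π _ => ?_
    exact List.finite_toSet _
  · intro l' hl'
    obtain ⟨s, hs, g, hg⟩ := H _ (hl'.map Aff.mat)
    obtain ⟨a, ha, k, hk⟩ := hF s (l'.map Aff.perm) l' hl' rfl ⟨g, hg⟩
    refine ⟨a, ?_, k, hk⟩
    simp only [Set.mem_iUnion]
    refine ⟨s, hs, l'.map Aff.perm, ?_, ha⟩
    simp [hl'.length_eq]

end Pool.Agent.MCF
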