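import Pool.Agent.MCF.Main
import Pool.Agent.MCF.IMP

namespace Pool.Agent.MCF

open Equiv

theorem finiteOrbit_of_finite_closure {G : Type} [Group G] (l : List G)
    (h : Finite (Subgroup.closure {x | x ∈ l})) : FiniteOrbit l := by
  have hfin : ((Subgroup.closure {x | x ∈ l} : Subgroup G) : Set G).Finite :=
    Set.toFinite _
  refine ⟨_, finite_lists hfin l.length, ?_⟩
  intro l' e
  refine ⟨l', ⟨e.length_eq.symm, ?_⟩, 1, by simp⟩
  intro x hx
  rw [e.closure_eq]
  exact Subgroup.subset_closure hx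

/-! ### Transfer between `SL₃(ℂ)`, the monomial group and its quotient modulo torsion -/

/-- `L` is a list of monomial elements representing `l` -/
def Rel (l : List SL3) (L : List (Aff (Additive ℂˣ))) : Prop :=
  L.map Aff.mat = l.map Matrix.SpecialLinearGroup.toGL

theorem Rel.lift1 {l l' : List SL3} {L : List (Aff (Additive ℂˣ))} (h : Rel l L)
    (e : HEquiv l l') : ∃ L', HEquiv L L' ∧ Rel l' L' := by
  have h1 := e.map (Matrix.SpecialLinearGroup.toGL (n := Fin 3) (R := ℂ))
  have h2 : HEquiv (L.map Aff.mat) (l'.map Matrix.SpecialLinearGroup.toGL) := by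
    rw [h]; exact h1
  obtain ⟨L', e', hL'⟩ := HEquiv.lift Aff.mat h2
  exact ⟨L', e', hL'⟩

theorem Rel.lift2 {l : List SL3} {L L' : List (Aff (Additive ℂˣ))} (h : Rel l L)
    (e : HEquiv L L') : ∃ l', HEquiv l l' ∧ Rel l' L' := by
  have h1 := e.map Aff.mat
  have h2 : HEquiv (l.map (Matrix.SpecialLinearGroup.toGL (n := Fin 3) (R := ℂ)))
      (L'.map Aff.mat) := by
    rw [← h]; exact h1
  obtain ⟨l', e', hl'⟩ := HEquiv.lift _ h2
  exact ⟨l', e', hl'.symm⟩

theorem Rel.prod {l : List SL3} {L : List (Aff (Additive ℂˣ))} (h : Rel l L)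
    (hp : l.prod = 1) : L.prod = 1 := by
  apply mat_injective
  have h1 : (L.map Aff.mat).prod = Aff.mat L.prod := by
    rw [List.prod_hom]
  have h2 : (l.map (Matrix.SpecialLinearGroup.toGL (n := Fin 3) (R := ℂ))).prod =
      Matrix.SpecialLinearGroup.toGL l.prod := by
    rw [List.prod_hom]
  rw [← h1, h, h2, hp, map_one, map_one]

theorem Rel.sum0 {l : List SL3} {L : List (Aff (Additive ℂˣ))} (h : Rel l L) :
    AllSum0 (L.map (Aff.map phi)) := by
  intro a ha
  obtain ⟨b, hb, rfl⟩ := List.mem_map.mp ha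
  have h1 : Aff.mat b ∈ L.map Aff.mat := List.mem_map_of_mem hb
  rw [h] at h1
  obtain ⟨A, _, hA⟩ := List.mem_map.mp h1
  exact sum0_of_det hA.symm

theorem Rel.finite_iff {l : List SL3} {L : List (Aff (Additive ℂˣ))} (h : Rel l L)
    (htr : Transitive (L.map Aff.s)) :
    FiniteOrbit l ↔ FiniteOrbit (L.map (Aff.map phi)) := by
  constructor
  · intro hf
    have h1 := hf.map (Matrix.SpecialLinearGroup.toGL (n := Fin 3) (R := ℂ))
    rw [← h] at h1
    exact (imp_proof L htr h1).map (Aff.map phi)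
  · intro hf
    have h1 := tor_proof (Additive ℂˣ) WW phi phi_surj phi_ker torsion_finite L hf
    have h2 := h1.map Aff.mat
    rw [h] at h2
    exact slg_proof l h2

/-- groups centred modulo torsion are finite -/
theorem closure_finite_aff (L : List (Aff (Additive ℂˣ))) (c : Fin 3 → WW)
    (h : ∀ a ∈ L.map (Aff.map phi), a ∈ centred c) :
    Finite (Subgroup.closure {x | x ∈ L}) := by
  choose c0 hc0 using fun i => phi_surj (c i)
  have hmap : Aff.map phi (Aff.tr c0) = Aff.tr c := by
    apply Aff.ext'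
    · ext i; exact hc0 i
    · rfl
  -- torsion
  have htor : ∀ a ∈ L, ∀ i, ∃ n : ℕ, 0 < n ∧
      n • (Aff.tr c0 * a * (Aff.tr c0)⁻¹).v i = 0 := by
    intro a ha i
    apply phi_ker
    have h1 := h (Aff.map phi a) (List.mem_map_of_mem ha)
    have h2 : (Aff.tr c * Aff.map phi a * (Aff.tr c)⁻¹).v = 0 := h1
    rw [← hmap, ← map_inv, ← map_mul, ← map_mul] at h2
    exact congrFun h2 i
  obtain ⟨N, hN, hNt⟩ : ∃ N : ℕ, 0 < N ∧ ∀ a ∈ L, ∀ i,
      N • (Aff.tr c0 * a * (Aff.tr c0)⁻¹).v i = 0 := by
    clear h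
    induction L with
    | nil => exact ⟨1, one_pos, by simp⟩
    | cons a L ih =>
      obtain ⟨N, hN, H⟩ := ih (fun b hb => htor b (by simp [hb]))
      choose n hn hn2 using htor a (by simp)
      refine ⟨N * (n 0 * n 1 * n 2), ?_, ?_⟩
      · have := hn 0; have := hn 1; have := hn 2; positivity
      · intro b hb i
        rcases List.mem_cons.mp hb with rfl | hb
        · have hd : n i ∣ N * (n 0 * n 1 * n 2) := by
            apply dvd_mul_of_dvd_right
            fin_cases i
            · exact dvd_mul_of_dvd_left (dvd_mul_right _ _) _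
            · exact dvd_mul_of_dvd_left (dvd_mul_left _ _) _
            · exact dvd_mul_left _ _
          obtain ⟨k, hk⟩ := hd
          rw [hk, mul_comm, mul_smul, hn2 i, smul_zero]
        · rw [mul_comm, mul_smul, H b hb i, smul_zero]
  -- the finite subgroup
  let K : Subgroup (Aff (Additive ℂˣ)) :=
    { carrier := {a | ∀ i, N • (Aff.tr c0 * a * (Aff.tr c0)⁻¹).v i = 0}
      mul_mem' := by
        intro a b ha hb i
        have e : Aff.tr c0 * (a * b) * (Aff.tr c0)⁻¹ =
          (Aff.tr c0 * a * (Aff.tr c0)⁻¹) * (Aff.tr c0 * b * (Aff.tr c0)⁻¹) := by group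
        rw [e, Aff.mul_v, nsmul_add, ha i, hb _, add_zero]
      one_mem' := by intro i; simp
      inv_mem' := by
        intro a ha i
        have e : Aff.tr c0 * a⁻¹ * (Aff.tr c0)⁻¹ = (Aff.tr c0 * a * (Aff.tr c0)⁻¹)⁻¹ := by group
        rw [e, Aff.inv_v, neg_nsmul, ha _, neg_zero] }
  have hK : (K : Set (Aff (Additive ℂˣ))).Finite := by
    have h1 : {v : Fin 3 → Additive ℂˣ | ∀ i, N • v i = 0}.Finite := by
      have := Set.Finite.pi' (fun (_ : Fin 3) => torsion_finite N hN)
      exact this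
    have h2 := h1.prod (Set.finite_univ (α := Perm (Fin 3)))
    refine Set.Finite.of_finite_image (f := fun a : Aff (Additive ℂˣ) =>
      ((Aff.tr c0 * a * (Aff.tr c0)⁻¹).v, (Aff.tr c0 * a * (Aff.tr c0)⁻¹).s)) (h2.subset ?_) ?_
    · rintro _ ⟨a, ha, rfl⟩
      exact ⟨ha, Set.mem_univ _⟩
    · intro a _ b _ hab
      simp only [Prod.mk.injEq] at hab
      have := Aff.ext' hab.1 hab.2
      exact mul_left_cancel (mul_right_cancel this)
  have hle : Subgroup.closure {x | x ∈ L} ≤ K := by
    rw [Subgroup.closure_le]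
    intro a ha
    exact hNt a ha
  have : Finite K := hK.to_subtype
  exact Finite.of_injective (Subgroup.inclusion hle) (Subgroup.inclusion_injective hle)

theorem Rel.closure_finite {l : List SL3} {L : List (Aff (Additive ℂˣ))} (h : Rel l L)
    (hf : Finite (Subgroup.closure {x | x ∈ L})) : Finite (Subgroup.closure {x | x ∈ l}) := by
  have h1 : (Subgroup.closure {x | x ∈ L}).map Aff.mat =
      (Subgroup.closure {x | x ∈ l}).map Matrix.SpecialLinearGroup.toGL := by
    rw [MonoidHom.map_closure, MonoidHom.map_closure]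
    congr 1
    ext x
    have : x ∈ L.map Aff.mat ↔ x ∈ l.map Matrix.SpecialLinearGroup.toGL := by rw [h]
    simpa [Set.mem_image, List.mem_map] using this
  have h2 : (((Subgroup.closure {x | x ∈ L}).map Aff.mat : Subgroup (GL (Fin 3) ℂ)) :
      Set (GL (Fin 3) ℂ)).Finite := by
    rw [Subgroup.coe_map]
    exact (Set.toFinite _).image _
  rw [h1] at h2
  have h3 := h2.to_subtype
  have hinj : Function.Injective (Matrix.SpecialLinearGroup.toGL (n := Fin 3) (R := ℂ)) :=
    Matrix.SpecialLinearGroup.toGL_injective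
  exact Finite.of_equiv _ (Subgroup.equivMapOfInjective (Subgroup.closure {x | x ∈ l}) _
    hinj).symm.toEquiv

end Pool.Agent.MCF
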