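import Pool.Agent.MCF.Stmts

/-!
# MP_4bc213_ag: module MRG
-/

namespace Pool.Agent.MCF

section
variable {G : Type*} [Group G]

theorem mrg_key {m m' : List G} (h : HEquiv m m') :
    (∀ parts : List (List G), parts.map List.prod = m → ∃ parts' : List (List G),
      parts'.map List.prod = m' ∧ HEquiv parts.flatten parts'.flatten ∧
        parts'.length = parts.length) ∧
    (∀ parts : List (List G), parts.map List.prod = m' → ∃ parts' : List (List G),
      parts'.map List.prod = m ∧ HEquiv parts.flatten parts'.flatten ∧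
        parts'.length = parts.length) := by
  refine HEquiv.induct (P := fun m m' =>
    (∀ parts : List (List G), parts.map List.prod = m → ∃ parts' : List (List G),
      parts'.map List.prod = m' ∧ HEquiv parts.flatten parts'.flatten ∧
        parts'.length = parts.length) ∧
    (∀ parts : List (List G), parts.map List.prod = m' → ∃ parts' : List (List G),
      parts'.map List.prod = m ∧ HEquiv parts.flatten parts'.flatten ∧
        parts'.length = parts.length)) ?_ ?_ ?_ ?_ h
  · rintro _ _ ⟨p, a, b, q⟩
    constructor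
    · intro parts hl
      obtain ⟨P, l₂, rfl, hp, hl₂⟩ := List.map_eq_append_iff.mp hl
      obtain ⟨A, l₃, rfl, ha, hl₃⟩ := List.map_eq_cons_iff.mp hl₂
      obtain ⟨B, Q, rfl, hb, hq⟩ := List.map_eq_cons_iff.mp hl₃
      refine ⟨P ++ B :: (conjL B.prod⁻¹ A) :: Q, ?_, ?_, ?_⟩
      · simp only [List.map_append, List.map_cons, conjL_prod, hp, ha, hb, hq, inv_inv]
      · have := (HEquiv.swapR A B).app P.flatten Q.flatten
        simpa [List.append_assoc] using this
      · simp
    · intro parts hl
      obtain ⟨P, l₂, rfl, hp, hl₂⟩ := List.map_eq_append_iff.mp hl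
      obtain ⟨B, l₃, rfl, hb, hl₃⟩ := List.map_eq_cons_iff.mp hl₂
      obtain ⟨C, Q, rfl, hc, hq⟩ := List.map_eq_cons_iff.mp hl₃
      refine ⟨P ++ (conjL B.prod C) :: B :: Q, ?_, ?_, ?_⟩
      · have e : b * (b⁻¹ * a * b) * b⁻¹ = a := by group
        simp only [List.map_append, List.map_cons, conjL_prod, hp, hb, hc, hq, e]
      · have := (HEquiv.swapL B C).app P.flatten Q.flatten
        simpa [List.append_assoc] using this
      · simp
  · intro l
    exact ⟨fun Q h => ⟨Q, h, HEquiv.refl _, rfl⟩, fun Q h => ⟨Q, h, HEquiv.refl _, rfl⟩⟩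
  · intro l l' h; exact ⟨h.2, h.1⟩
  · intro a b c h h'
    constructor
    · intro Q hQ
      obtain ⟨Q1, h1, h2, h3⟩ := h.1 Q hQ
      obtain ⟨Q2, h4, h5, h6⟩ := h'.1 Q1 h1
      exact ⟨Q2, h4, h2.trans h5, h6.trans h3⟩
    · intro Q hQ
      obtain ⟨Q1, h1, h2, h3⟩ := h'.2 Q hQ
      obtain ⟨Q2, h4, h5, h6⟩ := h.2 Q1 h1
      exact ⟨Q2, h4, h2.trans h5, h6.trans h3⟩

theorem mrg_fin (N : ℕ) : ∀ s : List G,
    {Q : List (List G) | Q.flatten = s ∧ Q.length = N}.Finite := by
  induction N with
  | zero =>
    intro s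
    refine (Set.finite_singleton ([] : List (List G))).subset ?_
    rintro Q ⟨_, hQ⟩
    exact List.length_eq_zero_iff.mp hQ
  | succ N ih =>
    intro s
    have hfin : (⋃ k ∈ Finset.range (s.length + 1),
        (fun Q' : List (List G) => s.take k :: Q') ''
          {Q' : List (List G) | Q'.flatten = s.drop k ∧ Q'.length = N}).Finite := by
      apply Set.Finite.biUnion (Finset.finite_toSet _)
      intro k _
      exact (ih (s.drop k)).image _
    refine hfin.subset ?_
    rintro Q ⟨h1, h2⟩
    obtain _ | ⟨A, Q'⟩ := Q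
    · simp at h2
    · simp only [List.flatten_cons] at h1
      simp only [List.length_cons, Nat.add_right_cancel_iff] at h2
      simp only [Set.mem_iUnion]
      refine ⟨A.length, ?_, Q', ⟨?_, h2⟩, ?_⟩
      · rw [Finset.mem_range, ← h1, List.length_append]; omega
      · rw [← h1, List.drop_left']
        rfl
      · change s.take A.length :: Q' = A :: Q'
        rw [← h1, List.take_left']
        rfl

end

theorem mrg_proof : Stmt_MRG := by
  intro G _ parts h
  obtain ⟨S, hS, HS⟩ := h
  refine ⟨⋃ s ∈ S, (fun Q : List (List G) => Q.map List.prod) ''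
    {Q : List (List G) | Q.flatten = s ∧ Q.length = parts.length}, ?_, ?_⟩
  · apply Set.Finite.biUnion hS
    intro s _
    exact (mrg_fin parts.length s).image _
  · intro l' hl'
    obtain ⟨P', h1, h2, h3⟩ := (mrg_key hl').1 parts rfl
    obtain ⟨s, hs, g, hg⟩ := HS _ h2
    refine ⟨(P'.map (conjL g⁻¹)).map List.prod, ?_, g, ?_⟩
    · simp only [Set.mem_iUnion]
      refine ⟨s, hs, P'.map (conjL g⁻¹), ⟨?_, ?_⟩, rfl⟩
      · have e : (P'.map (conjL g⁻¹)).flatten = conjL g⁻¹ P'.flatten := by
          unfold conjL
          rw [List.map_flatten]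
        rw [e, hg, conjL_inv_conjL]
      · rw [List.length_map, h3]
    · rw [← h1]
      unfold conjL
      rw [List.map_map, List.map_map]
      apply List.map_congr_left
      intro A _
      have e := conjL_prod g⁻¹ A
      unfold conjL at e
      simp only [Function.comp]
      rw [e]
      group

end Pool.Agent.MCF
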