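import Pool.Agent.MCF.Stmts

namespace Pool.Agent.MCF

open Equiv

namespace NF

abbrev P3 := Perm (Fin 3)

set_option maxRecDepth 100000

theorem rot_conj : ∀ a r : P3, IsRot r → IsRot (a * r * a⁻¹) := by decide
theorem refl_conj : ∀ a r : P3, IsRefl r → IsRefl (a * r * a⁻¹) := by decide
theorem refl_conj' : ∀ a r : P3, IsRefl r → IsRefl (a⁻¹ * r * a) := by decide
theorem rot_mul : ∀ x y : P3, IsRefl x → IsRefl y → x ≠ y → IsRot (x * y) := by decide
theorem rot_comm : ∀ a r : P3, IsRefl a → IsRot r → r⁻¹ * a * r ≠ a := by decide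
theorem rot_or_refl : ∀ a : P3, a ≠ 1 → IsRot a ∨ IsRefl a := by decide
theorem rot_sign : ∀ a : P3, IsRot a → Perm.sign a = 1 := by decide
theorem refl_sign : ∀ a : P3, IsRefl a → Perm.sign a = -1 := by decide
theorem refl_fix : ∀ a : P3, IsRefl a → ∃ i, a i = i := by decide
theorem ram_conj : ∀ a b : P3, ram (b⁻¹ * a * b) = ram a := by decide
theorem ram_rot : ∀ a : P3, IsRot a → ram a = 2 := by decide
theorem ram_refl : ∀ a : P3, IsRefl a → ram a = 1 := by decide
theorem ram_one : ram (1 : P3) = 0 := by decide

theorem RotPart.conj {C : List P3} (h : RotPart C) (a : P3) : RotPart (conjL a C) := by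
  rcases h with ⟨r, hr, rfl⟩ | ⟨x, y, hx, hy, hxy, rfl⟩
  · exact Or.inl ⟨a * r * a⁻¹, rot_conj a r hr, rfl⟩
  · refine Or.inr ⟨a * x * a⁻¹, a * y * a⁻¹, refl_conj a x hx, refl_conj a y hy, ?_, rfl⟩
    intro h
    exact hxy (by simpa using h)

theorem RotPart.prod {C : List P3} (h : RotPart C) : IsRot C.prod := by
  rcases h with ⟨r, hr, rfl⟩ | ⟨x, y, hx, hy, hxy, rfl⟩
  · simpa using hr
  · simpa using rot_mul x y hx hy hxy

theorem RotPart.ram {C : List P3} (h : RotPart C) : (C.map ram).sum = 2 := by
  rcases h with ⟨r, hr, rfl⟩ | ⟨x, y, hx, hy, hxy, rfl⟩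
  · simp [ram_rot r hr]
  · simp [ram_refl x hx, ram_refl y hy]

/-- move the trivial entries to the end -/
theorem trivial_end (l : List P3) :
    ∃ (l' : List P3) (v : ℕ), HEquiv l (l' ++ List.replicate v 1) ∧ ∀ x ∈ l', x ≠ 1 := by
  induction l with
  | nil => exact ⟨[], 0, by simpa using HEquiv.refl _, by simp⟩
  | cons a l ih =>
    obtain ⟨l', v, h1, h2⟩ := ih
    by_cases ha : a = 1
    · subst ha
      refine ⟨l', v + 1, ?_, h2⟩
      have h3 := HEquiv.moveR 1 (l' ++ List.replicate v (1 : P3))
      have e : (l' ++ List.replicate v (1 : P3)).prod⁻¹ * 1 *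
          (l' ++ List.replicate v (1 : P3)).prod = 1 := by group
      rw [e] at h3
      refine (h1.cons 1).trans ?_
      have e2 : l' ++ List.replicate (v + 1) (1 : P3) =
          (l' ++ List.replicate v 1) ++ [1] := by
        rw [List.replicate_succ', List.append_assoc]
      rw [e2]
      exact h3
    · refine ⟨a :: l', v, h1.cons a, ?_⟩
      intro x hx
      rcases List.mem_cons.mp hx with rfl | hx
      · exact ha
      · exact h2 x hx

theorem two_refl (a : P3) (ha : IsRefl a) (C : List P3) (hC : RotPart C) :
    ∃ C' D : List P3, RotPart C' ∧ RotPart D ∧ HEquiv ([a, a] ++ C) (C' ++ D) := by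
  have hC' := RotPart.conj hC a
  set Q := (conjL a C).prod with hQ
  have hQr : IsRot Q := RotPart.prod hC'
  refine ⟨conjL a C, [Q⁻¹ * a * Q, a], hC', ?_, ?_⟩
  · exact Or.inr ⟨Q⁻¹ * a * Q, a, refl_conj' Q a ha, ha, rot_comm a Q ha hQr, rfl⟩
  · have h1 := (HEquiv.moveR' a C).cons a
    have h2 := (HEquiv.moveR a (conjL a C)).app_right [a]
    refine (by simpa using h1 : HEquiv ([a, a] ++ C) (a :: (conjL a C ++ [a]))).trans ?_
    simpa [hQ] using h2

theorem even_refl (a : P3) (ha : IsRefl a) (m : ℕ) : ∀ C : List P3, RotPart C →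
    ∃ parts : List (List P3), (∀ c ∈ parts, RotPart c) ∧
      HEquiv (List.replicate (2 * m) a ++ C) parts.flatten := by
  induction m with
  | zero =>
    intro C hC
    exact ⟨[C], by simpa using hC, by simpa using HEquiv.refl C⟩
  | succ m ih =>
    intro C hC
    obtain ⟨C', D, hC', hD, h1⟩ := two_refl a ha C hC
    obtain ⟨parts, hp, h2⟩ := ih C' hC'
    refine ⟨parts ++ [D], ?_, ?_⟩
    · intro c hc
      rcases List.mem_append.mp hc with hc | hc
      · exact hp c hc
      · rw [List.mem_singleton.mp hc]; exact hD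
    · have e : List.replicate (2 * (m + 1)) a ++ C =
          List.replicate (2 * m) a ++ ([a, a] ++ C) := by
        have : 2 * (m + 1) = 2 * m + 2 := by ring
        rw [this, List.replicate_add, List.append_assoc]
        rfl
      rw [e]
      refine (h1.app_left (List.replicate (2 * m) a)).trans ?_
      have h3 := h2.app_right D
      have e2 : (parts ++ [D]).flatten = parts.flatten ++ D := by simp
      rw [e2]
      simpa using h3

theorem sign_prod_replicate (a : P3) (ha : IsRefl a) (l : List P3) (hl : ∀ x ∈ l, x = a)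
    (hs : Perm.sign l.prod = 1) : ∃ m, l = List.replicate (2 * m) a := by
  have h1 : l = List.replicate l.length a := List.eq_replicate_iff.mpr ⟨rfl, hl⟩
  rw [h1, List.prod_replicate, map_pow, refl_sign a ha] at hs
  have h2 : Even l.length := by
    by_contra hodd
    rw [Nat.not_even_iff_odd] at hodd
    rw [hodd.neg_one_pow] at hs
    exact absurd hs (by decide)
  obtain ⟨m, hm⟩ := h2
  refine ⟨m, ?_⟩
  rw [h1, hm]
  congr 1
  ring

/-- a list without trivial entries either splits off a rotation part or is constant -/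
theorem split_off (l : List P3) (h1 : ∀ x ∈ l, x ≠ 1) :
    (∃ l₁ C, RotPart C ∧ (∀ x ∈ l₁, x ≠ 1) ∧ l₁.length < l.length ∧ HEquiv l (l₁ ++ C)) ∨
      (∃ a, IsRefl a ∧ ∀ x ∈ l, x = a) := by
  -- general transport
  have key : ∀ (p C q : List P3), RotPart C → l = p ++ (C ++ q) →
      (∃ l₁ C, RotPart C ∧ (∀ x ∈ l₁, x ≠ 1) ∧ l₁.length < l.length ∧
        HEquiv l (l₁ ++ C)) := by
    intro p C q hC hl
    have hlen : 0 < C.length := by
      rcases hC with ⟨r, hr, rfl⟩ | ⟨x, y, hx, hy, hxy, rfl⟩ <;> simp
    refine ⟨p ++ conjL C.prod q, C, hC, ?_, ?_, ?_⟩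
    · intro x hx
      rcases List.mem_append.mp hx with hx | hx
      · exact h1 x (by rw [hl]; simp [hx])
      · obtain ⟨b, hb, rfl⟩ := mem_conjL.mp hx
        have hb1 : b ≠ 1 := h1 b (by rw [hl]; simp [hb])
        intro h
        apply hb1
        have : b = (C.prod)⁻¹ * (C.prod * b * (C.prod)⁻¹) * C.prod := by group
        rw [this, h]; group
    · rw [hl]
      simp only [List.length_append, conjL_length]
      omega
    · rw [hl]
      have := (HEquiv.swapL C q).app_left p
      simpa [List.append_assoc] using this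
  by_cases hrot : ∃ r ∈ l, IsRot r
  · obtain ⟨r, hr, hrr⟩ := hrot
    obtain ⟨p, q, hl⟩ := List.append_of_mem hr
    exact Or.inl (key p [r] q (Or.inl ⟨r, hrr, rfl⟩) (by simpa using hl))
  · have hall : ∀ x ∈ l, IsRefl x := by
      intro x hx
      rcases rot_or_refl x (h1 x hx) with h | h
      · exact absurd ⟨x, hx, h⟩ hrot
      · exact h
    -- adjacent different entries or constant
    have hadj : ∀ l : List P3, (∀ x ∈ l, IsRefl x) →
        (∃ p x y q, l = p ++ x :: y :: q ∧ x ≠ y) ∨ (∃ a, IsRefl a ∧ ∀ x ∈ l, x = a) := by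
      intro l
      induction l with
      | nil =>
        intro _
        refine Or.inr ⟨swap 0 1, by decide, by simp⟩
      | cons x l ih =>
        intro h
        rcases ih (fun y hy => h y (by simp [hy])) with ⟨p, u, v, q, rfl, huv⟩ | ⟨a, ha, hl⟩
        · exact Or.inl ⟨x :: p, u, v, q, rfl, huv⟩
        · cases l with
          | nil =>
            exact Or.inr ⟨x, h x (by simp), by simp⟩
          | cons y l =>
            by_cases hxy : x = y
            · refine Or.inr ⟨a, ha, ?_⟩
              intro z hz
              rcases List.mem_cons.mp hz with rfl | hz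
              · rw [hxy]; exact hl y (by simp)
              · exact hl z hz
            · exact Or.inl ⟨[], x, y, l, rfl, hxy⟩
    rcases hadj l hall with ⟨p, x, y, q, hl, hxy⟩ | h
    · have hx : IsRefl x := hall x (by rw [hl]; simp)
      have hy : IsRefl y := hall y (by rw [hl]; simp)
      exact Or.inl (key p [x, y] q (Or.inr ⟨x, y, hx, hy, hxy, rfl⟩) (by simpa using hl))
    · exact Or.inr h

theorem main_split (n : ℕ) : ∀ l : List P3, l.length = n → (∀ x ∈ l, x ≠ 1) →
    Perm.sign l.prod = 1 →
    (∃ parts : List (List P3), (∀ c ∈ parts, RotPart c) ∧ HEquiv l parts.flatten) ∨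
      (∃ a, IsRefl a ∧ ∀ x ∈ l, x = a) := by
  induction n using Nat.strong_induction_on with
  | _ n ih =>
    intro l hn h1 hs
    rcases split_off l h1 with ⟨l₁, C, hC, h2, hlen, he⟩ | h
    · have hs1 : Perm.sign l₁.prod = 1 := by
        have e := he.prod_eq
        rw [e, List.prod_append, map_mul, rot_sign _ (RotPart.prod hC), mul_one] at hs
        exact hs
      left
      rcases ih l₁.length (by omega) l₁ rfl h2 hs1 with ⟨parts, hp, h3⟩ | ⟨a, ha, h3⟩
      · refine ⟨parts ++ [C], ?_, ?_⟩
        · intro c hc
          rcases List.mem_append.mp hc with hc | hc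
          · exact hp c hc
          · rw [List.mem_singleton.mp hc]; exact hC
        · have e2 : (parts ++ [C]).flatten = parts.flatten ++ C := by simp
          rw [e2]
          exact he.trans (h3.app_right C)
      · obtain ⟨m, hm⟩ := sign_prod_replicate a ha l₁ h3 hs1
        obtain ⟨parts, hp, h4⟩ := even_refl a ha m C hC
        refine ⟨parts, hp, ?_⟩
        rw [hm] at he
        exact he.trans h4
    · exact Or.inr h

theorem ram_sum_eq {l l' : List P3} (h : HEquiv l l') :
    (l.map ram).sum = (l'.map ram).sum := by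
  refine HEquiv.induct (P := fun l l' => (l.map ram).sum = (l'.map ram).sum) ?_ ?_ ?_ ?_ h
  · rintro _ _ ⟨p, a, b, q⟩
    simp only [List.map_append, List.map_cons, List.sum_append, List.sum_cons, ram_conj]
    omega
  · intro l; rfl
  · intro l l' h; exact h.symm
  · intro a b c h h'; exact h.trans h'

theorem ram_parts (parts : List (List P3)) (h : ∀ c ∈ parts, RotPart c) :
    (parts.flatten.map ram).sum = 2 * parts.length := by
  induction parts with
  | nil => simp
  | cons c parts ih =>
    have h1 := RotPart.ram (h c (by simp))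
    have h2 := ih (fun c hc => h c (by simp [hc]))
    simp only [List.flatten_cons, List.map_append, List.sum_append, List.length_cons, h1, h2]
    ring

end NF

open NF in
theorem nf_proof : Stmt_NF := by
  intro τ hprod htr
  obtain ⟨l', v, h1, h2⟩ := trivial_end τ
  have hp : l'.prod = 1 := by
    have e := h1.prod_eq
    rw [hprod, List.prod_append, List.prod_replicate, one_pow, mul_one] at e
    exact e.symm
  -- transitivity transported
  have htr' : Transitive (l' ++ List.replicate v 1) := by
    intro i j
    obtain ⟨g, hg, hgij⟩ := htr i j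
    refine ⟨g, ?_, hgij⟩
    rw [← h1.closure_eq]
    exact hg
  rcases main_split _ l' rfl h2 (by rw [hp]; simp) with ⟨parts, hparts, h3⟩ | ⟨a, ha, hall⟩
  · have he : HEquiv τ (parts.flatten ++ List.replicate v 1) := h1.trans (h3.app_right _)
    refine ⟨parts, v, hparts, he, ?_, ?_⟩
    · rw [ram_sum_eq he, List.map_append, List.sum_append, ram_parts parts hparts]
      simp [ram_one]
    · match parts, hparts, h3, he with
      | [], _, _, he =>
        exfalso
        obtain ⟨g, hg, hgij⟩ := htr 0 1
        rw [he.closure_eq] at hg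
        have hle : Subgroup.closure {x | x ∈ ([] : List (List P3)).flatten ++
            List.replicate v (1 : P3)} ≤ ⊥ := by
          rw [Subgroup.closure_le]
          intro x hx
          have hx' : x ∈ List.replicate v (1 : P3) := by simpa using hx
          have := List.eq_of_mem_replicate hx'
          simp [this]
        have hg1 : g = 1 := by simpa using hle hg
        rw [hg1] at hgij
        exact absurd hgij (by decide)
      | [c], hparts, _, he =>
        exfalso
        have e := he.prod_eq
        rw [hprod] at e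
        have e2 : c.prod = 1 := by simpa using e.symm
        exact (RotPart.prod (hparts c (by simp))).1 e2
      | c :: d :: rest, _, _, _ => simp
  · exfalso
    obtain ⟨i, hi⟩ := refl_fix a ha
    obtain ⟨j, hj⟩ : ∃ j : Fin 3, j ≠ i := exists_ne i
    obtain ⟨g, hg, hgij⟩ := htr' i j
    have hle : Subgroup.closure {x | x ∈ l' ++ List.replicate v (1 : P3)} ≤
        MulAction.stabilizer P3 i := by
      rw [Subgroup.closure_le]
      intro x hx
      have hx' : x ∈ l' ++ List.replicate v (1 : P3) := hx
      rcases List.mem_append.mp hx' with hx' | hx'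
      · rw [hall x hx']
        exact hi
      · rw [List.eq_of_mem_replicate hx']
        exact Subgroup.one_mem _
    have hgi : g i = i := hle hg
    exact hj (hgij.symm.trans hgi)

end Pool.Agent.MCF
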