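import Pool.Agent.MCF.G1b
import Pool.Agent.MCF.NF
import Pool.Agent.MCF.MRG

namespace Pool.Agent.MCF

open Equiv

variable {W : Type} [AddCommGroup W] [Module ℚ W]

/-! ### Inserting identity entries, triples -/

theorem insert_ones {G : Type} [Group G] {l : List G} (h : FiniteOrbit l) (n : ℕ) :
    FiniteOrbit (l ++ List.replicate n 1) := by
  have e : (l.map (fun a => [a]) ++ List.replicate n ([] : List G)).flatten = l := by
    rw [List.flatten_append]
    have h1 : (List.replicate n ([] : List G)).flatten = [] := by simp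
    rw [h1, List.append_nil]
    clear h h1
    induction l with
    | nil => rfl
    | cons a l ih => simpa using ih
  have h2 := mrg_proof G (l.map (fun a => [a]) ++ List.replicate n ([] : List G)) (by rw [e]; exact h)
  rw [List.map_append, List.map_map] at h2
  have e2 : l.map (List.prod ∘ fun a => [a]) = l := by
    conv_rhs => rw [← List.map_id l]
    apply List.map_congr_left
    intro a _; simp
  have e3 : (List.replicate n ([] : List G)).map List.prod = List.replicate n 1 := by simp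
  rwa [e2, e3] at h2

/-- a finite set of tuples closed under forward and backward steps up to conjugation -/
theorem finiteOrbit_of_closed {G : Type*} [Group G] (S : Set (List G)) (hS : S.Finite)
    (h1 : ∀ s ∈ S, ∀ t, HStep s t → ∃ s' ∈ S, ∃ g, t = conjL g s')
    (h2 : ∀ s ∈ S, ∀ t, HStep t s → ∃ s' ∈ S, ∃ g, t = conjL g s')
    {l : List G} (hl : l ∈ S) : FiniteOrbit l := by
  have key : ∀ {m m' : List G}, HEquiv m m' →
      ((∃ s ∈ S, ∃ g, m = conjL g s) ↔ (∃ s ∈ S, ∃ g, m' = conjL g s)) := by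
    intro m m' h
    refine HEquiv.induct (P := fun m m' =>
      ((∃ s ∈ S, ∃ g, m = conjL g s) ↔ (∃ s ∈ S, ∃ g, m' = conjL g s))) ?_ ?_ ?_ ?_ h
    · intro m m' hmm
      constructor
      · rintro ⟨s, hs, g, rfl⟩
        have hc : HStep s (conjL g⁻¹ m') := by
          have : HStep (conjL g⁻¹ (conjL g s)) (conjL g⁻¹ m') := by
            generalize conjL g s = x at hmm
            obtain ⟨p, a, b, q⟩ := hmm
            have := HStep.mk (conjL g⁻¹ p) (g⁻¹ * a * g⁻¹⁻¹) (g⁻¹ * b * g⁻¹⁻¹) (conjL g⁻¹ q)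
            have e : (g⁻¹ * b * g⁻¹⁻¹)⁻¹ * (g⁻¹ * a * g⁻¹⁻¹) * (g⁻¹ * b * g⁻¹⁻¹) =
              g⁻¹ * (b⁻¹ * a * b) * g⁻¹⁻¹ := by group
            rw [e] at this
            simpa using this
          rwa [conjL_inv_conjL] at this
        obtain ⟨s', hs', g', hg'⟩ := h1 s hs _ hc
        refine ⟨s', hs', g * g', ?_⟩
        rw [conjL_mul, ← hg', conjL_conjL_inv]
      · rintro ⟨s, hs, g, rfl⟩
        have hc : HStep (conjL g⁻¹ m) s := by
          have : HStep (conjL g⁻¹ m) (conjL g⁻¹ (conjL g s)) := by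
            generalize conjL g s = x at hmm
            obtain ⟨p, a, b, q⟩ := hmm
            have := HStep.mk (conjL g⁻¹ p) (g⁻¹ * a * g⁻¹⁻¹) (g⁻¹ * b * g⁻¹⁻¹) (conjL g⁻¹ q)
            have e : (g⁻¹ * b * g⁻¹⁻¹)⁻¹ * (g⁻¹ * a * g⁻¹⁻¹) * (g⁻¹ * b * g⁻¹⁻¹) =
              g⁻¹ * (b⁻¹ * a * b) * g⁻¹⁻¹ := by group
            rw [e] at this
            simpa using this
          rwa [conjL_inv_conjL] at this
        obtain ⟨s', hs', g', hg'⟩ := h2 s hs _ hc
        refine ⟨s', hs', g * g', ?_⟩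
        rw [conjL_mul, ← hg', conjL_conjL_inv]
    · intro l; rfl
    · intro l l' h; exact h.symm
    · intro a b c h h'; exact h.trans h'
  exact ⟨S, hS, fun l' hl' => (key hl').mp ⟨l, hl, 1, by simp⟩⟩

/-- any triple with product one has a finite orbit -/
theorem triple_finite {G : Type} [Group G] {a b c : G} (h : a * b * c = 1) :
    FiniteOrbit [a, b, c] := by
  -- enumerate the steps of a triple
  have hs : ∀ x y z : G, ∀ t, HStep [x, y, z] t →
      t = [y, y⁻¹ * x * y, z] ∨ t = [x, z, z⁻¹ * y * z] := by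
    intro x y z t ht
    generalize hl : [x, y, z] = l at ht
    obtain ⟨p, u, v, q⟩ := ht
    match p, hl with
    | [], hl =>
      simp only [List.nil_append, List.cons.injEq] at hl
      obtain ⟨rfl, rfl, rfl⟩ := hl
      left; rfl
    | [p0], hl =>
      simp only [List.cons_append, List.nil_append, List.cons.injEq] at hl
      obtain ⟨rfl, rfl, rfl, h4⟩ := hl
      right; rw [← h4]; rfl
    | p0 :: p1 :: p, hl =>
      have := congrArg List.length hl
      simp at this
      omega
  have hs' : ∀ x y z : G, ∀ t, HStep t [x, y, z] →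
      t = [x * y * x⁻¹, x, z] ∨ t = [x, y * z * y⁻¹, y] := by
    intro x y z t ht
    generalize hl : [x, y, z] = l at ht
    obtain ⟨p, u, v, q⟩ := ht
    match p, hl with
    | [], hl =>
      simp only [List.nil_append, List.cons.injEq] at hl
      obtain ⟨rfl, h2, rfl⟩ := hl
      left
      rw [h2]
      simp [mul_assoc]
    | [p0], hl =>
      simp only [List.cons_append, List.nil_append, List.cons.injEq] at hl
      obtain ⟨rfl, rfl, h3, h4⟩ := hl
      right
      rw [h3, ← h4]
      simp [mul_assoc]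
    | p0 :: p1 :: p, hl =>
      have := congrArg List.length hl
      simp at this
      omega
  have hc : c = (a * b)⁻¹ := eq_inv_of_mul_eq_one_right h
  subst hc
  let A1 : List G := [a, b, (a * b)⁻¹]
  let A2 : List G := [b, (a * b)⁻¹, a]
  let A3 : List G := [(a * b)⁻¹, a, b]
  let B1 : List G := [b, b⁻¹ * a * b, (a * b)⁻¹]
  let B2 : List G := [b⁻¹ * a * b, (a * b)⁻¹, b]
  let B3 : List G := [(a * b)⁻¹, b, b⁻¹ * a * b]
  refine finiteOrbit_of_closed ({A1, A2, A3, B1, B2, B3} : Set (List G)) (by simp) ?_ ?_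
    (l := [a, b, (a * b)⁻¹]) (by simp [A1])
  · intro s hsS t ht
    simp only [Set.mem_insert_iff, Set.mem_singleton_iff] at hsS
    rcases hsS with rfl | rfl | rfl | rfl | rfl | rfl <;> rcases hs _ _ _ _ ht with rfl | rfl
    · exact ⟨B1, by simp, 1, by simp [B1]⟩
    · exact ⟨B2, by simp, (a * b), by simp [B2, mul_assoc]⟩
    · exact ⟨B3, by simp, (a * b), by simp [B3, mul_assoc]⟩
    · exact ⟨B1, by simp, b, by simp [B1, mul_assoc]⟩
    · exact ⟨B2, by simp, b, by simp [B2, mul_assoc]⟩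
    · exact ⟨B3, by simp, 1, by simp [B3]⟩
    · exact ⟨A1, by simp, (a * b)⁻¹, by simp [A1, mul_assoc]⟩
    · exact ⟨A2, by simp, 1, by simp [A2, mul_assoc]⟩
    · exact ⟨A3, by simp, 1, by simp [A3, mul_assoc]⟩
    · exact ⟨A1, by simp, b⁻¹, by simp [A1, mul_assoc]⟩
    · exact ⟨A2, by simp, b⁻¹, by simp [A2, mul_assoc]⟩
    · exact ⟨A3, by simp, (a * b)⁻¹, by simp [A3, mul_assoc]⟩
  · intro s hsS t ht
    simp only [Set.mem_insert_iff, Set.mem_singleton_iff] at hsS
    rcases hsS with rfl | rfl | rfl | rfl | rfl | rfl <;> rcases hs' _ _ _ _ ht with rfl | rfl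
    · exact ⟨B1, by simp, (a * b), by simp [B1, mul_assoc]⟩
    · exact ⟨B2, by simp, b, by simp [B2, mul_assoc]⟩
    · exact ⟨B3, by simp, b, by simp [B3, mul_assoc]⟩
    · exact ⟨B1, by simp, 1, by simp [B1, mul_assoc]⟩
    · exact ⟨B2, by simp, 1, by simp [B2, mul_assoc]⟩
    · exact ⟨B3, by simp, (a * b), by simp [B3, mul_assoc]⟩
    · exact ⟨A1, by simp, 1, by simp [A1, mul_assoc]⟩
    · exact ⟨A2, by simp, b⁻¹, by simp [A2, mul_assoc]⟩
    · exact ⟨A3, by simp, b⁻¹, by simp [A3, mul_assoc]⟩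
    · exact ⟨A1, by simp, (a * b)⁻¹, by simp [A1, mul_assoc]⟩
    · exact ⟨A2, by simp, (a * b)⁻¹, by simp [A2, mul_assoc]⟩
    · exact ⟨A3, by simp, 1, by simp [A3, mul_assoc]⟩

end Pool.Agent.MCF
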