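import Pool.Agent.MCF.G2

namespace Pool.Agent.MCF

open Equiv

variable {W : Type} [AddCommGroup W] [Module ℚ W]

section perms
set_option maxRecDepth 100000

theorem pr1 {s r : Perm (Fin 3)} (hs : IsRefl s) (hr : IsRot r) : s * r = r * r * s := by
  revert s r; decide
theorem pr2 {r : Perm (Fin 3)} (hr : IsRot r) : r⁻¹ = r * r := by
  revert r; decide
theorem pr3 {s r : Perm (Fin 3)} (hs : IsRefl s) (hr : IsRot r) : s * (r * r) = r * s := by
  revert s r; decide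
theorem pr4 {s r : Perm (Fin 3)} (hs : IsRefl s) (hr : IsRot r) : s * r * s = r * r := by
  revert s r; decide
theorem pr5 {s t r : Perm (Fin 3)} (hs : IsRefl s) (ht : IsRefl t) (hr : IsRot r) :
    t = s ∨ t = r⁻¹ * s * r ∨ t = (r * r)⁻¹ * s * (r * r) := by
  revert s t r; decide
theorem pr6 {s r : Perm (Fin 3)} (hs : IsRefl s) (hr : IsRot r) : IsRefl (r * s) := by
  revert s r; decide
theorem pr7 {s r : Perm (Fin 3)} (hs : IsRefl s) (hr : IsRot r) : IsRefl (s * r) := by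
  revert s r; decide
theorem pr8 {a b c : Perm (Fin 3)} (ha : IsRot a) (hb : IsRot b) (hc : IsRot c)
    (h : a * b * c = 1) : b = a ∧ c = a := by
  rcases ha.eq_or hb with h1 | h1
  · refine ⟨h1, ?_⟩
    rw [h1] at h
    have h2 := ha.mul_three
    rw [← h] at h2
    exact (mul_left_cancel h2).symm
  · rw [h1] at h
    simp at h
    exact absurd h hc.1
theorem pr9 {s r : Perm (Fin 3)} (hs : IsRefl s) (hr : IsRot r) : s ≠ s * r := by
  revert s r; decide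

end perms

theorem rot_sum {r : Perm (Fin 3)} (hr : IsRot r) {v : Fin 3 → W} (hv : Sum0 v) :
    v + act r v + act (r * r) v = 0 := by
  apply rot_fix hr ((hv.add (hv.act r)).add (hv.act _))
  rw [act_add, act_add, ← act_mul, ← act_mul, ← mul_assoc, hr.mul_three, act_one]
  abel

/-- the basic linear condition -/
theorem K_cond {x y : Aff W} {C2 C3 Z : List (Aff W)} {ρ : Perm (Fin 3)}
    (h : FiniteOrbit ([x, y] ++ C2 ++ C3 ++ Z)) (hρ : IsRot ρ) (hx : IsRefl x.s)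
    (hxy : x * y = ⟨0, ρ⟩) (hC2 : C2.prod.s = ρ) (hC3 : RotPart (C3.map Aff.s)) :
    act x.s (x.v - act (ρ * x.s) C2.prod.v - act ρ x.v + act (ρ * ρ) C2.prod.v) =
      x.v - act (ρ * x.s) C2.prod.v - act ρ x.v + act (ρ * ρ) C2.prod.v := by
  set y' := C2.prod⁻¹ * y * C2.prod with hy'
  have e1 := (pair_move x y C2).app_right (C3 ++ Z)
  have hF1 : FiniteOrbit (conjL x C2 ++ [x, y'] ++ (C3 ++ Z)) := by
    have := FiniteOrbit.of_equiv (by simpa [List.append_assoc] using h) e1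
    simpa [List.append_assoc] using this
  have hy : y = x⁻¹ * ⟨0, ρ⟩ := by rw [← hxy]; group
  have hsx : x.s⁻¹ = x.s := hx.inv_eq
  have hr2 : ρ⁻¹ = ρ * ρ := pr2 hρ
  have hys : y'.s = x.s := by
    rw [hy', hy]
    simp only [Aff.mul_s, Aff.inv_s, hC2, hsx]
    rw [hr2]
    have h1 := pr3 hx hρ
    have h2 := pr1 hx hρ
    have h3 := hρ.mul_three
    calc ρ * ρ * (x.s * ρ) * ρ = ρ * ρ * (x.s * (ρ * ρ)) := by group
      _ = ρ * ρ * ρ * x.s := by rw [h1]; group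
      _ = x.s := by rw [h3, one_mul]
  have hBs : [x, y'].prod.s = 1 := by
    simp [hys, hx.mul_self]
  -- large complement
  have hlarge : Large (conjL x C2 ++ (C3 ++ Z)) := by
    rcases hC3 with ⟨r, hr, e⟩ | ⟨s, t, hs, ht, hst, e⟩
    · obtain ⟨b, rfl, hb⟩ := List.map_eq_singleton_iff.mp e
      exact Large.of_mem_rot (a := b) (by simp) (by rw [hb]; exact hr)
    · obtain ⟨b, c, rfl⟩ : ∃ b c, C3 = [b, c] := by
        have : C3.length = 2 := by have := congrArg List.length e; simpa using this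
        exact List.length_eq_two.mp this
      simp only [List.map_cons, List.map_nil, List.cons.injEq, and_true] at e
      exact Large.of_mem_refl (a := b) (b := c) (by simp) (by simp) (by rw [e.1]; exact hs)
        (by rw [e.2]; exact ht) (by rw [e.1, e.2]; exact hst)
  have hfix := block_fix hF1 hBs hlarge x (by simp)
  have hm : [x, y'].prod.v =
      x.v - act (ρ * x.s) C2.prod.v - act ρ x.v + act (ρ * ρ) C2.prod.v := by
    simp only [List.prod_cons, List.prod_nil, mul_one]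
    rw [hy', hy]
    simp only [Aff.mul_v', Aff.inv_v', Aff.inv_s, Aff.mul_s, act_add, act_neg, act_zero,
      add_zero, hC2, ← act_mul, hsx]
    have p1 : x.s * ρ⁻¹ = ρ * x.s := by rw [hr2]; exact pr3 hx hρ
    have p2 : x.s * (ρ⁻¹ * x.s) = ρ := by
      rw [← mul_assoc, p1, mul_assoc, hx.mul_self, mul_one]
    have p3 : x.s * (ρ⁻¹ * (x.s * ρ)) = ρ * ρ := by
      have : x.s * (ρ⁻¹ * (x.s * ρ)) = x.s * (ρ⁻¹ * x.s) * ρ := by group
      rw [this, p2]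
    rw [p1, p2, p3]
    abel
  rw [hm] at hfix
  exact hfix

/-- the three conditions together -/
theorem K_sum {s ρ : Perm (Fin 3)} (hs : IsRefl s) (hρ : IsRot ρ) {v w : Fin 3 → W}
    (hv : Sum0 v) (hw : Sum0 w)
    (k1 : act s (v - act (ρ * s) w - act ρ v + act (ρ * ρ) w) =
      v - act (ρ * s) w - act ρ v + act (ρ * ρ) w)
    (k2 : act (ρ * s) (act (ρ * ρ) v - act (ρ * (ρ * s)) w - act ρ (act (ρ * ρ) v)
      + act (ρ * ρ) w) =
      act (ρ * ρ) v - act (ρ * (ρ * s)) w - act ρ (act (ρ * ρ) v) + act (ρ * ρ) w)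
    (k3 : act (ρ * ρ * s) (act ρ v - act (ρ * (ρ * ρ * s)) w - act ρ (act ρ v)
      + act (ρ * ρ) w) =
      act ρ v - act (ρ * (ρ * ρ * s)) w - act ρ (act ρ v) + act (ρ * ρ) w) :
    w = 0 ∧ act s v = - act ρ v := by
  have r3 := hρ.mul_three
  have ss := hs.mul_self
  have p1 := pr1 hs hρ
  have p3 := pr3 hs hρ
  simp only [act_add, act_sub, ← act_mul] at k1 k2 k3
  -- normal forms
  have q1 : s * (ρ * s) = ρ * ρ := by rw [← mul_assoc]; exact pr4 hs hρ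
  have q2 : s * ρ = ρ * ρ * s := p1
  have q3 : s * (ρ * ρ) = ρ * s := p3
  have q4 : ρ * s * (ρ * ρ) = ρ * ρ * s := by rw [mul_assoc, p3, ← mul_assoc]
  have q5 : ρ * s * (ρ * (ρ * s)) = ρ * ρ := by
    have : ρ * s * (ρ * (ρ * s)) = ρ * (s * (ρ * ρ)) * s := by group
    rw [this, p3]
    have : ρ * (ρ * s) * s = ρ * ρ * (s * s) := by group
    rw [this, ss, mul_one]
  have q6 : ρ * s * (ρ * (ρ * ρ)) = ρ * s := by
    rw [← mul_assoc ρ ρ ρ, r3, mul_one]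
  have q7 : ρ * (ρ * ρ) = 1 := by rw [← mul_assoc, r3]
  have q8 : ρ * (ρ * s) = ρ * ρ * s := by rw [mul_assoc]
  have q9 : ρ * ρ * s * ρ = ρ * s := by
    rw [mul_assoc, p1]
    have : ρ * ρ * (ρ * ρ * s) = ρ * ρ * ρ * ρ * s := by group
    rw [this, r3, one_mul]
  have q10 : ρ * (ρ * ρ * s) = s := by
    have : ρ * (ρ * ρ * s) = ρ * ρ * ρ * s := by group
    rw [this, r3, one_mul]
  have q11 : ρ * ρ * s * s = ρ * ρ := by rw [mul_assoc, ss, mul_one]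
  have q12 : ρ * ρ * s * (ρ * ρ) = s := by
    rw [mul_assoc, p3]
    have : ρ * ρ * (ρ * s) = ρ * ρ * ρ * s := by group
    rw [this, r3, one_mul]
  rw [q1, q2, q3] at k1
  rw [q4, q5, q6, q7, q8, act_one] at k2
  rw [q9, q10, q11, q12] at k3
  have hrs : ∀ u : Fin 3 → W, Sum0 u → act (ρ * ρ) u = - u - act ρ u := by
    intro u hu
    have := rot_sum hρ hu
    linear_combination (norm := module) (1:ℚ) • this
  have e1 := hrs w hw
  have e2 : act (ρ * ρ * s) w = - act s w - act (ρ * s) w := by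
    have := hrs (act s w) (hw.act s)
    rwa [← act_mul, ← act_mul] at this
  have hw0 : (6:ℚ) • act (ρ * ρ) w = 0 := by
    linear_combination (norm := module) -(1:ℚ) • k1 - (1:ℚ) • k2 - (1:ℚ) • k3 + (2:ℚ) • e2
  have hw1 : act (ρ * ρ) w = 0 := (smul_eq_zero.mp hw0).resolve_left (by norm_num)
  have hw2 : w = 0 := by
    have : act ρ (act (ρ * ρ) w) = 0 := by rw [hw1]; simp
    rwa [← act_mul, q7, act_one] at this
  refine ⟨hw2, ?_⟩
  subst hw2
  simp only [act_zero, sub_zero, add_zero] at k1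
  have e3 : act (ρ * ρ * s) v = - act s v - act (ρ * s) v := by
    have := hrs (act s v) (hv.act s)
    rwa [← act_mul, ← act_mul] at this
  have e4 := hrs v hv
  have k1' := congrArg (act ρ) k1
  rw [act_sub, act_sub, ← act_mul, ← act_mul, ← act_mul, q10] at k1'
  have h3 : (3:ℚ) • (act s v + act ρ v) = 0 := by
    linear_combination (norm := module) (1:ℚ) • k1 - (1:ℚ) • k1' + (1:ℚ) • e3 + (1:ℚ) • e4
  have h4 := (smul_eq_zero.mp h3).resolve_left (by norm_num)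
  exact eq_neg_of_add_eq_zero_left h4

/-- a reflection-type element of the special form (relative to the rotation `ρ`) -/
def StdEl (ρ : Perm (Fin 3)) (x : Aff W) : Prop :=
  IsRefl x.s ∧ Sum0 x.v ∧ act x.s x.v = - act ρ x.v

theorem pair_std {x y : Aff W} {C2 C3 Z : List (Aff W)} {ρ : Perm (Fin 3)}
    (h : FiniteOrbit ([x, y] ++ C2 ++ C3 ++ Z)) (h0 : AllSum0 ([x, y] ++ C2 ++ C3 ++ Z))
    (hρ : IsRot ρ) (hx : IsRefl x.s)
    (hxy : x * y = ⟨0, ρ⟩) (hC2 : C2.prod.s = ρ) (hC3 : RotPart (C3.map Aff.s)) :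
    C2.prod.v = 0 ∧ StdEl ρ x := by
  have hx0 : Sum0 x.v := h0 x (by simp)
  have hw0 : Sum0 C2.prod.v := AllSum0.prod (h0.left.left.right)
  have hs := hx
  have k1 := K_cond h hρ hx hxy hC2 hC3
  -- conjugate by the rotation
  have hc : [x, y].prod = ⟨0, ρ⟩ := by simpa using hxy
  have tw : ∀ n : ℕ, FiniteOrbit
      ([((⟨0, ρ⟩ : Aff W) ^ n)⁻¹ * x * (((⟨0, ρ⟩ : Aff W) ^ n)⁻¹)⁻¹,
        ((⟨0, ρ⟩ : Aff W) ^ n)⁻¹ * y * (((⟨0, ρ⟩ : Aff W) ^ n)⁻¹)⁻¹] ++ C2 ++ C3 ++ Z) := by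
    intro n
    have e := HEquiv.twist_pow [x, y] n
    rw [hc] at e
    have e2 := e.app_right (C2 ++ C3 ++ Z)
    have := FiniteOrbit.of_equiv (by simpa [List.append_assoc] using h) e2
    simpa [List.append_assoc] using this
  have r2 := pr2 hρ
  have f1 := tw 1
  have f2 := tw 2
  have g1 : ((⟨0, ρ⟩ : Aff W) ^ 1)⁻¹ = ⟨0, ρ * ρ⟩ := by
    rw [pow_one]
    apply Aff.ext'
    · rw [Aff.inv_v']; simp
    · simp [r2]
  have r3 := hρ.mul_three
  have g2 : ((⟨0, ρ⟩ : Aff W) ^ 2)⁻¹ = ⟨0, ρ⟩ := by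
    rw [pow_two]
    apply Aff.ext'
    · rw [Aff.inv_v', Aff.mul_v']; simp
    · simp only [Aff.inv_s, Aff.mul_s]
      rw [inv_eq_iff_mul_eq_one]; exact r3
  rw [g1] at f1
  rw [g2] at f2
  have g3 : (⟨0, ρ * ρ⟩ : Aff W)⁻¹ = ⟨0, ρ⟩ := by
    apply Aff.ext'
    · rw [Aff.inv_v']; simp
    · simp only [Aff.inv_s]
      rw [inv_eq_iff_mul_eq_one]; exact r3
  have g4 : (⟨0, ρ⟩ : Aff W)⁻¹ = ⟨0, ρ * ρ⟩ := by rw [← g3, inv_inv]
  rw [g3] at f1
  rw [g4] at f2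
  have hxp1 : (⟨0, ρ * ρ⟩ * x * ⟨0, ρ⟩ : Aff W) = ⟨act (ρ * ρ) x.v, ρ * x.s⟩ := by
    apply Aff.ext'
    · rw [Aff.mul_v', Aff.mul_v']; simp
    · simp only [Aff.mul_s]
      rw [mul_assoc, pr1 hs hρ]
      have : ρ * ρ * (ρ * ρ * x.s) = ρ * ρ * ρ * (ρ * x.s) := by group
      rw [this, r3, one_mul]
  have hxp2 : (⟨0, ρ⟩ * x * ⟨0, ρ * ρ⟩ : Aff W) = ⟨act ρ x.v, ρ * ρ * x.s⟩ := by
    apply Aff.ext'
    · rw [Aff.mul_v', Aff.mul_v']; simp
    · simp only [Aff.mul_s]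
      rw [mul_assoc, pr3 hs hρ, mul_assoc]
  have hcomm : ∀ g : Aff W, g = ⟨0, ρ⟩ ∨ g = ⟨0, ρ * ρ⟩ → g * ⟨0, ρ⟩ * g⁻¹ = ⟨0, ρ⟩ := by
    intro g hg
    have : g * ⟨0, ρ⟩ = ⟨0, ρ⟩ * g := by
      rcases hg with rfl | rfl
      · rfl
      · apply Aff.ext'
        · rw [Aff.mul_v', Aff.mul_v']; simp
        · simp [mul_assoc]
    rw [this]; group
  have hp1 : (⟨0, ρ * ρ⟩ * x * ⟨0, ρ⟩ : Aff W) * (⟨0, ρ * ρ⟩ * y * ⟨0, ρ⟩) = ⟨0, ρ⟩ := by
    have : (⟨0, ρ * ρ⟩ * x * ⟨0, ρ⟩ : Aff W) * (⟨0, ρ * ρ⟩ * y * ⟨0, ρ⟩) =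
        ⟨0, ρ * ρ⟩ * (x * y) * (⟨0, ρ * ρ⟩ : Aff W)⁻¹ := by rw [← g3]; group
    rw [this, hxy]; exact hcomm _ (Or.inr rfl)
  have hp2 : (⟨0, ρ⟩ * x * ⟨0, ρ * ρ⟩ : Aff W) * (⟨0, ρ⟩ * y * ⟨0, ρ * ρ⟩) = ⟨0, ρ⟩ := by
    have : (⟨0, ρ⟩ * x * ⟨0, ρ * ρ⟩ : Aff W) * (⟨0, ρ⟩ * y * ⟨0, ρ * ρ⟩) =
        ⟨0, ρ⟩ * (x * y) * (⟨0, ρ⟩ : Aff W)⁻¹ := by rw [← g4]; group
    rw [this, hxy]; exact hcomm _ (Or.inl rfl)
  rw [hxp1] at f1 hp1
  rw [hxp2] at f2 hp2
  have k2 := K_cond f1 hρ (pr6 hs hρ) hp1 hC2 hC3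
  have hs2 : IsRefl (ρ * ρ * x.s) := by rw [← pr1 hs hρ]; exact pr7 hs hρ
  have k3 := K_cond f2 hρ hs2 hp2 hC2 hC3
  obtain ⟨a, b⟩ := K_sum hs hρ hx0 hw0 k1 k2 k3
  exact ⟨a, hs, hx0, b⟩

/-- two pairs with the same product: the second pair can be twisted to start with `y` -/
theorem pair_pair {x y : Aff W} {x' y' : Aff W} {C3 Z : List (Aff W)} {ρ : Perm (Fin 3)}
    (h : FiniteOrbit ([x, y] ++ [x', y'] ++ C3 ++ Z))
    (hρ : IsRot ρ) (hx : StdEl ρ x) (hx' : StdEl ρ x')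
    (hxy : x * y = ⟨0, ρ⟩) (hs : x'.s = y.s) (hC3 : RotPart (C3.map Aff.s)) :
    x' = y := by
  have hy : y = x⁻¹ * ⟨0, ρ⟩ := by rw [← hxy]; group
  have hyv : y.v = act ρ x.v := by
    rw [hy, Aff.mul_v', Aff.inv_v']
    simp [hx.1.inv_eq, hx.2.2]
  have hys : y.s = x.s * ρ := by rw [hy]; simp [hx.1.inv_eq]
  have h1 : FiniteOrbit ([x] ++ [y, x'] ++ ([y'] ++ C3 ++ Z)) := by simpa using h
  have hyr : IsRefl y.s := by rw [hys]; exact pr7 hx.1 hρ
  have hfix := block_fix h1 (by simp [hs, hyr.mul_self]) (by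
    rcases hC3 with ⟨r, hr, e⟩ | ⟨s, t, hs, ht, hst, e⟩
    · obtain ⟨b, rfl, hb⟩ := List.map_eq_singleton_iff.mp e
      exact Large.of_mem_rot (a := b) (by simp) (by rw [hb]; exact hr)
    · obtain ⟨b, c, rfl⟩ : ∃ b c, C3 = [b, c] := by
        have : C3.length = 2 := by have := congrArg List.length e; simpa using this
        exact List.length_eq_two.mp this
      simp only [List.map_cons, List.map_nil, List.cons.injEq, and_true] at e
      exact Large.of_mem_refl (a := b) (b := c) (by simp) (by simp) (by rw [e.1]; exact hs)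
        (by rw [e.2]; exact ht) (by rw [e.1, e.2]; exact hst)) y (by simp)
  simp only [List.prod_cons, List.prod_nil, mul_one, Aff.mul_v'] at hfix
  -- let u1 = y.v, u2 = x'.v, t = y.s
  have t2 : act y.s x'.v = - act ρ x'.v := by rw [← hs]; exact hx'.2.2
  have t1 : act y.s y.v = - act ρ y.v := by
    rw [hyv, hys, ← act_mul, ← act_mul]
    have e1 : x.s * ρ * ρ = ρ * x.s := by rw [mul_assoc]; exact pr3 hx.1 hρ
    rw [e1, act_mul, hx.2.2, act_neg, ← act_mul]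
  have hy0 : Sum0 y.v := by rw [hyv]; exact hx.2.1.act _
  rw [act_add, ← act_mul, hyr.mul_self, act_one, t1, t2] at hfix
  -- u1' : - ρ u1 + u2 = u1 - ρ u2
  have e3 : (y.v - x'.v) + act ρ (y.v - x'.v) = 0 := by
    rw [act_sub]
    linear_combination (norm := module) -(1:ℚ) • hfix
  have e4 := rot_sum hρ (hy0.sub hx'.2.1)
  rw [e3, zero_add] at e4
  have e5 : y.v - x'.v = 0 := by
    have : act ρ (act (ρ * ρ) (y.v - x'.v)) = 0 := by rw [e4]; simp
    rwa [← act_mul, ← mul_assoc, hρ.mul_three, act_one] at this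
  exact Aff.ext' (sub_eq_zero.mp e5).symm hs

end Pool.Agent.MCF
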