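import Pool.Agent.MCF.G1

namespace Pool.Agent.MCF

open Equiv

variable {W : Type} [AddCommGroup W] [Module ℚ W]

/-- the standard tuple with `k` pairs and `3 - k` rotations -/
def stdList {W : Type} [AddCommGroup W] (a : W) (k : ℕ) : List (Aff W) :=
  (List.replicate k [stdX a, (stdX a)⁻¹ * stdR]).flatten ++ List.replicate (3 - k) stdR

omit [AddCommGroup W] [Module ℚ W] in
theorem rotPart_pair {x y : Aff W} (h : RotPart ([x, y].map Aff.s)) :
    IsRefl x.s ∧ IsRefl y.s ∧ x.s ≠ y.s := by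
  rcases h with ⟨ρ, _, e⟩ | ⟨x', y', hx', hy', hne, e⟩
  · simp at e
  · simp only [List.map_cons, List.map_nil, List.cons.injEq, and_true] at e
    rw [e.1, e.2]; exact ⟨hx', hy', hne⟩

omit [AddCommGroup W] [Module ℚ W] in
theorem rotPart_cases {C : List (Aff W)} (h : RotPart (C.map Aff.s)) :
    (∃ b, C = [b] ∧ IsRot b.s) ∨
      (∃ x y, C = [x, y] ∧ IsRefl x.s ∧ IsRefl y.s ∧ x.s ≠ y.s) := by
  have h' := h
  rcases h with ⟨ρ, hρ, e⟩ | ⟨x', y', hx', hy', hne, e⟩
  · obtain ⟨b, rfl, hb⟩ := List.map_eq_singleton_iff.mp e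
    exact Or.inl ⟨b, rfl, by rw [hb]; exact hρ⟩
  · obtain ⟨x, y, rfl⟩ : ∃ x y, C = [x, y] := by
      have : C.length = 2 := by
        have := congrArg List.length e; simpa using this
      exact List.length_eq_two.mp this
    exact Or.inr ⟨x, y, rfl, rotPart_pair h'⟩

omit [Module ℚ W] in
theorem rotPart_of_equiv {C D : List (Aff W)} (h : RotPart (C.map Aff.s)) (g : Aff W)
    (e : D = conjL g C) : RotPart (D.map Aff.s) := by
  rw [e]; exact rotPart_conj h g

/-- the second part is a rotation or equivalent to the first pair -/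
theorem second_part {x y : Aff W} {D E : List (Aff W)} {n : ℕ} {ρ : Perm (Fin 3)}
    (h : FiniteOrbit ([x, y] ++ D ++ E ++ List.replicate n 1))
    (h0 : AllSum0 ([x, y] ++ D ++ E ++ List.replicate n 1)) (hρ : IsRot ρ)
    (hx : StdEl ρ x) (hxy : x * y = ⟨0, ρ⟩) (hD : RotPart (D.map Aff.s))
    (hE : RotPart (E.map Aff.s)) (hDp : D.prod = ⟨0, ρ⟩) (hEs : E.prod.s = ρ)
    (hp : ([x, y] ++ D ++ E ++ List.replicate n 1).prod = 1) :
    D = [⟨0, ρ⟩] ∨ HEquiv D [x, y] := by
  rcases rotPart_cases hD with ⟨b, rfl, _⟩ | ⟨x', y', rfl, hx', hy', hne'⟩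
  · left
    simp at hDp
    rw [hDp]
  · right
    have hy : y = x⁻¹ * ⟨0, ρ⟩ := by rw [← hxy]; group
    have hys : y.s = x.s * ρ := by rw [hy]; simp [hx.1.inv_eq]
    have hyr : IsRefl y.s := by rw [hys]; exact pr7 hx.1 hρ
    have hxyR : RotPart ([x, y].map Aff.s) :=
      Or.inr ⟨x.s, y.s, hx.1, hyr, by rw [hys]; exact pr9 hx.1 hρ, by simp⟩
    have hx'y' : x' * y' = ⟨0, ρ⟩ := by simpa using hDp
    -- main claim for a pair with x'.s = y.s
    have main : ∀ x' y' : Aff W, IsRefl x'.s → x' * y' = ⟨0, ρ⟩ → x'.s = y.s →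
        FiniteOrbit ([x, y] ++ [x', y'] ++ E ++ List.replicate n 1) →
        AllSum0 ([x, y] ++ [x', y'] ++ E ++ List.replicate n 1) →
        ([x, y] ++ [x', y'] ++ E ++ List.replicate n 1).prod = 1 →
        HEquiv [x', y'] [x, y] := by
      intro x' y' hx' hx'y' hs f1 f2 f3
      -- rotated list for StdEl x'
      have e1 : HEquiv ([x, y] ++ [x', y'] ++ E ++ List.replicate n 1)
          ([x', y'] ++ E ++ [x, y] ++ List.replicate n 1) := by
        have r1 := HEquiv.rotate (X := [x, y]) (Y := [x', y'] ++ E ++ List.replicate n 1)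
          (by simpa [List.append_assoc] using f3)
        have r2 := (HEquiv.swapL (List.replicate n (1 : Aff W)) [x, y]).app_left ([x', y'] ++ E)
        have hZp : (List.replicate n (1 : Aff W)).prod = 1 := by simp
        rw [hZp, conjL_one] at r2
        refine (by simpa [List.append_assoc] using r1 : HEquiv _
          ([x', y'] ++ E ++ (List.replicate n 1 ++ [x, y]))).trans ?_
        simpa [List.append_assoc] using r2
      have g1 := f1.of_equiv e1
      have g2 := f2.of_equiv e1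
      obtain ⟨_, hx'S⟩ := pair_std g1 g2 hρ hx' hx'y' hEs hxyR
      have hx'y := pair_pair f1 hρ hx hx'S hxy hs hE
      subst hx'y
      have hy'' : y' = x'⁻¹ * (x * x') := by rw [hxy, ← hx'y']; group
      have e2 := HEquiv.step [] x x' []
      rw [hy'']
      have : x'⁻¹ * (x * x') = x'⁻¹ * x * x' := by group
      rw [this]
      simpa using e2.symm
    -- twist
    have tw : ∀ m : ℕ, HEquiv [x', y'] (conjL (((⟨0, ρ⟩ : Aff W)) ^ m)⁻¹ [x', y']) := by
      intro m
      have := HEquiv.twist_pow [x', y'] m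
      rwa [hDp] at this
    have fin : ∀ m : ℕ, ((((⟨0, ρ⟩ : Aff W)) ^ m)⁻¹ * x' * ((((⟨0, ρ⟩ : Aff W)) ^ m)⁻¹)⁻¹).s
        = y.s → HEquiv [x', y'] [x, y] := by
      intro m hm
      have e3 := tw m
      have e4 := e3.app [x, y] (E ++ List.replicate n 1)
      have f1 := FiniteOrbit.of_equiv (by simpa [List.append_assoc] using h) e4
      have f2 := AllSum0.of_equiv (by simpa [List.append_assoc] using h0) e4
      have f3 := e4.prod_eq
      have hp' : ([x, y] ++ [x', y'] ++ (E ++ List.replicate n 1)).prod = 1 := by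
        have := hp
        rwa [List.append_assoc ([x, y] ++ [x', y']) E] at this
      rw [hp'] at f3
      refine e3.trans (main _ _ ?_ ?_ hm (by simpa [List.append_assoc] using f1)
        (by simpa [List.append_assoc] using f2) (by simpa [List.append_assoc] using f3.symm))
      · rw [hm]; exact hyr
      · have : ∀ g : Aff W, g * x' * g⁻¹ * (g * y' * g⁻¹) = g * (x' * y') * g⁻¹ := by
          intro g; group
        rw [this, hx'y']
        have hc : Commute (((⟨0, ρ⟩ : Aff W)) ^ m)⁻¹ ⟨0, ρ⟩ :=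
          ((Commute.refl (⟨0, ρ⟩ : Aff W)).pow_left m).inv_left
        rw [hc.eq]; group
    rcases pr5 hx' hyr hρ with hs | hs | hs
    · exact fin 0 (by simp [hs])
    · exact fin 1 (by simp [hs])
    · exact fin 2 (by simp [hs, pow_two, mul_assoc])

section perms
set_option maxRecDepth 100000
theorem finRot_isRot : IsRot (finRotate 3) := by decide
theorem swap_isRefl : IsRefl (swap (0 : Fin 3) 1) := by decide
end perms

omit [Module ℚ W] in
theorem stdR_eq : (stdR : Aff W) = ⟨0, finRotate 3⟩ := by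
  apply Aff.ext'
  · ext i; fin_cases i <;> rfl
  · rfl

omit [Module ℚ W] in
theorem stdEl_eq {x : Aff W} (hx : StdEl (finRotate 3) x) (hs : x.s = swap 0 1) :
    x = stdX (x.v 1) := by
  obtain ⟨_, h0, h⟩ := hx
  rw [hs] at h
  have h2 := congrFun h 2
  have h0' := congrFun h 1
  have e0 : (finRotate 3)⁻¹ (0 : Fin 3) = 2 := by decide
  have e1 : (finRotate 3)⁻¹ (1 : Fin 3) = 0 := by decide
  have e2 : (finRotate 3)⁻¹ (2 : Fin 3) = 1 := by decide
  have s2 : (swap (0 : Fin 3) 1)⁻¹ 2 = 2 := by decide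
  have s1 : (swap (0 : Fin 3) 1)⁻¹ 1 = 0 := by decide
  simp only [act, Pi.neg_apply, e2, s2] at h2
  have h00 : x.v 0 = 0 := by
    unfold Sum0 at h0
    rw [h2] at h0
    have : x.v 0 + x.v 1 + -x.v 1 = x.v 0 := by abel
    rwa [this] at h0
  apply Aff.ext'
  · ext i
    fin_cases i
    · simpa [stdX] using h00
    · simp [stdX]
    · simpa [stdX] using h2
  · exact hs

omit [AddCommGroup W] [Module ℚ W] in
theorem swap_rot_pair {G : Type*} [Group G] (r x y : G) (h : x * y = r) :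
    HEquiv ([r] ++ [x, y]) ([x, y] ++ [r]) := by
  have h1 := HEquiv.swapL [r] [x, y]
  have h2 := HEquiv.twist (conjL r [x, y])
  have e : (conjL r [x, y]).prod = r := by
    rw [conjL_prod]; simp [h]
  rw [e, conjL_inv_conjL] at h2
  have h3 := h2.app_right [r]
  refine HEquiv.trans ?_ h3
  simpa using h1

/-- the case in which the first part is a pair -/
theorem genus_one_aux {x y : Aff W} {C2 C3 : List (Aff W)} {n : ℕ}
    (h : FiniteOrbit ([x, y] ++ C2 ++ C3 ++ List.replicate n 1))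
    (h0 : AllSum0 ([x, y] ++ C2 ++ C3 ++ List.replicate n 1))
    (hR : RotPart ([x, y].map Aff.s)) (hC2 : RotPart (C2.map Aff.s))
    (hC3 : RotPart (C3.map Aff.s))
    (hp : ([x, y] ++ C2 ++ C3 ++ List.replicate n 1).prod = 1)
    (d2 : C2.prod.s = x.s * y.s) (d3 : C3.prod.s = x.s * y.s) :
    ∃ (g : Aff W) (a : W) (k : ℕ), 1 ≤ k ∧ k ≤ 3 ∧
      HEquiv (conjL g ([x, y] ++ C2 ++ C3 ++ List.replicate n 1))
        (stdList a k ++ List.replicate n 1) := by
  obtain ⟨hx, hy, hne⟩ := rotPart_pair hR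
  have hρ : IsRot (x.s * y.s) := hx.mul_isRot hy hne
  -- normalise the centre
  obtain ⟨c, hc, hcv⟩ := exists_center (a := x * y) (by simpa using hρ)
    ((h0 x (by simp)).mulA (h0 y (by simp)))
  -- normalise the direction
  obtain ⟨τ, hτ⟩ : ∃ τ : Perm (Fin 3), τ * (x.s * y.s) * τ⁻¹ = finRotate 3 := by
    rcases finRot_isRot.eq_or hρ with h1 | h1
    · exact ⟨1, by simp [h1]⟩
    · refine ⟨swap 0 1, ?_⟩
      rw [hρ.conj_refl swap_isRefl, h1, inv_inv]
  set g0 : Aff W := ⟨0, τ⟩ * Aff.tr c with hg0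
  have hg0s : g0.s = τ := by simp [hg0]
  have hg0v : Sum0 g0.v := by
    rw [hg0, Aff.mul_v']; simpa using hc.act τ
  -- conjugated data
  have hxy1 : (g0 * x * g0⁻¹) * (g0 * y * g0⁻¹) = ⟨0, finRotate 3⟩ := by
    have e : (g0 * x * g0⁻¹) * (g0 * y * g0⁻¹) =
        ⟨0, τ⟩ * (Aff.tr c * (x * y) * (Aff.tr c)⁻¹) * (⟨0, τ⟩ : Aff W)⁻¹ := by
      rw [hg0]; group
    rw [e]
    apply Aff.ext'
    · rw [Aff.mul_v', Aff.mul_v', hcv, Aff.inv_v']; simp
    · simp only [Aff.mul_s, Aff.inv_s, Aff.tr_s, inv_one, mul_one, one_mul]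
      exact hτ
  -- twist so that the first entry is of shape (0 1)
  have hx1 : IsRefl (g0 * x * g0⁻¹).s := by simpa [hg0s] using hx.conj τ
  obtain ⟨m, hm⟩ : ∃ m : ℕ, ((((⟨0, finRotate 3⟩ : Aff W)) ^ m)⁻¹ * (g0 * x * g0⁻¹) *
      ((((⟨0, finRotate 3⟩ : Aff W)) ^ m)⁻¹)⁻¹).s = swap 0 1 := by
    rcases pr5 hx1 swap_isRefl finRot_isRot with hs | hs | hs
    · exact ⟨0, by simpa using hs.symm⟩
    · exact ⟨1, by simpa using hs.symm⟩
    · exact ⟨2, by simpa [pow_two, mul_assoc] using hs.symm⟩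
  set r : Aff W := (((⟨0, finRotate 3⟩ : Aff W)) ^ m)⁻¹ with hr
  set X := r * (g0 * x * g0⁻¹) * r⁻¹ with hX
  set Y := r * (g0 * y * g0⁻¹) * r⁻¹ with hY
  have hXY : X * Y = ⟨0, finRotate 3⟩ := by
    have e : X * Y = r * ((g0 * x * g0⁻¹) * (g0 * y * g0⁻¹)) * r⁻¹ := by
      rw [hX, hY]; group
    rw [e, hxy1]
    have hcm : Commute r ⟨0, finRotate 3⟩ :=
      ((Commute.refl (⟨0, finRotate 3⟩ : Aff W)).pow_left m).inv_left
    rw [hcm.eq]; group
  have tw : HEquiv [g0 * x * g0⁻¹, g0 * y * g0⁻¹] [X, Y] := by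
    have := HEquiv.twist_pow [g0 * x * g0⁻¹, g0 * y * g0⁻¹] m
    have e : [g0 * x * g0⁻¹, g0 * y * g0⁻¹].prod = (⟨0, finRotate 3⟩ : Aff W) := by
      simpa using hxy1
    rw [e] at this
    simpa [hX, hY, hr] using this
  have hones : conjL g0 (List.replicate n (1 : Aff W)) = List.replicate n 1 := by
    simp [conjL]
  have eq1 : conjL g0 ([x, y] ++ C2 ++ C3 ++ List.replicate n 1) =
      [g0 * x * g0⁻¹, g0 * y * g0⁻¹] ++ conjL g0 C2 ++ conjL g0 C3 ++ List.replicate n 1 := by
    rw [conjL_append, hones, conjL_append, conjL_append]; simp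
  have E1 : HEquiv (conjL g0 ([x, y] ++ C2 ++ C3 ++ List.replicate n 1))
      ([X, Y] ++ conjL g0 C2 ++ conjL g0 C3 ++ List.replicate n 1) := by
    rw [eq1]
    have := tw.app_right (conjL g0 C2 ++ conjL g0 C3 ++ List.replicate n 1)
    simpa [List.append_assoc] using this
  have F1 := (h.conj g0).of_equiv E1
  have S1 := (h0.conj hg0v).of_equiv E1
  have P1 : ([X, Y] ++ conjL g0 C2 ++ conjL g0 C3 ++ List.replicate n 1).prod = 1 := by
    rw [← E1.prod_eq, conjL_prod, hp]; simp
  have hD2 : RotPart ((conjL g0 C2).map Aff.s) := rotPart_conj hC2 g0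
  have hD3 : RotPart ((conjL g0 C3).map Aff.s) := rotPart_conj hC3 g0
  have s2 : (conjL g0 C2).prod.s = finRotate 3 := by
    rw [conjL_prod]; simp only [Aff.mul_s, Aff.inv_s, hg0s, d2]; exact hτ
  have s3 : (conjL g0 C3).prod.s = finRotate 3 := by
    rw [conjL_prod]; simp only [Aff.mul_s, Aff.inv_s, hg0s, d3]; exact hτ
  have hXr : IsRefl X.s := by rw [hm]; exact swap_isRefl
  obtain ⟨v2, hXS⟩ := pair_std F1 S1 finRot_isRot hXr hXY s2 hD3
  have D2 : (conjL g0 C2).prod = ⟨0, finRotate 3⟩ := Aff.ext' v2 s2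
  have D3 : (conjL g0 C3).prod = ⟨0, finRotate 3⟩ := by
    have hP := P1
    simp only [List.prod_append, List.prod_cons, List.prod_nil, mul_one, hXY, D2,
      List.prod_replicate, one_pow] at hP
    have h3 : (⟨0, finRotate 3⟩ : Aff W) * ⟨0, finRotate 3⟩ * ⟨0, finRotate 3⟩ = 1 := by
      apply Aff.ext'
      · rw [Aff.mul_v', Aff.mul_v']; simp [Aff.one_v']
      · exact finRot_isRot.mul_three
    rw [← h3] at hP
    exact mul_left_cancel hP
  have hYr : Y = X⁻¹ * stdR := by rw [stdR_eq, ← hXY]; group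
  have hXa : X = stdX (X.v 1) := stdEl_eq hXS hm
  set a := X.v 1 with ha
  have hPair : [X, Y] = [stdX a, (stdX a)⁻¹ * stdR] := by rw [hYr, ← hXa]
  have second2 := second_part F1 S1 finRot_isRot hXS hXY hD2 hD3 D2 s3 P1
  -- swap C2 and C3
  have sw := (HEquiv.swapR (conjL g0 C2) (conjL g0 C3)).app [X, Y] (List.replicate n 1)
  set C2' := conjL (conjL g0 C3).prod⁻¹ (conjL g0 C2) with hC2'
  have F2 : FiniteOrbit ([X, Y] ++ conjL g0 C3 ++ C2' ++ List.replicate n 1) := by
    have := FiniteOrbit.of_equiv (by simpa [List.append_assoc] using F1) sw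
    simpa [List.append_assoc] using this
  have S2 : AllSum0 ([X, Y] ++ conjL g0 C3 ++ C2' ++ List.replicate n 1) := by
    have := AllSum0.of_equiv (by simpa [List.append_assoc] using S1) sw
    simpa [List.append_assoc] using this
  have P2 : ([X, Y] ++ conjL g0 C3 ++ C2' ++ List.replicate n 1).prod = 1 := by
    have h1 : ([X, Y] ++ (conjL g0 C2 ++ conjL g0 C3) ++ List.replicate n 1).prod = 1 := by
      have := P1
      rwa [List.append_assoc [X, Y]] at this
    rw [sw.prod_eq] at h1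
    have h2 : [X, Y] ++ conjL g0 C3 ++ C2' ++ List.replicate n 1 =
      [X, Y] ++ (conjL g0 C3 ++ C2') ++ List.replicate n 1 := by
      rw [List.append_assoc [X, Y]]
    rw [h2]; exact h1
  have hs2' : C2'.prod.s = finRotate 3 := by
    rw [hC2', conjL_prod, D2, D3]; simp
  have second3 := second_part F2 S2 finRot_isRot hXS hXY hD3 (rotPart_conj hD2 _) D3 hs2' P2
  -- conclude
  have hRR : ([⟨0, finRotate 3⟩] : List (Aff W)) = [stdR] :=
    congrArg (fun z => [z]) stdR_eq.symm
  have swapRP : HEquiv ([stdR] ++ [X, Y]) ([X, Y] ++ [(stdR : Aff W)]) :=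
    swap_rot_pair stdR X Y (hXY.trans stdR_eq.symm)
  rcases second2 with h2 | h2 <;> rcases second3 with h3 | h3
  · refine ⟨g0, a, 1, le_rfl, by norm_num, E1.trans ?_⟩
    rw [h2, h3, hRR, hPair]
    simp only [stdList]
    exact HEquiv.refl _
  · refine ⟨g0, a, 2, by norm_num, by norm_num, E1.trans ?_⟩
    rw [h2, hRR]
    have t1 := h3.app ([X, Y] ++ [stdR]) (List.replicate n 1)
    have t2 := swapRP.app [X, Y] (List.replicate n 1)
    have t3 := t1.trans (by simpa [List.append_assoc] using t2)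
    refine (by simpa [List.append_assoc] using t3 : HEquiv _ ([X, Y] ++ [X, Y] ++ [stdR] ++
      List.replicate n 1)).trans ?_
    rw [hPair]
    exact HEquiv.refl _
  · refine ⟨g0, a, 2, by norm_num, by norm_num, E1.trans ?_⟩
    rw [h3, hRR]
    have t1 := h2.app [X, Y] ([stdR] ++ List.replicate n 1)
    refine (by simpa [List.append_assoc] using t1 : HEquiv _ ([X, Y] ++ [X, Y] ++ [stdR] ++
      List.replicate n 1)).trans ?_
    rw [hPair]
    exact HEquiv.refl _
  · refine ⟨g0, a, 3, by norm_num, by norm_num, E1.trans ?_⟩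
    have t1 := h2.app [X, Y] (conjL g0 C3 ++ List.replicate n 1)
    have t2 := h3.app ([X, Y] ++ [X, Y]) (List.replicate n 1)
    refine (by simpa [List.append_assoc] using t1 : HEquiv _
      ([X, Y] ++ [X, Y] ++ conjL g0 C3 ++ List.replicate n 1)).trans ?_
    refine (by simpa [List.append_assoc] using t2 : HEquiv _
      ([X, Y] ++ [X, Y] ++ [X, Y] ++ List.replicate n 1)).trans ?_
    rw [hPair]
    exact HEquiv.refl _

end Pool.Agent.MCF
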