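import Pool.Agent.MCF.Tri

namespace Pool.Agent.MCF

open Equiv

variable {W : Type} [AddCommGroup W] [Module ℚ W]

section perms
set_option maxRecDepth 100000

theorem RotPart.prod_isRot {c : List (Perm (Fin 3))} (h : RotPart c) : IsRot c.prod := by
  rcases h with ⟨ρ, h, rfl⟩ | ⟨x, y, hx, hy, hxy, rfl⟩
  · simpa using h
  · simpa using hx.mul_isRot hy hxy

theorem RotPart.conj {c : List (Perm (Fin 3))} (h : RotPart c) (g : Perm (Fin 3)) :
    RotPart (conjL g c) := by
  rcases h with ⟨ρ, h, rfl⟩ | ⟨x, y, hx, hy, hxy, rfl⟩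
  · left; exact ⟨g * ρ * g⁻¹, h.conj g, by simp⟩
  · right; exact ⟨g * x * g⁻¹, g * y * g⁻¹, hx.conj g, hy.conj g, by simpa using hxy, by simp⟩

theorem refl_conj_rot_ne {x c : Perm (Fin 3)} (hx : IsRefl x) (hc : IsRot c) :
    x ≠ c⁻¹ * x * c := by
  revert x c; decide

end perms

omit [Module ℚ W] in
theorem rotPart_prod {C : List (Aff W)} (h : RotPart (C.map Aff.s)) : IsRot C.prod.s := by
  rw [prod_s]; exact h.prod_isRot

omit [Module ℚ W] in
theorem rotPart_conj {C : List (Aff W)} (h : RotPart (C.map Aff.s)) (g : Aff W) :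
    RotPart ((conjL g C).map Aff.s) := by
  have e : (conjL g C).map Aff.s = conjL g.s (C.map Aff.s) := by
    simp [conjL]
  rw [e]; exact h.conj g.s

omit [Module ℚ W] in
theorem merge_parts (MRG : Stmt_MRG) {parts : List (List (Aff W))} {Z : List (Aff W)}
    (h : FiniteOrbit (parts.flatten ++ Z)) : FiniteOrbit (parts.map List.prod ++ Z) := by
  have e : parts.flatten ++ Z = (parts ++ Z.map (fun z => [z])).flatten := by
    rw [List.flatten_append]
    congr 1
    clear h
    induction Z with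
    | nil => rfl
    | cons a Z ih => simpa using ih
  rw [e] at h
  have h2 := MRG _ _ h
  rw [List.map_append] at h2
  have e2 : (Z.map (fun z => [z])).map List.prod = Z := by
    rw [List.map_map]
    conv_rhs => rw [← List.map_id Z]
    apply List.map_congr_left
    intro a _
    simp
  rwa [e2] at h2

omit [Module ℚ W] in
theorem merge_sum0 {parts : List (List (Aff W))} {Z : List (Aff W)}
    (h : AllSum0 (parts.flatten ++ Z)) : AllSum0 (parts.map List.prod ++ Z) := by
  apply AllSum0.app
  · intro a ha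
    obtain ⟨C, hC, rfl⟩ := List.mem_map.mp ha
    apply AllSum0.prod
    intro b hb
    exact h b (by simp only [List.mem_append, List.mem_flatten]; exact Or.inl ⟨C, hC, hb⟩)
  · exact h.right

/-- products of the parts in a finite orbit with at least four parts -/
theorem merged (MRG : Stmt_MRG) {parts : List (List (Aff W))} {Z : List (Aff W)}
    (h : FiniteOrbit (parts.flatten ++ Z)) (h0 : AllSum0 (parts.flatten ++ Z))
    (hr : ∀ C ∈ parts, RotPart (C.map Aff.s)) (hZ : ∀ z ∈ Z, z.s = 1)
    (hlen : 4 ≤ parts.length) (hp : (parts.flatten ++ Z).prod = 1) :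
    (∀ z ∈ Z, z = 1) ∧ ∃ g : Aff W, IsRot g.s ∧ Sum0 g.v ∧
      ∀ C ∈ parts, C.prod = g ∨ C.prod = g⁻¹ := by
  have hp' : (parts.map List.prod ++ Z).prod = 1 := by
    rw [List.prod_append] at hp ⊢
    rw [List.prod_flatten] at hp
    exact hp
  obtain ⟨h1, g, hg, hg0, H⟩ := cycA (merge_parts MRG h) (merge_sum0 h0) (by
    intro a ha
    obtain ⟨C, hC, rfl⟩ := List.mem_map.mp ha
    exact rotPart_prod (hr C hC)) hZ (by simpa using hlen) hp'
  exact ⟨h1, g, hg, hg0, fun C hC => H _ (List.mem_map_of_mem hC)⟩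

omit [Module ℚ W] in
theorem inv_v_zero {g : Aff W} (h : g⁻¹.v = 0) : g.v = 0 := by
  rw [Aff.inv_v'] at h
  have h1 : act g.s⁻¹ g.v = 0 := neg_eq_zero.mp h
  have h2 : act g.s (act g.s⁻¹ g.v) = 0 := by rw [h1]; simp
  rwa [← act_mul, mul_inv_cancel, act_one] at h2

omit [Module ℚ W] in
/-- the basic move used for pairs -/
theorem pair_move (x y : Aff W) (C : List (Aff W)) :
    HEquiv ([x, y] ++ C) (conjL x C ++ [x, C.prod⁻¹ * y * C.prod]) := by
  have h1 := (HEquiv.moveR y C).cons x
  have h2 := (HEquiv.moveR' x C).app_right [C.prod⁻¹ * y * C.prod]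
  have := h1.trans (by simpa using h2)
  simpa using this

theorem pair_zero (MRG : Stmt_MRG) {x y : Aff W} {C2 C3 C4 : List (Aff W)}
    {rest : List (List (Aff W))} {Z : List (Aff W)}
    (h : FiniteOrbit (([x, y] :: C2 :: C3 :: C4 :: rest).flatten ++ Z))
    (h0 : AllSum0 (([x, y] :: C2 :: C3 :: C4 :: rest).flatten ++ Z))
    (hr : ∀ C ∈ [x, y] :: C2 :: C3 :: C4 :: rest, RotPart (C.map Aff.s))
    (hZ : ∀ z ∈ Z, z.s = 1)
    (hp : (([x, y] :: C2 :: C3 :: C4 :: rest).flatten ++ Z).prod = 1)
    (h2 : C2.prod.v = 0) (h4 : C4.prod.v = 0) : x.v = 0 := by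
  have hx0 : Sum0 x.v := h0 x (by simp)
  have hxy : IsRefl x.s ∧ IsRefl y.s ∧ x.s ≠ y.s := by
    rcases hr [x, y] (by simp) with ⟨ρ, _, e⟩ | ⟨x', y', hx', hy', hne, e⟩
    · simp at e
    · simp only [List.map_cons, List.map_nil, List.cons.injEq, and_true] at e
      rw [e.1, e.2]; exact ⟨hx', hy', hne⟩
  obtain ⟨hx, hy, hne⟩ := hxy
  have hC2 : IsRot C2.prod.s := rotPart_prod (hr C2 (by simp))
  have hC3 : IsRot C3.prod.s := rotPart_prod (hr C3 (by simp))
  set y' := C2.prod⁻¹ * y * C2.prod with hy'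
  have e1 := (pair_move x y C2).app_right ((C3 :: C4 :: rest).flatten ++ Z)
  have hF1 : FiniteOrbit ((conjL x C2 :: [x, y'] :: C3 :: C4 :: rest).flatten ++ Z) := by
    have := FiniteOrbit.of_equiv (by simpa [List.append_assoc] using h) e1
    simpa [List.append_assoc] using this
  have hS1 : AllSum0 ((conjL x C2 :: [x, y'] :: C3 :: C4 :: rest).flatten ++ Z) := by
    have := AllSum0.of_equiv (by simpa [List.append_assoc] using h0) e1
    simpa [List.append_assoc] using this
  have hp1 : ((conjL x C2 :: [x, y'] :: C3 :: C4 :: rest).flatten ++ Z).prod = 1 := by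
    have e2 := e1.prod_eq
    rw [← hp]
    simpa [hy', List.append_assoc, mul_assoc] using e2.symm
  have hy's : IsRefl y'.s := by
    have := hy.conj (C2.prod.s)⁻¹
    simpa [hy'] using this
  -- conclusion from a good regrouping
  have fin : ∀ parts' : List (List (Aff W)), FiniteOrbit (parts'.flatten ++ Z) →
      AllSum0 (parts'.flatten ++ Z) → (∀ C ∈ parts', RotPart (C.map Aff.s)) →
      4 ≤ parts'.length → (parts'.flatten ++ Z).prod = 1 → conjL x C2 ∈ parts' →
      C4 ∈ parts' → x.v = 0 := by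
    intro parts' f1 f2 f3 f4 f5 f6 f7
    obtain ⟨_, g, hg, hg0, H⟩ := merged MRG f1 f2 f3 hZ f4 f5
    have hgv : g.v = 0 := by
      rcases H C4 f7 with h | h
      · rw [← h]; exact h4
      · rw [h] at h4; exact inv_v_zero h4
    have hgv' : g⁻¹.v = 0 := by rw [Aff.inv_v', hgv]; simp
    have : (conjL x C2).prod.v = 0 := by
      rcases H _ f6 with h | h
      · rw [h]; exact hgv
      · rw [h]; exact hgv'
    rw [conjL_prod] at this
    exact center_unique hC2 h2 hx0 this
  by_cases hxy' : x.s = y'.s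
  · -- second step
    set y'' := C3.prod⁻¹ * y' * C3.prod with hy''
    have e2 := (pair_move x y' C3).app (conjL x C2) ((C4 :: rest).flatten ++ Z)
    have hF2 : FiniteOrbit
        ((conjL x C2 :: conjL x C3 :: [x, y''] :: C4 :: rest).flatten ++ Z) := by
      have := FiniteOrbit.of_equiv (by simpa [List.append_assoc] using hF1) e2
      simpa [List.append_assoc] using this
    have hS2 : AllSum0
        ((conjL x C2 :: conjL x C3 :: [x, y''] :: C4 :: rest).flatten ++ Z) := by
      have := AllSum0.of_equiv (by simpa [List.append_assoc] using hS1) e2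
      simpa [List.append_assoc] using this
    have hp2 : ((conjL x C2 :: conjL x C3 :: [x, y''] :: C4 :: rest).flatten ++ Z).prod = 1 := by
      have e3 := e2.prod_eq
      rw [← hp1]
      simpa [hy'', List.append_assoc, mul_assoc] using e3.symm
    have hy''s : IsRefl y''.s := by
      have := hy's.conj (C3.prod.s)⁻¹
      simpa [hy''] using this
    have hne'' : x.s ≠ y''.s := by
      have := refl_conj_rot_ne hx hC3
      rw [hy'']
      simp only [Aff.mul_s, Aff.inv_s]
      rw [← hxy']; exact this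
    refine fin _ hF2 hS2 ?_ (by simp) hp2 (by simp) (by simp)
    intro C hC
    simp only [List.mem_cons] at hC
    rcases hC with rfl | rfl | rfl | rfl | hC
    · exact rotPart_conj (hr C2 (by simp)) x
    · exact rotPart_conj (hr C3 (by simp)) x
    · exact Or.inr ⟨x.s, y''.s, hx, hy''s, hne'', by simp⟩
    · exact hr _ (by simp)
    · exact hr _ (by simp [hC])
  · refine fin _ hF1 hS1 ?_ (by simp) hp1 (by simp) (by simp)
    intro C hC
    simp only [List.mem_cons] at hC
    rcases hC with rfl | rfl | rfl | rfl | hC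
    · exact rotPart_conj (hr C2 (by simp)) x
    · exact Or.inr ⟨x.s, y'.s, hx, hy's, hxy', by simp⟩
    · exact hr _ (by simp)
    · exact hr _ (by simp)
    · exact hr _ (by simp [hC])

omit [Module ℚ W] in
theorem conjL_flatten {G : Type*} [Group G] (g : G) (parts : List (List G)) :
    conjL g parts.flatten = (parts.map (conjL g)).flatten := by
  simp [conjL, List.map_flatten]
  rfl

/-- genus at least two: everything is centred -/
theorem genus_two (MRG : Stmt_MRG) {parts : List (List (Aff W))} {Z : List (Aff W)}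
    (h : FiniteOrbit (parts.flatten ++ Z)) (h0 : AllSum0 (parts.flatten ++ Z))
    (hr : ∀ C ∈ parts, RotPart (C.map Aff.s)) (hZ : ∀ z ∈ Z, z.s = 1)
    (hlen : 4 ≤ parts.length) (hp : (parts.flatten ++ Z).prod = 1) :
    (∀ z ∈ Z, z = 1) ∧ ∃ c : Fin 3 → W, Sum0 c ∧
      ∀ a ∈ parts.flatten, (Aff.tr c * a * (Aff.tr c)⁻¹).v = 0 := by
  obtain ⟨hZ1, g, hg, hg0, H⟩ := merged MRG h h0 hr hZ hlen hp
  refine ⟨hZ1, ?_⟩
  obtain ⟨c, hc, hgc⟩ := exists_center hg hg0
  refine ⟨c, hc, ?_⟩
  intro a ha
  obtain ⟨C, hC, haC⟩ := List.mem_flatten.mp ha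
  -- products are centred
  have hcent : ∀ C ∈ parts, (Aff.tr c * C.prod * (Aff.tr c)⁻¹).v = 0 := by
    intro C hC
    rcases H C hC with h1 | h1
    · rw [h1]; exact hgc
    · rw [h1]
      have e : Aff.tr c * g⁻¹ * (Aff.tr c)⁻¹ = (Aff.tr c * g * (Aff.tr c)⁻¹)⁻¹ := by group
      rw [e, Aff.inv_v', hgc]; simp
  rcases hr C hC with ⟨ρ, hρ, e⟩ | ⟨x', y', hx', hy', hne, e⟩
  · obtain ⟨b, rfl, hb⟩ := List.map_eq_singleton_iff.mp e
    simp only [List.mem_singleton] at haC
    subst haC
    have := hcent [a] hC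
    simpa using this
  · obtain ⟨x, y, rfl⟩ : ∃ x y, C = [x, y] := by
      have : C.length = 2 := by
        have := congrArg List.length e; simpa using this
      exact List.length_eq_two.mp this
    -- rotate parts
    obtain ⟨P, Q, hPQ⟩ := List.append_of_mem hC
    have hZr : Z = List.replicate Z.length 1 := by
      rw [List.eq_replicate_iff]; exact ⟨rfl, hZ1⟩
    have e1 : HEquiv (parts.flatten ++ Z) (([x, y] :: (Q ++ P)).flatten ++ Z) := by
      have r1 := HEquiv.rotate (X := P.flatten) (Y := ([x, y] :: Q).flatten ++ Z) (by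
        rw [hPQ] at hp; simpa [List.append_assoc] using hp)
      have r2 := (HEquiv.swapL Z P.flatten).app_left (([x, y] :: Q).flatten)
      have hZp : Z.prod = 1 := List.prod_eq_one hZ1
      rw [hZp, conjL_one] at r2
      rw [hPQ]
      refine (by simpa [List.append_assoc] using r1 : HEquiv ((P ++ [x, y] :: Q).flatten ++ Z)
        (([x, y] :: Q).flatten ++ (Z ++ P.flatten))).trans ?_
      simpa [List.append_assoc] using r2
    set L := ([x, y] :: (Q ++ P)) with hL
    have hLlen : 4 ≤ L.length := by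
      rw [hPQ] at hlen; simp at hlen; rw [hL]; simp; omega
    have hLmem : ∀ C, C ∈ L ↔ C ∈ parts := by
      intro C; rw [hL, hPQ]; simp only [List.mem_cons, List.mem_append]; tauto
    have hF : FiniteOrbit (conjL (Aff.tr c) (L.flatten ++ Z)) := (h.of_equiv e1).conj _
    have hS : AllSum0 (conjL (Aff.tr c) (L.flatten ++ Z)) :=
      (h0.of_equiv e1).conj (by simpa using hc)
    have hpL : (conjL (Aff.tr c) (L.flatten ++ Z)).prod = 1 := by
      rw [conjL_prod, ← e1.prod_eq, hp]; simp
    rw [conjL_append, conjL_flatten] at hF hS hpL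
    obtain ⟨C2, C3, C4, rest, hrest⟩ : ∃ C2 C3 C4 rest, Q ++ P = C2 :: C3 :: C4 :: rest := by
      have : 3 ≤ (Q ++ P).length := by rw [hL] at hLlen; simp at hLlen ⊢; omega
      match hq : Q ++ P, this with
      | a :: b :: c :: r, _ => exact ⟨a, b, c, r, rfl⟩
    have hxv : (Aff.tr c * x * (Aff.tr c)⁻¹).v = 0 := by
      refine pair_zero MRG (x := Aff.tr c * x * (Aff.tr c)⁻¹) (y := Aff.tr c * y * (Aff.tr c)⁻¹)
        (C2 := conjL (Aff.tr c) C2) (C3 := conjL (Aff.tr c) C3) (C4 := conjL (Aff.tr c) C4)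
        (rest := rest.map (conjL (Aff.tr c))) (Z := conjL (Aff.tr c) Z) ?_ ?_ ?_ ?_ ?_ ?_ ?_
      · rw [hL, hrest] at hF; simpa using hF
      · rw [hL, hrest] at hS; simpa using hS
      · intro C hC
        have hC' : ∃ D ∈ L, C = conjL (Aff.tr c) D := by
          simp only [List.mem_cons, List.mem_map] at hC
          rcases hC with rfl | rfl | rfl | rfl | ⟨D, hD, rfl⟩
          · exact ⟨[x, y], by simp [hL], by simp⟩
          · exact ⟨C2, by rw [hL, hrest]; simp, rfl⟩
          · exact ⟨C3, by rw [hL, hrest]; simp, rfl⟩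
          · exact ⟨C4, by rw [hL, hrest]; simp, rfl⟩
          · exact ⟨D, by rw [hL, hrest]; simp [hD], rfl⟩
        obtain ⟨D, hD, rfl⟩ := hC'
        exact rotPart_conj (hr D ((hLmem D).mp hD)) _
      · intro z hz
        obtain ⟨z', hz', rfl⟩ := mem_conjL.mp hz
        simp [hZ z' hz']
      · rw [hL, hrest] at hpL; simpa using hpL
      · rw [conjL_prod]
        exact hcent C2 ((hLmem C2).mp (by rw [hL, hrest]; simp))
      · rw [conjL_prod]
        exact hcent C4 ((hLmem C4).mp (by rw [hL, hrest]; simp))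
    have hyv : (Aff.tr c * y * (Aff.tr c)⁻¹).v = 0 := by
      have h1 := hcent [x, y] hC
      have e2 : Aff.tr c * [x, y].prod * (Aff.tr c)⁻¹ =
        (Aff.tr c * x * (Aff.tr c)⁻¹) * (Aff.tr c * y * (Aff.tr c)⁻¹) := by
        simp only [List.prod_cons, List.prod_nil, mul_one]; group
      rw [e2, Aff.mul_v', hxv, zero_add] at h1
      have h2 : act ((Aff.tr c * x * (Aff.tr c)⁻¹).s)⁻¹
        (act (Aff.tr c * x * (Aff.tr c)⁻¹).s (Aff.tr c * y * (Aff.tr c)⁻¹).v) = 0 := by
        rw [h1]; simp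
      rwa [← act_mul, inv_mul_cancel, act_one] at h2
    simp only [List.mem_cons, List.not_mem_nil, or_false] at haC
    rcases haC with rfl | rfl
    · exact hxv
    · exact hyv

end Pool.Agent.MCF
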