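import Pool.Agent.MCF.Stmts

namespace Pool.Agent.MCF

open Equiv

section perms

set_option maxRecDepth 100000

theorem perm_cases (σ : Perm (Fin 3)) : σ = 1 ∨ IsRot σ ∨ IsRefl σ := by
  revert σ; decide

theorem IsRot.cases {σ : Perm (Fin 3)} (h : IsRot σ) :
    (σ 0 = 1 ∧ σ 1 = 2 ∧ σ 2 = 0) ∨ (σ 0 = 2 ∧ σ 1 = 0 ∧ σ 2 = 1) := by
  revert σ; decide

theorem IsRefl.cases {σ : Perm (Fin 3)} (h : IsRefl σ) :
    (σ 0 = 0 ∧ σ 1 = 2 ∧ σ 2 = 1) ∨ (σ 0 = 2 ∧ σ 1 = 1 ∧ σ 2 = 0) ∨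
      (σ 0 = 1 ∧ σ 1 = 0 ∧ σ 2 = 2) := by
  revert σ; decide

theorem IsRot.inv {σ : Perm (Fin 3)} (h : IsRot σ) : IsRot σ⁻¹ := by
  revert σ; decide

theorem IsRot.conj {σ : Perm (Fin 3)} (h : IsRot σ) (g : Perm (Fin 3)) :
    IsRot (g * σ * g⁻¹) := by
  revert σ g; decide

theorem IsRefl.conj {σ : Perm (Fin 3)} (h : IsRefl σ) (g : Perm (Fin 3)) :
    IsRefl (g * σ * g⁻¹) := by
  revert σ g; decide

theorem IsRot.conj_refl {σ g : Perm (Fin 3)} (h : IsRot σ) (hg : IsRefl g) :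
    g * σ * g⁻¹ = σ⁻¹ := by
  revert σ g; decide

theorem IsRot.eq_or {σ τ : Perm (Fin 3)} (h : IsRot σ) (hτ : IsRot τ) : τ = σ ∨ τ = σ⁻¹ := by
  revert σ τ; decide

theorem IsRot.commute {σ τ : Perm (Fin 3)} (h : IsRot σ) (hτ : IsRot τ) :
    σ * τ = τ * σ := by
  revert σ τ; decide

theorem IsRot.of_commute {σ τ : Perm (Fin 3)} (h : IsRot σ) (hτ : τ * σ = σ * τ) :
    τ = 1 ∨ IsRot τ := by
  revert σ τ; decide

theorem IsRefl.mul_isRot {σ τ : Perm (Fin 3)} (h : IsRefl σ) (hτ : IsRefl τ) (hne : σ ≠ τ) :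
    IsRot (σ * τ) := by
  revert σ τ; decide

theorem perm_pow_six (σ : Perm (Fin 3)) : σ ^ 6 = 1 := by
  revert σ; decide

theorem IsRefl.mul_self {σ : Perm (Fin 3)} (h : IsRefl σ) : σ * σ = 1 := by
  have := h.2; rwa [pow_two] at this

theorem IsRefl.inv_eq {σ : Perm (Fin 3)} (h : IsRefl σ) : σ⁻¹ = σ := by
  rw [inv_eq_iff_mul_eq_one]; exact h.mul_self

theorem IsRot.mul_three {σ : Perm (Fin 3)} (h : IsRot σ) : σ * σ * σ = 1 := by
  have := h.2; rwa [pow_succ, pow_two] at this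

theorem IsRot.not_refl {σ : Perm (Fin 3)} (h : IsRot σ) : ¬ IsRefl σ := by
  revert σ; decide

end perms

variable {W : Type} [AddCommGroup W]

/-- permutation action on vectors -/
def act (σ : Perm (Fin 3)) (v : Fin 3 → W) : Fin 3 → W := fun i => v (σ⁻¹ i)

omit [AddCommGroup W] in
theorem act_apply (σ : Perm (Fin 3)) (v : Fin 3 → W) (i : Fin 3) : act σ v i = v (σ⁻¹ i) := rfl

omit [AddCommGroup W] in
@[simp] theorem act_one (v : Fin 3 → W) : act 1 v = v := by ext i; simp [act]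

omit [AddCommGroup W] in
theorem act_mul (σ τ : Perm (Fin 3)) (v : Fin 3 → W) : act (σ * τ) v = act σ (act τ v) := by
  ext i; simp [act, mul_inv_rev]

@[simp] theorem act_zero (σ : Perm (Fin 3)) : act σ (0 : Fin 3 → W) = 0 := by
  ext i; simp [act]
@[simp] theorem act_add (σ : Perm (Fin 3)) (v w : Fin 3 → W) :
    act σ (v + w) = act σ v + act σ w := by ext i; simp [act]
@[simp] theorem act_sub (σ : Perm (Fin 3)) (v w : Fin 3 → W) :
    act σ (v - w) = act σ v - act σ w := by ext i; simp [act]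
@[simp] theorem act_neg (σ : Perm (Fin 3)) (v : Fin 3 → W) :
    act σ (-v) = - act σ v := by ext i; simp [act]
@[simp] theorem act_nsmul (σ : Perm (Fin 3)) (n : ℕ) (v : Fin 3 → W) :
    act σ (n • v) = n • act σ v := by ext i; simp [act]

theorem Aff.mul_v' (a b : Aff W) : (a * b).v = a.v + act a.s b.v := rfl
theorem Aff.inv_v' (a : Aff W) : (a⁻¹).v = - act a.s⁻¹ a.v := by ext i; simp [act]
theorem Aff.one_v' : (1 : Aff W).v = 0 := rfl

/-- sum-zero vectors -/
def Sum0 (v : Fin 3 → W) : Prop := v 0 + v 1 + v 2 = 0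

theorem Sum0.zero : Sum0 (0 : Fin 3 → W) := by simp [Sum0]
theorem Sum0.add {v w : Fin 3 → W} (hv : Sum0 v) (hw : Sum0 w) : Sum0 (v + w) := by
  unfold Sum0 at *
  simp only [Pi.add_apply]
  calc _ = (v 0 + v 1 + v 2) + (w 0 + w 1 + w 2) := by abel
    _ = 0 := by rw [hv, hw, add_zero]
theorem Sum0.neg {v : Fin 3 → W} (hv : Sum0 v) : Sum0 (-v) := by
  unfold Sum0 at *
  simp only [Pi.neg_apply]
  calc _ = -(v 0 + v 1 + v 2) := by abel
    _ = 0 := by rw [hv, neg_zero]
theorem Sum0.sub {v w : Fin 3 → W} (hv : Sum0 v) (hw : Sum0 w) : Sum0 (v - w) := by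
  rw [sub_eq_add_neg]; exact hv.add hw.neg
theorem Sum0.act {v : Fin 3 → W} (hv : Sum0 v) (σ : Perm (Fin 3)) : Sum0 (act σ v) := by
  have key : ∀ σ : Perm (Fin 3), (σ 0 = 0 ∧ σ 1 = 1 ∧ σ 2 = 2) ∨ (σ 0 = 0 ∧ σ 1 = 2 ∧ σ 2 = 1)
    ∨ (σ 0 = 1 ∧ σ 1 = 0 ∧ σ 2 = 2) ∨ (σ 0 = 1 ∧ σ 1 = 2 ∧ σ 2 = 0)
    ∨ (σ 0 = 2 ∧ σ 1 = 0 ∧ σ 2 = 1) ∨ (σ 0 = 2 ∧ σ 1 = 1 ∧ σ 2 = 0) := by decide
  unfold Sum0 at *
  simp only [MCF.act]
  rcases key σ⁻¹ with ⟨h0, h1, h2⟩ | ⟨h0, h1, h2⟩ | ⟨h0, h1, h2⟩ | ⟨h0, h1, h2⟩ | ⟨h0, h1, h2⟩ |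
    ⟨h0, h1, h2⟩ <;> rw [h0, h1, h2, ← hv] <;> abel

theorem Sum0.nsmul {v : Fin 3 → W} (hv : Sum0 v) (n : ℕ) : Sum0 (n • v) := by
  induction n with
  | zero => simpa using Sum0.zero
  | succ n ih => rw [succ_nsmul]; exact ih.add hv

/-- all vector parts have sum zero -/
def AllSum0 (l : List (Aff W)) : Prop := ∀ a ∈ l, Sum0 a.v

theorem Sum0.mulA {a b : Aff W} (ha : Sum0 a.v) (hb : Sum0 b.v) : Sum0 (a * b).v := by
  rw [Aff.mul_v']; exact ha.add (hb.act _)
theorem Sum0.invA {a : Aff W} (ha : Sum0 a.v) : Sum0 (a⁻¹).v := by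
  rw [Aff.inv_v']; exact (ha.act _).neg
theorem Sum0.conjA {a : Aff W} (ha : Sum0 a.v) {g : Aff W} (hg : Sum0 g.v) :
    Sum0 (g * a * g⁻¹).v := (hg.mulA ha).mulA hg.invA

theorem AllSum0.app {l l' : List (Aff W)} (h : AllSum0 l) (h' : AllSum0 l') :
    AllSum0 (l ++ l') := by
  intro a ha; rcases List.mem_append.mp ha with ha | ha
  · exact h a ha
  · exact h' a ha
theorem AllSum0.left {l l' : List (Aff W)} (h : AllSum0 (l ++ l')) : AllSum0 l :=
  fun a ha => h a (List.mem_append_left _ ha)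
theorem AllSum0.right {l l' : List (Aff W)} (h : AllSum0 (l ++ l')) : AllSum0 l' :=
  fun a ha => h a (List.mem_append_right _ ha)
theorem AllSum0.prod {l : List (Aff W)} (h : AllSum0 l) : Sum0 l.prod.v := by
  induction l with
  | nil => exact Sum0.zero
  | cons a l ih =>
    rw [List.prod_cons]
    exact (h a (by simp)).mulA (ih (fun b hb => h b (by simp [hb])))
theorem AllSum0.conj {l : List (Aff W)} (h : AllSum0 l) {g : Aff W} (hg : Sum0 g.v) :
    AllSum0 (conjL g l) := by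
  intro a ha
  obtain ⟨b, hb, rfl⟩ := mem_conjL.mp ha
  exact (h b hb).conjA hg

/-- invariance of AllSum0 under Hurwitz equivalence -/
theorem AllSum0.of_equiv {l l' : List (Aff W)} (h : AllSum0 l) (e : HEquiv l l') :
    AllSum0 l' := by
  have : ∀ {l l' : List (Aff W)}, HEquiv l l' → (AllSum0 l ↔ AllSum0 l') := by
    intro l l' e
    refine HEquiv.induct (P := fun l l' => (AllSum0 l ↔ AllSum0 l')) ?_ ?_ ?_ ?_ e
    · rintro _ _ ⟨p, a, b, q⟩
      constructor
      · intro h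
        have ha : Sum0 a.v := h a (by simp)
        have hb : Sum0 b.v := h b (by simp)
        intro x hx
        simp only [List.mem_append, List.mem_cons] at hx
        rcases hx with hx | rfl | rfl | hx
        · exact h x (by simp [hx])
        · exact hb
        · exact (hb.invA.mulA ha).mulA hb
        · exact h x (by simp [hx])
      · intro h
        have hb : Sum0 b.v := h b (by simp)
        have hc : Sum0 (b⁻¹ * a * b).v := h _ (by simp)
        intro x hx
        simp only [List.mem_append, List.mem_cons] at hx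
        rcases hx with hx | rfl | rfl | hx
        · exact h x (by simp [hx])
        · have := hc.conjA hb
          have e : b * (b⁻¹ * x * b) * b⁻¹ = x := by group
          rwa [e] at this
        · exact hb
        · exact h x (by simp [hx])
    · intro l; rfl
    · intro l l' h; exact h.symm
    · intro a b c h h'; exact h.trans h'
  exact (this e).mp h

/-- a list is large if its linear parts have no common fixed sum-zero vector -/
def Large (l : List (Aff W)) : Prop := ∀ u : Fin 3 → W, Sum0 u → (∀ a ∈ l, act a.s u = u) → u = 0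

theorem Large.mono {l l' : List (Aff W)} (h : Large l) (hs : ∀ a ∈ l, a ∈ l') : Large l' :=
  fun u hu H => h u hu (fun a ha => H a (hs a ha))

variable [Module ℚ W]

theorem torsfree {w : W} {n : ℕ} (hn : 0 < n) (h : n • w = 0) : w = 0 := by
  have h1 : (n : ℚ) • w = 0 := by rwa [Nat.cast_smul_eq_nsmul]
  rcases smul_eq_zero.mp h1 with h2 | h2
  · exact absurd h2 (by positivity)
  · exact h2

theorem torsfree_fun {w : Fin 3 → W} {n : ℕ} (hn : 0 < n) (h : n • w = 0) : w = 0 := by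
  ext i
  have := congrFun h i
  exact torsfree hn (by simpa using this)

theorem rot_fix {σ : Perm (Fin 3)} (h : IsRot σ) {u : Fin 3 → W} (hu : Sum0 u)
    (hf : act σ u = u) : u = 0 := by
  have h0 : ∀ i, u (σ i) = u i := by
    intro i; have := congrFun hf (σ i); simp [act] at this; exact this.symm
  have e1 : u 0 = u 1 ∧ u 1 = u 2 := by
    rcases h.cases with ⟨a, b, c⟩ | ⟨a, b, c⟩
    · have := h0 0; rw [a] at this; have h2 := h0 1; rw [b] at h2; exact ⟨this.symm, h2.symm⟩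
    · have := h0 1; rw [b] at this; have h2 := h0 2; rw [c] at h2; exact ⟨this, h2⟩
  have e2 : 3 • u 0 = 0 := by
    unfold Sum0 at hu
    rw [← hu, ← e1.2, ← e1.1]; abel
  have e3 : u 0 = 0 := torsfree (by norm_num) e2
  ext i
  fin_cases i
  · exact e3
  · simpa [← e1.1] using e3
  · simpa [← e1.2, ← e1.1] using e3

theorem refl_fix {σ τ : Perm (Fin 3)} (h : IsRefl σ) (hτ : IsRefl τ) (hne : σ ≠ τ)
    {u : Fin 3 → W} (hu : Sum0 u) (hf : act σ u = u) (hf' : act τ u = u) : u = 0 := by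
  apply rot_fix (h.mul_isRot hτ hne) hu
  rw [act_mul, hf', hf]

omit [Module ℚ W] in
theorem Large.of_mem_rot {V : Type} [AddCommGroup V] [Module ℚ V] {l : List (Aff V)} {a : Aff V}
    (ha : a ∈ l) (h : IsRot a.s) : Large l :=
  fun _ hu H => rot_fix h hu (H a ha)

theorem Large.of_mem_refl {l : List (Aff W)} {a b : Aff W}
    (ha : a ∈ l) (hb : b ∈ l) (h : IsRefl a.s) (h' : IsRefl b.s) (hne : a.s ≠ b.s) : Large l :=
  fun _ hu H => refl_fix h h' hne hu (H a ha) (H b hb)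

omit [Module ℚ W] [AddCommGroup W] in
theorem Aff.ext' {a b : Aff W} (h : a.v = b.v) (h' : a.s = b.s) : a = b := by
  cases a; cases b; simp_all

omit [Module ℚ W] in
theorem tr_pow (v : Fin 3 → W) (n : ℕ) : (Aff.tr v) ^ n = Aff.tr (n • v) := by
  induction n with
  | zero => apply Aff.ext' <;> simp [Aff.one_v']
  | succ n ih =>
    rw [pow_succ, ih]
    apply Aff.ext'
    · rw [Aff.mul_v']; simp [succ_nsmul]
    · simp

omit [Module ℚ W] in
theorem eq_tr_of_s {a : Aff W} (h : a.s = 1) : a = Aff.tr a.v := Aff.ext' rfl h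

omit [Module ℚ W] in
theorem tr_mul_tr (v w : Fin 3 → W) : Aff.tr v * Aff.tr w = Aff.tr (v + w) := by
  apply Aff.ext'
  · rw [Aff.mul_v']; simp
  · simp

omit [Module ℚ W] in
theorem tr_commute_iff {v : Fin 3 → W} {b : Aff W} :
    Aff.tr v * b = b * Aff.tr v ↔ act b.s v = v := by
  constructor
  · intro h
    have := congrArg Aff.v h
    rw [Aff.mul_v', Aff.mul_v'] at this
    simp only [Aff.tr_v, Aff.tr_s, act_one] at this
    have h2 : b.v + v = b.v + act b.s v := by rw [add_comm]; exact this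
    exact (add_left_cancel h2).symm
  · intro h
    apply Aff.ext'
    · rw [Aff.mul_v', Aff.mul_v']; simp [h, add_comm]
    · simp

/-- twist lemma in `W³ ⋊ S₃` -/
theorem twist_vec {p B q : List (Aff W)} (h : FiniteOrbit (p ++ B ++ q)) {m : Fin 3 → W}
    (hm : B.prod = Aff.tr m) :
    ∃ k : ℕ, 1 ≤ k ∧ ∃ u : Fin 3 → W, Sum0 u ∧ (∀ a ∈ p ++ q, act a.s u = u) ∧
      ∀ b ∈ B, act b.s (k • m + u) = k • m + u := by
  obtain ⟨k, hk, g, hg, hB⟩ := h.twist
  -- g commutes with B.prod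
  have hx : ∀ L : List (Aff W), (∀ b ∈ L, (B.prod ^ k * g) * b = b * (B.prod ^ k * g)) →
      (B.prod ^ k * g) * L.prod = L.prod * (B.prod ^ k * g) := by
    intro L
    induction L with
    | nil => intro _; simp
    | cons b L ih =>
      intro hL
      rw [List.prod_cons, ← mul_assoc, hL b (by simp), mul_assoc,
        ih (fun c hc => hL c (by simp [hc])), mul_assoc]
  have hxB := hx B hB
  have hc : Commute B.prod g := by
    have h1 : Commute (B.prod ^ k * g) B.prod := hxB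
    have h2 : Commute ((B.prod ^ k)⁻¹) B.prod := ((Commute.refl B.prod).pow_left k).inv_left
    have h3 := h2.mul_left h1
    simpa using h3.symm
  have hck : Commute (B.prod ^ k) g := hc.pow_left k
  -- sixth powers
  have hg6 : g ^ 6 = Aff.tr (g ^ 6).v := by
    apply eq_tr_of_s
    have : (g ^ 6).s = g.s ^ 6 := by
      have := map_pow (Aff.perm (W := W)) g 6
      simpa using this
    rw [this, perm_pow_six]
  set w := (g ^ 6).v with hw
  have hB6 : (B.prod ^ k * g) ^ 6 = Aff.tr ((6 * k) • m + w) := by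
    rw [hck.mul_pow, ← pow_mul, hm, tr_pow, hg6, tr_mul_tr, mul_comm k 6]
  have h1 : ∀ a ∈ p ++ q, act a.s w = w := by
    intro a ha
    have : Commute g a := hg a ha
    have h2 : g ^ 6 * a = a * g ^ 6 := (this.pow_left 6).eq
    rw [hg6] at h2
    exact tr_commute_iff.mp h2
  have h2 : ∀ b ∈ B, act b.s ((6 * k) • m + w) = (6 * k) • m + w := by
    intro b hb
    have : Commute (B.prod ^ k * g) b := hB b hb
    have h3 := (this.pow_left 6).eq
    rw [hB6] at h3
    exact tr_commute_iff.mp h3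
  -- project to sum zero
  set c : W := (1/3 : ℚ) • (w 0 + w 1 + w 2) with hcdef
  have hac : ∀ σ : Perm (Fin 3), act σ (fun _ => c) = fun _ => c := fun σ => rfl
  refine ⟨6 * k, by omega, w - fun _ => c, ?_, ?_, ?_⟩
  · unfold Sum0
    simp only [Pi.sub_apply]
    have : w 0 - c + (w 1 - c) + (w 2 - c) = (w 0 + w 1 + w 2) - (3 : ℚ) • c := by
      module
    rw [this, hcdef, smul_smul]; norm_num
  · intro a ha
    rw [act_sub, h1 a ha, hac]
  · intro b hb
    have := h2 b hb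
    have e : (6 * k) • m + (w - fun _ => c) = ((6 * k) • m + w) - (fun _ => c) := by abel
    rw [e, act_sub, this, hac]

/-- block lemma 1 -/
theorem block_fix {p B q : List (Aff W)} (h : FiniteOrbit (p ++ B ++ q)) (hs : B.prod.s = 1)
    (hlarge : Large (p ++ q)) : ∀ b ∈ B, act b.s B.prod.v = B.prod.v := by
  obtain ⟨k, hk, u, hu, h1, h2⟩ := twist_vec h (eq_tr_of_s hs)
  have hu0 := hlarge u hu h1
  intro b hb
  have := h2 b hb
  rw [hu0, add_zero, act_nsmul] at this
  have h3 : k • (act b.s B.prod.v - B.prod.v) = 0 := by rw [nsmul_sub, this, sub_self]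
  exact sub_eq_zero.mp (torsfree_fun (by omega) h3)

/-- block lemma 2 -/
theorem block_one {p B q : List (Aff W)} (h : FiniteOrbit (p ++ B ++ q)) (hs : B.prod.s = 1)
    (hB0 : AllSum0 B) (hlarge : Large (p ++ q)) (hB : Large B) : B.prod = 1 := by
  have h1 := hB _ hB0.prod (block_fix h hs hlarge)
  apply Aff.ext'
  · rw [h1]; rfl
  · exact hs

end Pool.Agent.MCF
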