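import Pool.Agent.MCF.Phi

namespace Pool.Agent.MCF

open Equiv

/-- `A` is a monomial matrix of shape `σ`: its non-zero entries are exactly at the places
`(σ j, j)`. -/
def Shape (A : Matrix (Fin 3) (Fin 3) ℂ) (σ : Perm (Fin 3)) : Prop :=
  ∀ i j, A i j ≠ 0 ↔ i = σ j

abbrev SL3 : Type := Matrix.SpecialLinearGroup (Fin 3) ℂ

theorem exists_aff_of_shape (A : GL (Fin 3) ℂ) (σ : Perm (Fin 3))
    (h : Shape (A : Matrix (Fin 3) (Fin 3) ℂ) σ) :
    ∃ a : Aff (Additive ℂˣ), Aff.mat a = A ∧ a.s = σ := by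
  refine ⟨⟨fun i => Additive.ofMul (Units.mk0 ((A : Matrix (Fin 3) (Fin 3) ℂ) i (σ⁻¹ i))
    ((h i (σ⁻¹ i)).mpr (by simp))), σ⟩, ?_, rfl⟩
  apply Units.ext
  ext i j
  rw [Aff.mat_apply]
  by_cases hij : i = σ j
  · rw [if_pos hij]
    have : σ⁻¹ i = j := by rw [hij]; simp
    simp [this]
  · rw [if_neg hij]
    by_contra hne
    exact hij ((h i j).mp (Ne.symm hne))

theorem mat_shape (a : Aff (Additive ℂˣ)) :
    Shape ((Aff.mat a : GL (Fin 3) ℂ) : Matrix (Fin 3) (Fin 3) ℂ) a.s := by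
  intro i j
  rw [Aff.mat_apply]
  by_cases h : i = a.s j
  · simp [h]
  · simp [h]

theorem mat_injective : Function.Injective Aff.mat := by
  intro a b h
  have hs : a.s = b.s := by
    ext j
    have h1 := (mat_shape a (a.s j) j).mpr rfl
    rw [h] at h1
    exact congrArg Fin.val ((mat_shape b _ _).mp h1)
  apply Aff.ext' _ hs
  ext i
  have h1 := congrArg (fun A : GL (Fin 3) ℂ => (A : Matrix (Fin 3) (Fin 3) ℂ) i (a.s⁻¹ i)) h
  simp only [Aff.mat_apply] at h1
  rw [if_pos (by simp), if_pos (by rw [← hs]; simp)] at h1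
  exact h1

theorem exists_aff_list : ∀ (l : List SL3) (τ : List (Perm (Fin 3))),
    List.Forall₂ (fun (A : SL3) (σ : Perm (Fin 3)) =>
      Shape (A : Matrix (Fin 3) (Fin 3) ℂ) σ) l τ →
    ∃ L : List (Aff (Additive ℂˣ)), L.map Aff.mat = l.map Matrix.SpecialLinearGroup.toGL ∧
      L.map Aff.s = τ := by
  intro l τ h
  induction h with
  | nil => exact ⟨[], rfl, rfl⟩
  | @cons A σ l τ h _ ih =>
    obtain ⟨L, h1, h2⟩ := ih
    obtain ⟨a, ha, has⟩ := exists_aff_of_shape (Matrix.SpecialLinearGroup.toGL A) σ h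
    exact ⟨a :: L, by simp [ha, h1], by simp [has, h2]⟩

/-- sum of the entries -/
def sumv {W : Type} [AddCommGroup W] (a : Aff W) : W := a.v 0 + a.v 1 + a.v 2

theorem sumv_mul {W : Type} [AddCommGroup W] (a b : Aff W) : sumv (a * b) = sumv a + sumv b := by
  have h : ∑ i, b.v (a.s⁻¹ i) = ∑ i, b.v i := Equiv.sum_comp a.s⁻¹ b.v
  rw [Fin.sum_univ_three, Fin.sum_univ_three] at h
  unfold sumv
  simp only [Aff.mul_v]
  rw [← h]
  abel

theorem sumv_pow {W : Type} [AddCommGroup W] (a : Aff W) (n : ℕ) :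
    sumv (a ^ n) = n • sumv a := by
  induction n with
  | zero => simp [sumv]
  | succ n ih => rw [pow_succ, sumv_mul, ih, succ_nsmul]

theorem mat_tr (u : Fin 3 → Additive ℂˣ) :
    ((Aff.mat (Aff.tr u) : GL (Fin 3) ℂ) : Matrix (Fin 3) (Fin 3) ℂ) =
      Matrix.diagonal (fun i => (((u i).toMul : ℂˣ) : ℂ)) := by
  ext i j
  rw [Aff.mat_apply]
  by_cases h : i = j
  · simp [h]
  · simp [h]

theorem sum0_of_det {a : Aff (Additive ℂˣ)} {A : SL3}
    (h : Aff.mat a = Matrix.SpecialLinearGroup.toGL A) : Sum0 (Aff.map phi a).v := by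
  have h6 : a ^ 6 = Aff.tr (a ^ 6).v := by
    apply eq_tr_of_s
    have : (a ^ 6).s = a.s ^ 6 := by
      have := map_pow (Aff.perm (W := Additive ℂˣ)) a 6
      simpa using this
    rw [this, perm_pow_six]
  have hA : ((Aff.mat a : GL (Fin 3) ℂ) : Matrix (Fin 3) (Fin 3) ℂ) = A.1 :=
    congrArg Units.val h
  have hd : ((Aff.mat (a ^ 6) : GL (Fin 3) ℂ) : Matrix (Fin 3) (Fin 3) ℂ).det = 1 := by
    rw [map_pow, Units.val_pow_eq_pow_val, Matrix.det_pow, hA, A.2, one_pow]
  rw [h6, mat_tr, Matrix.det_diagonal, Fin.prod_univ_three] at hd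
  have h1 : sumv (a ^ 6) = 0 := by
    apply Additive.toMul.injective
    apply Units.ext
    simpa [sumv] using hd
  rw [sumv_pow] at h1
  have h2 : phi (sumv a) = 0 := phi_torsion (by norm_num) h1
  simpa [Sum0, sumv] using h2

section W
variable {W : Type} [AddCommGroup W]

theorem nf_lift {L : List (Aff W)} (hp : L.prod = 1) (htr : Transitive (L.map Aff.s)) :
    ∃ (parts : List (List (Aff W))) (Z : List (Aff W)), HEquiv L (parts.flatten ++ Z) ∧
      (∀ C ∈ parts, RotPart (C.map Aff.s)) ∧ (∀ z ∈ Z, z.s = 1) ∧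
      ((L.map Aff.s).map ram).sum = 2 * parts.length ∧ 2 ≤ parts.length := by
  have hpτ : (L.map Aff.s).prod = 1 := by rw [← prod_s, hp]; rfl
  obtain ⟨parts, v, h1, h2, h3, h4⟩ := nf_proof _ hpτ htr
  obtain ⟨L', e, hL'⟩ := HEquiv.lift (Aff.perm (W := W)) (l := L)
    (m := parts.flatten ++ List.replicate v 1) h2
  have hL'' : L'.map Aff.s = parts.flatten ++ List.replicate v 1 := hL'
  obtain ⟨L1, Z, rfl, hL1, hZ⟩ := List.map_eq_append_iff.mp hL''
  obtain ⟨parts', rfl, hparts'⟩ := exists_parts Aff.s parts L1 hL1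
  refine ⟨parts', Z, e, ?_, ?_, ?_, ?_⟩
  · intro C hC
    apply h1
    rw [← hparts']
    exact List.mem_map_of_mem hC
  · intro z hz
    have : z.s ∈ Z.map Aff.s := List.mem_map_of_mem hz
    rw [hZ] at this
    exact List.eq_of_mem_replicate this
  · rw [h3, ← hparts']; simp
  · rw [← hparts'] at h4; simpa using h4

/-- the subgroup of elements centred at `-c` -/
def centred (c : Fin 3 → W) : Subgroup (Aff W) where
  carrier := {a | (Aff.tr c * a * (Aff.tr c)⁻¹).v = 0}
  mul_mem' := by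
    intro a b ha hb
    simp only [Set.mem_ofPred_eq] at *
    have e : Aff.tr c * (a * b) * (Aff.tr c)⁻¹ =
      (Aff.tr c * a * (Aff.tr c)⁻¹) * (Aff.tr c * b * (Aff.tr c)⁻¹) := by group
    rw [e, Aff.mul_v', ha, hb]; simp
  one_mem' := by simp [Aff.one_v']
  inv_mem' := by
    intro a ha
    simp only [Set.mem_ofPred_eq] at *
    have e : Aff.tr c * a⁻¹ * (Aff.tr c)⁻¹ = (Aff.tr c * a * (Aff.tr c)⁻¹)⁻¹ := by group
    rw [e, Aff.inv_v', ha]; simp

variable [Module ℚ W]

theorem high_genus {L : List (Aff W)} (h : FiniteOrbit L) (h0 : AllSum0 L) (hp : L.prod = 1)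
    {parts : List (List (Aff W))} {Z : List (Aff W)} (e : HEquiv L (parts.flatten ++ Z))
    (hr : ∀ C ∈ parts, RotPart (C.map Aff.s)) (hZ : ∀ z ∈ Z, z.s = 1)
    (hlen : 4 ≤ parts.length) : ∃ c : Fin 3 → W, ∀ a ∈ L, a ∈ centred c := by
  obtain ⟨hZ1, c, hc, H⟩ := genus_two mrg_proof (h.of_equiv e) (h0.of_equiv e) hr hZ hlen
    (by rw [← e.prod_eq, hp])
  refine ⟨c, ?_⟩
  have hcl : Subgroup.closure {x | x ∈ L} ≤ centred c := by
    rw [e.closure_eq, Subgroup.closure_le]
    intro a ha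
    rcases List.mem_append.mp ha with ha | ha
    · exact H a ha
    · rw [hZ1 a ha]; exact (centred c).one_mem
  intro a ha
  exact hcl (Subgroup.subset_closure ha)

theorem low_genus {L : List (Aff W)} (h0 : AllSum0 L) (hp : L.prod = 1)
    {parts : List (List (Aff W))} {Z : List (Aff W)} (e : HEquiv L (parts.flatten ++ Z))
    (hr : ∀ C ∈ parts, RotPart (C.map Aff.s)) (hZ : ∀ z ∈ Z, z.s = 1)
    (hlen : parts.length = 2) : FiniteOrbit L := by
  exact (genus_zero (h0.of_equiv e) hr hZ hlen (by rw [← e.prod_eq, hp])).of_equiv e.symm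

/-- genus one, all trivial entries are trivial -/
theorem one_trivial {L : List (Aff W)} (h : FiniteOrbit L) (h0 : AllSum0 L) (hp : L.prod = 1)
    {parts : List (List (Aff W))} {Z : List (Aff W)} (e : HEquiv L (parts.flatten ++ Z))
    (hr : ∀ C ∈ parts, RotPart (C.map Aff.s)) (hZ : ∀ z ∈ Z, z.s = 1)
    (hlen : parts.length = 3) : ∀ z ∈ Z, z = 1 := by
  obtain ⟨C1, C2, C3, rfl⟩ := List.length_eq_three.mp hlen
  have hF := merge_parts mrg_proof (h.of_equiv e)
  have hS := merge_sum0 (h0.of_equiv e)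
  have hP : ([C1, C2, C3].map List.prod ++ Z).prod = 1 := by
    have := e.prod_eq
    rw [hp] at this
    rw [List.prod_append] at this ⊢
    rw [List.prod_flatten] at this
    exact this.symm
  have r1 := rotPart_prod (hr C1 (by simp))
  have r2 := rotPart_prod (hr C2 (by simp))
  have r3 := rotPart_prod (hr C3 (by simp))
  have hZs : Z.prod.s = 1 := by
    rw [prod_s]
    apply List.prod_eq_one
    intro x hx
    obtain ⟨y, hy, rfl⟩ := List.mem_map.mp hx
    exact hZ y hy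
  have h3 : C1.prod.s * C2.prod.s * C3.prod.s = 1 := by
    have := congrArg Aff.s hP
    simpa [hZs, mul_assoc] using this
  obtain ⟨e2, e3⟩ := pr8 r1 r2 r3 h3
  exact tri mrg_proof (by simpa using hF) (by simpa using hS) hZ r1 e2 e3 (by simpa using hP)

end W

end Pool.Agent.MCF
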