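import Pool.Agent.MCF.Final

namespace Pool.Agent.MCF

open Equiv

section W
variable {W : Type} [AddCommGroup W]

theorem rotate_parts {P Q : List (List (Aff W))} {C : List (Aff W)} {Z : List (Aff W)}
    (hZ1 : ∀ z ∈ Z, z = 1) (hp : ((P ++ C :: Q).flatten ++ Z).prod = 1) :
    HEquiv ((P ++ C :: Q).flatten ++ Z) ((C :: (Q ++ P)).flatten ++ Z) := by
  have r1 := HEquiv.rotate (X := P.flatten) (Y := (C :: Q).flatten ++ Z) (by
    simpa [List.append_assoc] using hp)
  have r2 := (HEquiv.swapL Z P.flatten).app_left ((C :: Q).flatten)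
  have hZp : Z.prod = 1 := List.prod_eq_one hZ1
  rw [hZp, conjL_one] at r2
  refine (by simpa [List.append_assoc] using r1 : HEquiv ((P ++ C :: Q).flatten ++ Z)
    ((C :: Q).flatten ++ (Z ++ P.flatten))).trans ?_
  simpa [List.append_assoc] using r2

variable [Module ℚ W]

theorem genus_one_all {L : List (Aff W)} (h : FiniteOrbit L) (h0 : AllSum0 L) (hp : L.prod = 1)
    {parts : List (List (Aff W))} {Z : List (Aff W)} (e : HEquiv L (parts.flatten ++ Z))
    (hr : ∀ C ∈ parts, RotPart (C.map Aff.s)) (hZ : ∀ z ∈ Z, z.s = 1)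
    (hlen : parts.length = 3) (hrefl : ∃ a ∈ L, IsRefl a.s) :
    ∃ (g : Aff W) (a : W) (k n : ℕ), 1 ≤ k ∧ k ≤ 3 ∧
      HEquiv (conjL g L) (stdList a k ++ List.replicate n 1) := by
  have hZ1 := one_trivial h h0 hp e hr hZ hlen
  have hZr : Z = List.replicate Z.length 1 := by
    rw [List.eq_replicate_iff]; exact ⟨rfl, hZ1⟩
  -- a reflection in a part
  obtain ⟨a, haL, ha⟩ := hrefl
  obtain ⟨b, hb, g, hg⟩ := mem_conj_of_equiv e.symm a haL
  have hbr : IsRefl b.s := by
    have : b = g⁻¹ * a * g⁻¹⁻¹ := by rw [hg]; group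
    rw [this]
    simpa using ha.conj g⁻¹.s
  have hbP : b ∈ parts.flatten := by
    rcases List.mem_append.mp hb with hb | hb
    · exact hb
    · have := hZ b hb
      rw [this] at hbr
      exact absurd rfl hbr.1
  obtain ⟨C, hC, hbC⟩ := List.mem_flatten.mp hbP
  obtain ⟨P, Q, hPQ⟩ := List.append_of_mem hC
  have hCR := hr C hC
  obtain ⟨x, y, rfl, hx, hy, hne⟩ : ∃ x y, C = [x, y] ∧ IsRefl x.s ∧ IsRefl y.s ∧
      x.s ≠ y.s := by
    rcases rotPart_cases hCR with ⟨c, rfl, hc⟩ | h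
    · simp only [List.mem_singleton] at hbC
      subst hbC
      exact absurd hbr hc.not_refl
    · exact h
  have hp' : (parts.flatten ++ Z).prod = 1 := by rw [← e.prod_eq, hp]
  have e2 := rotate_parts (P := P) (Q := Q) (C := [x, y]) hZ1 (by rw [← hPQ]; exact hp')
  rw [← hPQ] at e2
  have hlenQP : (Q ++ P).length = 2 := by
    rw [hPQ] at hlen; simp at hlen; simp; omega
  obtain ⟨D, E, hDE⟩ := List.length_eq_two.mp hlenQP
  rw [hDE] at e2
  have e3 : HEquiv L ([x, y] ++ D ++ E ++ List.replicate Z.length 1) := by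
    have := e.trans e2
    rw [← hZr]
    simpa [List.append_assoc] using this
  have hD : RotPart (D.map Aff.s) := by
    apply hr; rw [hPQ]
    have : D ∈ Q ++ P := by rw [hDE]; simp
    simp only [List.mem_append, List.mem_cons] at this ⊢
    tauto
  have hE : RotPart (E.map Aff.s) := by
    apply hr; rw [hPQ]
    have : E ∈ Q ++ P := by rw [hDE]; simp
    simp only [List.mem_append, List.mem_cons] at this ⊢
    tauto
  have hpe : ([x, y] ++ D ++ E ++ List.replicate Z.length 1).prod = 1 := by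
    rw [← e3.prod_eq, hp]
  have rot1 : IsRot (x.s * y.s) := hx.mul_isRot hy hne
  have rot2 := rotPart_prod hD
  have rot3 := rotPart_prod hE
  have h3 : (x.s * y.s) * D.prod.s * E.prod.s = 1 := by
    have := congrArg Aff.s hpe
    simpa [mul_assoc] using this
  obtain ⟨d2, d3⟩ := pr8 rot1 rot2 rot3 h3
  obtain ⟨g', a', k, hk1, hk3, H⟩ := genus_one_aux (h.of_equiv e3) (h0.of_equiv e3) hCR hD hE
    hpe d2 d3
  exact ⟨g', a', k, Z.length, hk1, hk3, (e3.conj g').trans H⟩

/-- genus one, cyclic: sufficiency -/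
theorem genus_one_cyclic {L : List (Aff W)} (hp : L.prod = 1)
    {parts : List (List (Aff W))} {Z : List (Aff W)} (e : HEquiv L (parts.flatten ++ Z))
    (hr : ∀ C ∈ parts, RotPart (C.map Aff.s)) (hZ1 : ∀ z ∈ Z, z = 1)
    (hlen : parts.length = 3) (hrefl : ∀ a ∈ L, ¬ IsRefl a.s) : FiniteOrbit L := by
  have hZr : Z = List.replicate Z.length 1 := by
    rw [List.eq_replicate_iff]; exact ⟨rfl, hZ1⟩
  have hnr : ∀ b ∈ parts.flatten ++ Z, ¬ IsRefl b.s := by
    intro b hb hbr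
    obtain ⟨a, ha, g, rfl⟩ := mem_conj_of_equiv e b hb
    apply hrefl a ha
    have := hbr.conj g⁻¹.s
    simpa [mul_assoc] using this
  have hsingle : ∀ C ∈ parts, ∃ c, C = [c] := by
    intro C hC
    rcases rotPart_cases (hr C hC) with ⟨c, rfl, _⟩ | ⟨x, y, rfl, hx, _⟩
    · exact ⟨c, rfl⟩
    · exact absurd hx (hnr x (by
        simp only [List.mem_append, List.mem_flatten]
        exact Or.inl ⟨_, hC, by simp⟩))
  obtain ⟨C1, C2, C3, rfl⟩ := List.length_eq_three.mp hlen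
  obtain ⟨a, rfl⟩ := hsingle C1 (by simp)
  obtain ⟨b, rfl⟩ := hsingle C2 (by simp)
  obtain ⟨c, rfl⟩ := hsingle C3 (by simp)
  have e' : HEquiv L ([a, b, c] ++ List.replicate Z.length 1) := by
    rw [← hZr]; simpa using e
  have habc : a * b * c = 1 := by
    have := e'.prod_eq
    rw [hp] at this
    simpa [mul_assoc] using this.symm
  exact (insert_ones (triple_finite habc) _).of_equiv e'.symm

end W

/-! ### The model tuples -/

/-- `X_z`: a monomial matrix of shape `(0 1)` -/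
noncomputable def modelX (z : ℂˣ) : Matrix (Fin 3) (Fin 3) ℂ :=
  !![0, 1, 0; (z : ℂ), 0, 0; 0, 0, (z : ℂ)⁻¹]
/-- `Y_z = X_z⁻¹ R` -/
noncomputable def modelY (z : ℂˣ) : Matrix (Fin 3) (Fin 3) ℂ :=
  !![(z : ℂ)⁻¹, 0, 0; 0, 0, 1; 0, (z : ℂ), 0]
/-- the cyclic permutation matrix -/
def modelR : Matrix (Fin 3) (Fin 3) ℂ := !![0, 0, 1; 1, 0, 0; 0, 1, 0]

/-- the model tuple `(X, Y, …, X, Y, R, …, R, 1, …, 1)` with `k` pairs, `3 - k` matrices `R` and
`n` identity matrices -/
noncomputable def modelTuple (z : ℂˣ) (k n : ℕ) : List (Matrix (Fin 3) (Fin 3) ℂ) :=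
  (List.replicate k [modelX z, modelY z]).flatten ++ List.replicate (3 - k) modelR ++
    List.replicate n 1

/-- Two matrices agree entrywise up to roots of unity. -/
def EqModRoots (A B : Matrix (Fin 3) (Fin 3) ℂ) : Prop :=
  ∀ i j, ∃ ζ : ℂ, (∃ m : ℕ, 0 < m ∧ ζ ^ m = 1) ∧ A i j = ζ * B i j

theorem mat_stdX (z : ℂˣ) :
    ((Aff.mat (stdX (Additive.ofMul z)) : GL (Fin 3) ℂ) : Matrix (Fin 3) (Fin 3) ℂ) =
      modelX z := by
  ext i j
  rw [Aff.mat_apply]
  fin_cases i <;> fin_cases j <;> simp [stdX, modelX, Equiv.swap_apply_def]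

theorem mat_stdR :
    ((Aff.mat stdR : GL (Fin 3) ℂ) : Matrix (Fin 3) (Fin 3) ℂ) = modelR := by
  have e0 : finRotate 3 (0 : Fin 3) = 1 := by decide
  have e1 : finRotate 3 (1 : Fin 3) = 2 := by decide
  have e2 : finRotate 3 (2 : Fin 3) = 0 := by decide
  ext i j
  rw [Aff.mat_apply]
  fin_cases i <;> fin_cases j <;> simp [stdR, modelR, e0, e1, e2]

theorem mat_stdY (z : ℂˣ) :
    ((Aff.mat ((stdX (Additive.ofMul z))⁻¹ * stdR) : GL (Fin 3) ℂ) :
      Matrix (Fin 3) (Fin 3) ℂ) = modelY z := by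
  have h : (stdX (Additive.ofMul z) : Aff (Additive ℂˣ))⁻¹ * stdR =
      ⟨![-(Additive.ofMul z), 0, Additive.ofMul z], swap 1 2⟩ := by
    apply Aff.ext'
    · ext i
      fin_cases i <;> simp [stdX, stdR, Equiv.swap_apply_def]
    · simp only [stdX, stdR, Aff.mul_s, Aff.inv_s]
      decide
  rw [h]
  ext i j
  rw [Aff.mat_apply]
  fin_cases i <;> fin_cases j <;> simp [modelY, Equiv.swap_apply_def]

end Pool.Agent.MCF
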