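import Pool.Agent.MCF.Stmts

namespace Pool.Agent.MCF

open Matrix

theorem slg_scale (h : GL (Fin 3) ℂ) : ∃ k : Matrix.SpecialLinearGroup (Fin 3) ℂ,
    ∀ x : GL (Fin 3) ℂ, (Matrix.SpecialLinearGroup.toGL k) * x * (Matrix.SpecialLinearGroup.toGL k)⁻¹
      = h * x * h⁻¹ := by
  have hd : (h : Matrix (Fin 3) (Fin 3) ℂ).det ≠ 0 := by
    have := h.isUnit
    rw [Matrix.isUnit_iff_isUnit_det] at this
    exact this.ne_zero
  obtain ⟨c, hc⟩ := IsAlgClosed.exists_pow_nat_eq ((h : Matrix (Fin 3) (Fin 3) ℂ).det)⁻¹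
    (n := 3) (by norm_num)
  have hc0 : c ≠ 0 := by
    rintro rfl
    rw [zero_pow (by norm_num)] at hc
    exact inv_ne_zero hd hc.symm
  set k : Matrix.SpecialLinearGroup (Fin 3) ℂ := ⟨c • (h : Matrix (Fin 3) (Fin 3) ℂ), by
    rw [Matrix.det_smul, Fintype.card_fin, hc]
    exact inv_mul_cancel₀ hd⟩ with hk
  let u : GL (Fin 3) ℂ := Units.map (Matrix.scalar (Fin 3)).toMonoidHom (Units.mk0 c hc0)
  have hu : (u : Matrix (Fin 3) (Fin 3) ℂ) = c • (1 : Matrix (Fin 3) (Fin 3) ℂ) := by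
    show Matrix.scalar (Fin 3) c = _
    rw [Matrix.scalar_apply, Matrix.smul_one_eq_diagonal]
  have hku : Matrix.SpecialLinearGroup.toGL k = u * h := by
    apply Units.ext
    show c • (h : Matrix (Fin 3) (Fin 3) ℂ) = (u : Matrix (Fin 3) (Fin 3) ℂ) * h
    rw [hu]; simp
  have hcen : ∀ x : GL (Fin 3) ℂ, u * x = x * u := by
    intro x
    apply Units.ext
    show (u : Matrix (Fin 3) (Fin 3) ℂ) * x = x * (u : Matrix (Fin 3) (Fin 3) ℂ)
    rw [hu]; simp
  refine ⟨k, fun x => ?_⟩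
  rw [hku, _root_.mul_inv_rev]
  calc u * h * x * (h⁻¹ * u⁻¹) = (u * (h * x * h⁻¹)) * u⁻¹ := by group
    _ = h * x * h⁻¹ := by rw [hcen]; group

theorem slg_proof : Stmt_SLG := by
  intro l hl
  classical
  obtain ⟨S, hS, HS⟩ := hl
  let P : List (GL (Fin 3) ℂ) → List (Matrix.SpecialLinearGroup (Fin 3) ℂ) → Prop := fun s m =>
    HEquiv l m ∧ ∃ g : GL (Fin 3) ℂ, m.map Matrix.SpecialLinearGroup.toGL = conjL g s
  let F : List (GL (Fin 3) ℂ) → List (Matrix.SpecialLinearGroup (Fin 3) ℂ) := fun s =>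
    if h : ∃ m, P s m then h.choose else []
  refine ⟨F '' S, hS.image F, fun l' hl' => ?_⟩
  obtain ⟨s, hs, g, hg⟩ := HS _ (hl'.map Matrix.SpecialLinearGroup.toGL)
  have hex : ∃ m, P s m := ⟨l', hl', g, hg⟩
  have hF : P s (F s) := by
    have : F s = hex.choose := dif_pos hex
    rw [this]
    exact hex.choose_spec
  obtain ⟨-, g', hg'⟩ := hF
  obtain ⟨k, hk⟩ := slg_scale (g * g'⁻¹)
  refine ⟨F s, ⟨s, hs, rfl⟩, k, ?_⟩
  have hinj : Function.Injective
      (Matrix.SpecialLinearGroup.toGL : Matrix.SpecialLinearGroup (Fin 3) ℂ → GL (Fin 3) ℂ) := by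
    intro a b hab
    apply Subtype.ext
    have := congrArg (fun x : GL (Fin 3) ℂ => (x : Matrix (Fin 3) (Fin 3) ℂ)) hab
    exact this
  apply List.map_injective_iff.2 hinj
  show l'.map Matrix.SpecialLinearGroup.toGL = (conjL k (F s)).map Matrix.SpecialLinearGroup.toGL
  rw [conjL_map]
  have e : conjL (Matrix.SpecialLinearGroup.toGL k) ((F s).map Matrix.SpecialLinearGroup.toGL)
      = conjL (g * g'⁻¹) ((F s).map Matrix.SpecialLinearGroup.toGL) := by
    apply List.map_congr_left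
    intro x _
    exact hk x
  rw [e, hg', ← conjL_mul, hg]
  congr 1
  group

end Pool.Agent.MCF
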