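import Pool.Agent.MCF.Stmts

/-!
# MP_4bc213_ag: module TOR
-/

namespace Pool.Agent.MCF

namespace TORAux

variable {G H : Type*} [Group G] [Group H]

theorem step_map {l l' : List G} (h : HStep l l') (f : G →* H) :
    HStep (l.map f) (l'.map f) := by
  obtain ⟨p, a, b, q⟩ := h
  have := HStep.mk (p.map f) (f a) (f b) (q.map f)
  simpa using this

theorem step_conj {l l' : List G} (h : HStep l l') (g : G) :
    HStep (conjL g l) (conjL g l') := by
  obtain ⟨p, a, b, q⟩ := h
  have := HStep.mk (conjL g p) (g * a * g⁻¹) (g * b * g⁻¹) (conjL g q)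
  have e : (g * b * g⁻¹)⁻¹ * (g * a * g⁻¹) * (g * b * g⁻¹) = g * (b⁻¹ * a * b) * g⁻¹ := by
    group
  rw [e] at this
  simpa using this

theorem step_equiv {l l' : List G} (h : HStep l l') : HEquiv l l' := Relation.EqvGen.rel _ _ h

theorem liftR (f : G →* H) {x y : List H} (h : HStep x y) {m : List G} (hm : m.map f = x) :
    ∃ m2, HStep m m2 ∧ m2.map f = y := by
  obtain ⟨p, a, b, q⟩ := h
  obtain ⟨p', l₂, rfl, hp, hl₂⟩ := List.map_eq_append_iff.mp hm
  obtain ⟨a', l₃, rfl, ha, hl₃⟩ := List.map_eq_cons_iff.mp hl₂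
  obtain ⟨b', q', rfl, hb, hq⟩ := List.map_eq_cons_iff.mp hl₃
  exact ⟨_, HStep.mk p' a' b' q', by simp [hp, ha, hb, hq]⟩

theorem liftL (f : G →* H) {x y : List H} (h : HStep x y) {m : List G} (hm : m.map f = y) :
    ∃ m2, HStep m2 m ∧ m2.map f = x := by
  obtain ⟨p, a, b, q⟩ := h
  obtain ⟨p', l₂, rfl, hp, hl₂⟩ := List.map_eq_append_iff.mp hm
  obtain ⟨b', l₃, rfl, hb, hl₃⟩ := List.map_eq_cons_iff.mp hl₂
  obtain ⟨c', q', rfl, hc, hq⟩ := List.map_eq_cons_iff.mp hl₃
  have := HStep.mk p' (b' * c' * b'⁻¹) b' q'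
  have e : b'⁻¹ * (b' * c' * b'⁻¹) * b' = c' := by group
  rw [e] at this
  refine ⟨_, this, ?_⟩
  simp only [List.map_append, List.map_cons, map_mul, map_inv, hp, hb, hq, hc]
  congr 2
  group

/-- forward move at the head -/
def fwd : List G → List G
  | a :: b :: q => b :: (b⁻¹ * a * b) :: q
  | r => r

/-- backward move at the head -/
def bwd : List G → List G
  | b :: c :: q => (b * c * b⁻¹) :: b :: q
  | r => r

theorem finite_steps (u : List G) : {y | HStep u y ∨ HStep y u}.Finite := by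
  apply Set.Finite.subset
    (((Set.finite_Iic u.length).image (fun i => u.take i ++ fwd (u.drop i))).union
      ((Set.finite_Iic u.length).image (fun i => u.take i ++ bwd (u.drop i))))
  rintro y (h | h)
  · left
    obtain ⟨p, a, b, q⟩ := h
    exact ⟨p.length, by simp, by simp [fwd]⟩
  · right
    obtain ⟨p, a, b, q⟩ := h
    refine ⟨p.length, by simp, ?_⟩
    have e : b * (b⁻¹ * a * b) * b⁻¹ = a := by group
    simp [bwd, e]

theorem common {X : Type*} (S : Set X) (hS : S.Finite) (P : X → ℕ → Prop)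
    (mono : ∀ x n k, 0 < k → P x n → P x (n * k)) (ex : ∀ x ∈ S, ∃ n, 0 < n ∧ P x n) :
    ∃ N, 0 < N ∧ ∀ x ∈ S, P x N := by
  revert ex
  refine Set.Finite.induction_on (motive := fun S _ => (∀ x ∈ S, ∃ n, 0 < n ∧ P x n) →
    ∃ N, 0 < N ∧ ∀ x ∈ S, P x N) S hS ?_ ?_
  · intro _
    exact ⟨1, one_pos, fun x hx => absurd hx (Set.notMem_empty x)⟩
  · intro a s _ _ ih ex
    obtain ⟨N, hN, h⟩ := ih (fun x hx => ex x (Set.mem_insert_of_mem _ hx))
    obtain ⟨n, hn, hp⟩ := ex a (Set.mem_insert _ _)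
    refine ⟨N * n, Nat.mul_pos hN hn, ?_⟩
    intro x hx
    rcases Set.mem_insert_iff.1 hx with rfl | hx
    · rw [Nat.mul_comm]
      exact mono _ _ _ hN hp
    · exact mono _ _ _ hn (h x hx)

theorem finite_map_fiber {X Y : Type*} (f : X → Y) (hf : ∀ c, {a | f a = c}.Finite) (u : List Y) :
    {x : List X | x.map f = u}.Finite := by
  induction u with
  | nil =>
    apply Set.Finite.subset (Set.finite_singleton [])
    intro x hx
    simpa using hx
  | cons c u ih =>
    apply Set.Finite.subset (Set.Finite.image2 List.cons (hf c) ih)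
    intro x hx
    obtain ⟨a, x', rfl, ha, hx'⟩ := List.map_eq_cons_iff.mp (show x.map f = c :: u from hx)
    exact ⟨a, ha, x', hx', rfl⟩

section aff

variable {A W : Type} [AddCommGroup A] [AddCommGroup W]

/-- multiplication of the translation part by `n` -/
def mulN (A : Type) [AddCommGroup A] (n : ℕ) : Aff A →* Aff A := Aff.map (nsmulAddMonoidHom n)

theorem mulN_v (n : ℕ) (a : Aff A) (i : Fin 3) : (mulN A n a).v i = n • a.v i := rfl

theorem mulN_s (n : ℕ) (a : Aff A) : (mulN A n a).s = a.s := rfl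

theorem mulN_mul (n k : ℕ) (a : Aff A) : mulN A (n * k) a = mulN A k (mulN A n a) := by
  apply Aff.ext
  · funext i
    rw [mulN_v, mulN_v, mulN_v, mul_comm, mul_smul]
  · rfl

/-- congruence of tuples modulo `N`-torsion -/
def Cong (n : ℕ) (x y : List (Aff A)) : Prop := x.map (mulN A n) = y.map (mulN A n)

theorem Cong.mono {n k : ℕ} {x y : List (Aff A)} (h : Cong n x y) : Cong (n * k) x y := by
  have e : ∀ z : List (Aff A), z.map (mulN A (n * k)) = (z.map (mulN A n)).map (mulN A k) := by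
    intro z
    rw [List.map_map]
    apply List.map_congr_left
    intro a _
    exact mulN_mul n k a
  unfold Cong
  rw [e, e, h]

theorem Cong.conj {n : ℕ} {x y : List (Aff A)} (h : Cong n x y) (g : Aff A) :
    Cong n (conjL g x) (conjL g y) := by
  unfold Cong
  rw [conjL_map, conjL_map, h]

theorem exists_cong_elt (φ : A →+ W) (tor : ∀ a, φ a = 0 → ∃ n : ℕ, 0 < n ∧ n • a = 0)
    (a b : Aff A) (h : Aff.map φ a = Aff.map φ b) :
    ∃ n : ℕ, 0 < n ∧ mulN A n a = mulN A n b := by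
  have hv : ∀ i, φ (a.v i - b.v i) = 0 := by
    intro i
    have := congrArg (fun c : Aff W => c.v i) h
    simp only [Aff.map_v] at this
    rw [map_sub, this, sub_self]
  have hs : a.s = b.s := by
    have := congrArg (fun c : Aff W => c.s) h
    simpa using this
  choose n hn hz using fun i => tor _ (hv i)
  refine ⟨n 0 * n 1 * n 2, Nat.mul_pos (Nat.mul_pos (hn 0) (hn 1)) (hn 2), ?_⟩
  apply Aff.ext
  · funext i
    rw [mulN_v, mulN_v, ← sub_eq_zero, ← smul_sub]
    have hd : n i ∣ n 0 * n 1 * n 2 := by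
      fin_cases i
      · exact ⟨n 1 * n 2, by simp [mul_assoc]⟩
      · exact ⟨n 0 * n 2, by simp; ring⟩
      · exact ⟨n 0 * n 1, by simp; ring⟩
    obtain ⟨k, hk⟩ := hd
    rw [hk, mul_comm, mul_smul, hz i, smul_zero]
  · exact hs

theorem exists_cong (φ : A →+ W) (tor : ∀ a, φ a = 0 → ∃ n : ℕ, 0 < n ∧ n • a = 0)
    (x y : List (Aff A)) (h : x.map (Aff.map φ) = y.map (Aff.map φ)) :
    ∃ n : ℕ, 0 < n ∧ Cong n x y := by
  induction x generalizing y with
  | nil =>
    have : y = [] := by simpa using h.symm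
    subst this
    exact ⟨1, one_pos, rfl⟩
  | cons a x ih =>
    obtain ⟨b, y', rfl, hb, hy⟩ := List.map_eq_cons_iff.mp
      (show y.map (Aff.map φ) = Aff.map φ a :: x.map (Aff.map φ) from h.symm)
    obtain ⟨n, hn, h1⟩ := exists_cong_elt φ tor a b hb.symm
    obtain ⟨m, hm, h2⟩ := ih y' hy.symm
    refine ⟨n * m, Nat.mul_pos hn hm, ?_⟩
    have h3 : Cong (m * n) x y' := h2.mono
    rw [mul_comm m n] at h3
    unfold Cong at h3 ⊢
    rw [List.map_cons, List.map_cons, h3, mulN_mul, mulN_mul, h1]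

theorem finite_fiber (fin : ∀ n : ℕ, 0 < n → {a : A | n • a = 0}.Finite) (n : ℕ) (hn : 0 < n)
    (c : Aff A) : {a | mulN A n a = c}.Finite := by
  have h1 : ∀ d : A, {x : A | n • x = d}.Finite := by
    intro d
    by_cases hd : ∃ x0 : A, n • x0 = d
    · obtain ⟨x0, hx0⟩ := hd
      apply Set.Finite.subset ((fin n hn).image (fun a => x0 + a))
      intro x hx
      refine ⟨x - x0, ?_, by simp⟩
      show n • (x - x0) = 0
      rw [smul_sub, hx0, show n • x = d from hx, sub_self]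
    · apply Set.Finite.subset Set.finite_empty
      intro x hx
      exact absurd ⟨x, hx⟩ hd
  have h2 : (Set.pi Set.univ (fun i : Fin 3 => {x : A | n • x = c.v i})).Finite :=
    Set.Finite.pi (fun i => h1 (c.v i))
  apply Set.Finite.subset (h2.image (fun v => (⟨v, c.s⟩ : Aff A)))
  rintro a rfl
  refine ⟨a.v, ?_, ?_⟩
  · intro i _
    rfl
  · rfl

end aff

end TORAux

open TORAux in
theorem tor_proof : Stmt_TOR := by
  intro A W _ _ φ hφ tor fin l hfo
  obtain ⟨S, hS, HS⟩ := hfo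
  have hFs : Function.Surjective (Aff.map φ) := by
    intro c
    choose v hv using fun i => hφ (c.v i)
    refine ⟨⟨v, c.s⟩, ?_⟩
    apply Aff.ext
    · funext i
      exact hv i
    · rfl
  have hLs : ∀ s : List (Aff W), ∃ t : List (Aff A), t.map (Aff.map φ) = s := by
    intro s
    induction s with
    | nil => exact ⟨[], rfl⟩
    | cons c s ih =>
      obtain ⟨t, ht⟩ := ih
      obtain ⟨a, ha⟩ := hFs c
      exact ⟨a :: t, by rw [List.map_cons, ha, ht]⟩
  choose L hL using hLs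
  -- occurring representatives
  let Occ : List (Aff W) → Prop := fun s => s ∈ S ∧ ∃ g, HEquiv (l.map (Aff.map φ)) (conjL g s)
  let GoodT : List (Aff A) → Prop := fun y =>
    ∃ g, HEquiv (l.map (Aff.map φ)) (conjL g (y.map (Aff.map φ)))
  let Q : ℕ → List (Aff A) → Prop := fun n y => ∃ s, Occ s ∧ ∃ g, Cong n y (conjL g (L s))
  have hgood : ∀ y, GoodT y → ∃ n, 0 < n ∧ Q n y := by
    rintro y ⟨g, hg⟩
    obtain ⟨s, hs, g', hg'⟩ := HS _ hg
    have hocc : Occ s := ⟨hs, g', hg' ▸ hg⟩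
    have h1 : y.map (Aff.map φ) = conjL (g⁻¹ * g') s := by
      rw [conjL_mul, ← hg', conjL_inv_conjL]
    obtain ⟨h', hh'⟩ := hFs (g⁻¹ * g')
    have h2 : y.map (Aff.map φ) = (conjL h' (L s)).map (Aff.map φ) := by
      rw [conjL_map, hL s, hh', h1]
    obtain ⟨n, hn, hc⟩ := exists_cong φ tor _ _ h2
    exact ⟨n, hn, s, hocc, h', hc⟩
  -- the finite set of tuples to be considered
  let X : Set (List (Aff A)) := {l} ∪ ⋃ s ∈ S, {y | HStep (L s) y ∨ HStep y (L s)}
  have hX : X.Finite :=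
    (Set.finite_singleton l).union (hS.biUnion (fun s _ => finite_steps (L s)))
  obtain ⟨N, hN, hNX⟩ := common X hX (fun y n => GoodT y → Q n y)
    (by
      intro y n k _ h hy
      obtain ⟨s, hs, g, hc⟩ := h hy
      exact ⟨s, hs, g, hc.mono⟩)
    (by
      intro y _
      by_cases hy : GoodT y
      · obtain ⟨n, hn, h⟩ := hgood y hy
        exact ⟨n, hn, fun _ => h⟩
      · exact ⟨1, one_pos, fun h => absurd h hy⟩)
  have hl : Q N l := hNX l (Or.inl rfl) ⟨1, by rw [conjL_one]; exact HEquiv.refl _⟩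
  have hyQ : ∀ s, Occ s → ∀ y, (HStep (L s) y ∨ HStep y (L s)) → Q N y := by
    intro s hs y hy
    apply hNX y
    · right
      exact Set.mem_biUnion hs.1 hy
    · obtain ⟨_, g, hg⟩ := hs
      refine ⟨g, hg.trans ?_⟩
      rw [← hL s]
      rcases hy with hy | hy
      · exact (step_equiv (step_map hy (Aff.map φ))).conj g
      · exact ((step_equiv (step_map hy (Aff.map φ))).conj g).symm
  have key : ∀ g s y m, Occ s → (HStep (L s) y ∨ HStep y (L s)) → Cong N m (conjL g y) → Q N m := by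
    intro g s y m hs hy hc
    obtain ⟨s', hs', h, hc'⟩ := hyQ s hs y hy
    refine ⟨s', hs', g * h, ?_⟩
    rw [conjL_mul]
    exact hc.trans (hc'.conj g)
  have hstep : ∀ l1 l2, HStep l1 l2 → (Q N l1 ↔ Q N l2) := by
    intro l1 l2 h12
    constructor
    · rintro ⟨s, hs, g, hc⟩
      obtain ⟨m2, hm2, hm2'⟩ := liftR (mulN A N) (step_map h12 (mulN A N)) hc.symm
      have h3 := step_conj hm2 g⁻¹
      rw [conjL_inv_conjL] at h3
      apply key g s (conjL g⁻¹ m2) l2 hs (Or.inl h3)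
      rw [conjL_conjL_inv]
      exact hm2'.symm
    · rintro ⟨s, hs, g, hc⟩
      obtain ⟨m2, hm2, hm2'⟩ := liftL (mulN A N) (step_map h12 (mulN A N)) hc.symm
      have h3 := step_conj hm2 g⁻¹
      rw [conjL_inv_conjL] at h3
      apply key g s (conjL g⁻¹ m2) l1 hs (Or.inr h3)
      rw [conjL_conjL_inv]
      exact hm2'.symm
  refine ⟨⋃ s ∈ S, {x | x.map (mulN A N) = (L s).map (mulN A N)},
    hS.biUnion (fun s _ => finite_map_fiber _ (finite_fiber fin N hN) _), ?_⟩
  intro l' hl'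
  have hQ : Q N l ↔ Q N l' := HEquiv.induct (P := fun a b => Q N a ↔ Q N b) hstep
    (fun _ => Iff.rfl) (fun _ _ h => h.symm) (fun _ _ _ h h' => h.trans h') hl'
  obtain ⟨s, hs, g, hc⟩ := hQ.1 hl
  refine ⟨conjL g⁻¹ l', ?_, g, by rw [conjL_conjL_inv]⟩
  apply Set.mem_biUnion hs.1
  have := Cong.conj hc g⁻¹
  rw [conjL_inv_conjL] at this
  exact this

end Pool.Agent.MCF
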