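import Pool.Agent.MCF.Rig
import Pool.Agent.MCF.SLG
import Pool.Agent.MCF.TOR

namespace Pool.Agent.MCF

open Equiv TensorProduct

/-- the coefficient space: `ℂˣ` modulo torsion, as a rational vector space -/
abbrev WW : Type := ℚ ⊗[ℤ] (Additive ℂˣ)

/-- the reduction modulo torsion -/
noncomputable def phi : Additive ℂˣ →+ WW := (TensorProduct.mk ℤ ℚ (Additive ℂˣ) 1).toAddMonoidHom

theorem phi_apply (x : Additive ℂˣ) : phi x = (1 : ℚ) ⊗ₜ[ℤ] x := rfl

theorem phi_ker (x : Additive ℂˣ) (h : phi x = 0) : ∃ n : ℕ, 0 < n ∧ n • x = 0 := by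
  have h1 : (TensorProduct.mk ℤ ℚ (Additive ℂˣ) 1) x = 0 := h
  obtain ⟨c, hc⟩ := (IsLocalizedModule.eq_zero_iff (nonZeroDivisors ℤ)
    (TensorProduct.mk ℤ ℚ (Additive ℂˣ) 1)).mp h1
  have hc0 : (c : ℤ) ≠ 0 := nonZeroDivisors.ne_zero c.2
  refine ⟨(c : ℤ).natAbs, Int.natAbs_pos.mpr hc0, ?_⟩
  have h2 : (c : ℤ) • x = 0 := hc
  rcases Int.natAbs_eq (c : ℤ) with h3 | h3
  · rw [h3] at h2
    simpa using h2
  · rw [h3] at h2
    simpa using h2

theorem phi_torsion {x : Additive ℂˣ} {n : ℕ} (hn : 0 < n) (h : n • x = 0) : phi x = 0 := by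
  have : n • phi x = 0 := by rw [← map_nsmul, h, map_zero]
  exact torsfree hn this

theorem divisible (x : Additive ℂˣ) {n : ℕ} (hn : 0 < n) : ∃ y : Additive ℂˣ, n • y = x := by
  obtain ⟨z, hz⟩ := IsAlgClosed.exists_pow_nat_eq ((x.toMul : ℂˣ) : ℂ) hn
  have hz0 : z ≠ 0 := by
    rintro rfl
    rw [zero_pow hn.ne'] at hz
    exact (Units.ne_zero _) hz.symm
  refine ⟨Additive.ofMul (Units.mk0 z hz0), ?_⟩
  apply Additive.toMul.injective
  apply Units.ext
  simp [hz]

theorem phi_surj : Function.Surjective phi := by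
  intro w
  induction w using TensorProduct.induction_on with
  | zero => exact ⟨0, map_zero _⟩
  | add a b ha hb =>
    obtain ⟨x, rfl⟩ := ha
    obtain ⟨y, rfl⟩ := hb
    exact ⟨x + y, map_add _ _ _⟩
  | tmul q x =>
    obtain ⟨y, hy⟩ := divisible x q.den_pos
    refine ⟨q.num • y, ?_⟩
    rw [map_zsmul, phi_apply, ← hy]
    have e2 : q ⊗ₜ[ℤ] (q.den • y) = q.den • (q ⊗ₜ[ℤ] y) := TensorProduct.tmul_smul _ _ _
    rw [e2, smul_tmul', smul_tmul']
    congr 1
    have h2 : (q : ℚ) * q.den = q.num := Rat.mul_den_eq_num q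
    rw [nsmul_eq_mul, mul_comm, h2]
    simp

theorem torsion_finite (n : ℕ) (hn : 0 < n) : {a : Additive ℂˣ | n • a = 0}.Finite := by
  have h : {z : ℂ | z ^ n = 1}.Finite := by
    have : NeZero n := ⟨hn.ne'⟩
    have := (Polynomial.nthRootsFinset n (1 : ℂ)).finite_toSet
    refine this.subset ?_
    intro z hz
    simp only [Finset.mem_coe]
    rw [Polynomial.mem_nthRootsFinset hn]
    exact hz
  have hinj : Function.Injective (fun a : Additive ℂˣ => ((a.toMul : ℂˣ) : ℂ)) := by
    intro a b hab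
    exact Additive.toMul.injective (Units.ext hab)
  refine Set.Finite.of_finite_image (f := fun a : Additive ℂˣ => ((a.toMul : ℂˣ) : ℂ))
    (h.subset ?_) hinj.injOn
  rintro _ ⟨a, ha, rfl⟩
  have : (n • a).toMul = 1 := by
    have h1 : n • a = 0 := ha
    rw [h1]; rfl
  simp only [toMul_nsmul] at this
  have h2 := congrArg (fun u : ℂˣ => (u : ℂ)) this
  simpa using h2

/-- split a list along a flattening of its image -/
theorem exists_parts {α β : Type*} (f : α → β) : ∀ (parts : List (List β)) (L : List α),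
    L.map f = parts.flatten → ∃ parts' : List (List α), L = parts'.flatten ∧
      parts'.map (List.map f) = parts := by
  intro parts
  induction parts with
  | nil =>
    intro L h
    refine ⟨[], ?_, rfl⟩
    simpa using h
  | cons c parts ih =>
    intro L h
    rw [List.flatten_cons] at h
    obtain ⟨L1, L2, rfl, h1, h2⟩ := List.map_eq_append_iff.mp h
    obtain ⟨parts', rfl, h3⟩ := ih L2 h2
    exact ⟨L1 :: parts', by simp, by simp [h1, h3]⟩

end Pool.Agent.MCF
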