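import Pool.Agent.MCF.Stmts

/-!
# Module SIX: the six-tuple `(X, Y, X, Y, X, Y)` has a finite orbit

The orbit of the universal tuple over `ℤ` modulo conjugation consists of 40 classes; the
table of moves is checked by evaluation.
-/

namespace Pool.Agent.MCF

open Equiv

namespace Six

section
variable {G : Type*} [Group G]

/-- the `i`-th braid move -/
def stepAt : ℕ → List G → List G
  | 0, a :: b :: q => b :: (b⁻¹ * a * b) :: q
  | 0, [a] => [a]
  | 0, [] => []
  | _ + 1, [] => []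
  | i + 1, a :: l => a :: stepAt i l

/-- the inverse of the `i`-th braid move -/
def unstepAt : ℕ → List G → List G
  | 0, a :: b :: q => (a * b * a⁻¹) :: a :: q
  | 0, [a] => [a]
  | 0, [] => []
  | _ + 1, [] => []
  | i + 1, a :: l => a :: unstepAt i l

theorem stepAt_append (p : List G) (a b : G) (q : List G) :
    stepAt p.length (p ++ a :: b :: q) = p ++ b :: (b⁻¹ * a * b) :: q := by
  induction p with
  | nil => rfl
  | cons x p ih => simp [stepAt, ih]

theorem unstepAt_stepAt (i : ℕ) (l : List G) : unstepAt i (stepAt i l) = l := by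
  induction i generalizing l with
  | zero =>
    match l with
    | [] => rfl
    | [a] => rfl
    | a :: b :: q =>
      simp only [stepAt, unstepAt]
      congr 1
      group
  | succ i ih =>
    match l with
    | [] => rfl
    | a :: l => simp [stepAt, unstepAt, ih]

theorem stepAt_conjL (g : G) (i : ℕ) (l : List G) :
    stepAt i (conjL g l) = conjL g (stepAt i l) := by
  induction i generalizing l with
  | zero =>
    match l with
    | [] => rfl
    | [a] => rfl
    | a :: b :: q =>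
      simp only [stepAt, conjL_cons]
      congr 2
      group
  | succ i ih =>
    match l with
    | [] => rfl
    | a :: l => simp [stepAt, ih]

theorem unstepAt_conjL (g : G) (i : ℕ) (l : List G) :
    unstepAt i (conjL g l) = conjL g (unstepAt i l) := by
  induction i generalizing l with
  | zero =>
    match l with
    | [] => rfl
    | [a] => rfl
    | a :: b :: q =>
      simp only [unstepAt, conjL_cons]
      congr 1
      group
  | succ i ih =>
    match l with
    | [] => rfl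
    | a :: l => simp [unstepAt, ih]

end

/-- comparison of two elements of `ℤ³ ⋊ S₃` -/
def eqb (a b : Aff ℤ) : Bool :=
  decide (a.v 0 = b.v 0) && decide (a.v 1 = b.v 1) && decide (a.v 2 = b.v 2) &&
    decide (a.s 0 = b.s 0) && decide (a.s 1 = b.s 1) && decide (a.s 2 = b.s 2)

theorem eqb_eq {a b : Aff ℤ} (h : eqb a b = true) : a = b := by
  simp only [eqb, Bool.and_eq_true, decide_eq_true_eq] at h
  obtain ⟨⟨⟨⟨⟨h1, h2⟩, h3⟩, h4⟩, h5⟩, h6⟩ := h
  apply Aff.ext
  · funext i
    fin_cases i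
    · exact h1
    · exact h2
    · exact h3
  · apply Equiv.ext
    intro i
    fin_cases i
    · exact h4
    · exact h5
    · exact h6

/-- comparison of two lists -/
def leqb : List (Aff ℤ) → List (Aff ℤ) → Bool
  | [], [] => true
  | a :: l, b :: m => eqb a b && leqb l m
  | _ :: _, [] => false
  | [], _ :: _ => false

theorem leqb_eq : ∀ {l m : List (Aff ℤ)}, leqb l m = true → l = m
  | [], [], _ => rfl
  | a :: l, b :: m, h => by
    simp only [leqb, Bool.and_eq_true] at h
    rw [eqb_eq h.1, leqb_eq h.2]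
  | _ :: _, [], h => by simp [leqb] at h
  | [], _ :: _, h => by simp [leqb] at h

/-- element number 0 -/
def e0 : Aff ℤ := ⟨![-3, -1, 4], swap 0 2⟩
/-- element number 1 -/
def e1 : Aff ℤ := ⟨![-1, -3, 4], swap 1 2⟩
/-- element number 2 -/
def e2 : Aff ℤ := ⟨![-1, 0, 1], swap 1 2⟩
/-- element number 3 -/
def e3 : Aff ℤ := ⟨![-1, 2, -1], swap 0 1⟩
/-- element number 4 -/
def e4 : Aff ℤ := ⟨![-1, 3, -2], swap 1 2⟩
/-- element number 5 -/
def e5 : Aff ℤ := ⟨![0, -1, 1], swap 0 2⟩
/-- element number 6 -/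
def e6 : Aff ℤ := ⟨![2, -1, -1], swap 0 1⟩
/-- conjugating element number 0 -/
def g0 : Aff ℤ := ⟨![-2, 0, -1], finRotate 3⟩
/-- conjugating element number 1 -/
def g1 : Aff ℤ := ⟨![0, -3, 0], 1⟩
/-- conjugating element number 2 -/
def g2 : Aff ℤ := ⟨![0, -2, -1], swap 1 2⟩
/-- conjugating element number 3 -/
def g3 : Aff ℤ := ⟨![0, 0, 0], 1⟩
/-- conjugating element number 4 -/
def g4 : Aff ℤ := ⟨![0, 1, 2], swap 1 2⟩
/-- conjugating element number 5 -/
def g5 : Aff ℤ := ⟨![0, 3, 3], 1⟩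
/-- the initial conjugating element -/
def gi : Aff ℤ := ⟨![-1, -1, 0], (finRotate 3)⁻¹⟩

/-- the 40 tuples -/
def St : List (List (Aff ℤ)) := [
  [e2, e5, e2, e5, e2, e5],
  [e2, e5, e3, e2, e3, e2],
  [e2, e2, e5, e3, e2, e3],
  [e2, e5, e5, e3, e2, e5],
  [e2, e5, e2, e2, e6, e5],
  [e2, e5, e2, e5, e5, e3],
  [e2, e5, e5, e3, e5, e3],
  [e2, e5, e2, e2, e5, e2],
  [e2, e5, e2, e5, e3, e2],
  [e2, e5, e3, e3, e0, e2],
  [e2, e5, e3, e2, e2, e5],
  [e2, e5, e3, e3, e2, e3],
  [e2, e2, e5, e2, e2, e5],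
  [e2, e2, e5, e2, e5, e3],
  [e2, e2, e5, e3, e3, e0],
  [e2, e5, e5, e2, e5, e5],
  [e2, e5, e2, e6, e5, e5],
  [e2, e5, e3, e2, e5, e3],
  [e2, e5, e5, e5, e4, e3],
  [e2, e5, e5, e3, e3, e2],
  [e2, e2, e5, e2, e3, e2],
  [e2, e5, e2, e2, e2, e6],
  [e2, e2, e5, e3, e0, e2],
  [e2, e5, e2, e3, e2, e2],
  [e2, e5, e3, e0, e2, e2],
  [e2, e5, e5, e5, e3, e5],
  [e2, e5, e3, e3, e3, e0],
  [e2, e2, e2, e5, e2, e3],
  [e2, e2, e2, e5, e3, e0],
  [e2, e2, e5, e5, e3, e3],
  [e2, e5, e6, e5, e5, e5],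
  [e2, e5, e3, e5, e3, e3],
  [e2, e5, e5, e4, e3, e3],
  [e2, e2, e2, e5, e0, e2],
  [e2, e2, e5, e0, e2, e2],
  [e2, e5, e0, e2, e2, e2],
  [e2, e5, e5, e5, e5, e4],
  [e2, e2, e2, e2, e5, e0],
  [e2, e5, e4, e3, e3, e3],
  [e2, e1, e5, e5, e5, e5]]

/-- the table of moves -/
def Tb : List (List (ℕ × Aff ℤ)) := [
  [(1, g0), (2, g2), (3, g3), (4, g3), (5, g3)],
  [(6, g0), (7, g4), (8, g3), (9, g3), (10, g3)],
  [(2, g3), (11, g3), (12, g4), (13, g3), (14, g3)],
  [(8, g0), (3, g3), (10, g3), (15, g3), (6, g3)],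
  [(9, g0), (13, g2), (4, g3), (16, g3), (7, g3)],
  [(10, g0), (14, g2), (6, g3), (5, g3), (8, g3)],
  [(0, g0), (6, g3), (17, g3), (18, g3), (19, g3)],
  [(11, g0), (20, g2), (7, g3), (8, g3), (21, g3)],
  [(17, g0), (22, g2), (19, g3), (23, g3), (0, g3)],
  [(18, g0), (8, g4), (9, g3), (24, g3), (11, g3)],
  [(19, g0), (21, g4), (0, g3), (10, g3), (17, g3)],
  [(25, g0), (0, g4), (11, g3), (17, g3), (26, g3)],
  [(12, g3), (10, g3), (27, g2), (12, g3), (13, g3)],
  [(13, g3), (17, g3), (28, g2), (29, g3), (20, g3)],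
  [(14, g3), (26, g3), (13, g4), (14, g3), (22, g3)],
  [(23, g0), (15, g3), (16, g3), (25, g3), (15, g3)],
  [(24, g0), (29, g2), (30, g3), (0, g3), (16, g3)],
  [(3, g0), (4, g4), (5, g3), (31, g3), (1, g3)],
  [(4, g0), (18, g3), (18, g3), (32, g3), (25, g3)],
  [(5, g0), (19, g3), (1, g3), (19, g3), (3, g3)],
  [(20, g3), (1, g3), (33, g2), (22, g3), (12, g3)],
  [(26, g0), (12, g2), (21, g3), (21, g3), (4, g3)],
  [(22, g3), (9, g3), (20, g4), (34, g3), (2, g3)],
  [(31, g0), (34, g2), (24, g3), (7, g3), (23, g3)],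
  [(32, g0), (23, g4), (35, g3), (1, g3), (24, g3)],
  [(7, g0), (25, g3), (25, g3), (3, g3), (36, g3)],
  [(36, g0), (5, g4), (26, g3), (26, g3), (9, g3)],
  [(27, g3), (27, g3), (2, g3), (37, g2), (28, g3)],
  [(28, g3), (28, g3), (14, g3), (27, g4), (33, g3)],
  [(29, g3), (31, g3), (29, g3), (2, g3), (29, g3)],
  [(35, g0), (38, g2), (15, g3), (30, g3), (30, g3)],
  [(15, g0), (16, g4), (32, g3), (11, g3), (31, g3)],
  [(16, g0), (32, g3), (38, g3), (6, g3), (32, g3)],
  [(33, g3), (33, g3), (22, g3), (33, g5), (27, g3)],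
  [(34, g3), (24, g3), (34, g5), (20, g3), (34, g3)],
  [(38, g0), (35, g5), (23, g3), (35, g3), (35, g3)],
  [(21, g0), (36, g3), (36, g3), (36, g3), (18, g3)],
  [(37, g3), (37, g3), (37, g3), (28, g3), (37, g5)],
  [(30, g0), (39, g4), (31, g3), (38, g3), (38, g3)],
  [(39, g1), (30, g3), (39, g3), (39, g3), (39, g3)]]

/-- the `k`-th tuple -/
def S (k : ℕ) : List (Aff ℤ) := St.getD k []

/-- an entry of the table -/
def T (k i : ℕ) : ℕ × Aff ℤ := (Tb.getD k []).getD i (0, 1)

theorem chk_len : ((List.range 40).all fun k => decide ((S k).length = 6)) = true := by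
  decide +kernel

theorem chk_lt : ((List.range 40).all fun k => (List.range 5).all fun i =>
    decide ((T k i).1 < 40)) = true := by
  decide +kernel

theorem chk_step : ((List.range 40).all fun k => (List.range 5).all fun i =>
    leqb (stepAt i (S k)) (conjL (T k i).2 (S (T k i).1))) = true := by
  decide +kernel

theorem chk_sur : ((List.range 40).all fun k' => (List.range 5).all fun i =>
    (List.range 40).any fun k => decide ((T k i).1 = k')) = true := by
  decide +kernel

/-- the universal tuple -/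
def init : List (Aff ℤ) :=
  [stdX 1, (stdX 1)⁻¹ * stdR, stdX 1, (stdX 1)⁻¹ * stdR, stdX 1, (stdX 1)⁻¹ * stdR]

theorem chk_init : leqb init (conjL gi (S 0)) = true := by
  decide +kernel

theorem len_S {k : ℕ} (hk : k < 40) : (S k).length = 6 := by
  have := chk_len
  rw [List.all_eq_true] at this
  simpa using this k (List.mem_range.mpr hk)

theorem fwd {k i : ℕ} (hk : k < 40) (hi : i < 5) :
    (T k i).1 < 40 ∧ stepAt i (S k) = conjL (T k i).2 (S (T k i).1) := by
  have h1 := chk_lt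
  have h2 := chk_step
  rw [List.all_eq_true] at h1 h2
  have h3 := h1 k (List.mem_range.mpr hk)
  have h4 := h2 k (List.mem_range.mpr hk)
  rw [List.all_eq_true] at h3 h4
  have h5 := h3 i (List.mem_range.mpr hi)
  have h6 := h4 i (List.mem_range.mpr hi)
  exact ⟨by simpa using h5, leqb_eq h6⟩

theorem bwd {k' i : ℕ} (hk : k' < 40) (hi : i < 5) :
    ∃ k < 40, stepAt i (S k) = conjL (T k i).2 (S k') := by
  have h1 := chk_sur
  rw [List.all_eq_true] at h1
  have h3 := h1 k' (List.mem_range.mpr hk)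
  rw [List.all_eq_true] at h3
  have h5 := h3 i (List.mem_range.mpr hi)
  rw [List.any_eq_true] at h5
  obtain ⟨k, hk1, hk2⟩ := h5
  have hk1' := List.mem_range.mp hk1
  have hk2' : (T k i).1 = k' := by simpa using hk2
  refine ⟨k, hk1', ?_⟩
  have := (fwd hk1' hi).2
  rwa [hk2'] at this

/-- membership in the list of classes -/
def InOrb (l : List (Aff ℤ)) : Prop := ∃ k < 40, ∃ g : Aff ℤ, l = conjL g (S k)

theorem inOrb_len {l : List (Aff ℤ)} (h : InOrb l) : l.length = 6 := by
  obtain ⟨k, hk, g, rfl⟩ := h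
  rw [conjL_length, len_S hk]

theorem inOrb_step {l l' : List (Aff ℤ)} (h : HStep l l') : InOrb l ↔ InOrb l' := by
  obtain ⟨p, a, b, q⟩ := h
  have e1 := stepAt_append p a b q
  constructor
  · intro h
    have hl := inOrb_len h
    have hi : p.length < 5 := by
      simp only [List.length_append, List.length_cons] at hl; omega
    obtain ⟨k, hk, g, hg⟩ := h
    obtain ⟨h1, h2⟩ := fwd hk hi
    refine ⟨_, h1, g * (T k p.length).2, ?_⟩
    rw [← e1, hg, stepAt_conjL, h2, conjL_mul]
  · intro h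
    have hl := inOrb_len h
    have hi : p.length < 5 := by
      simp only [List.length_append, List.length_cons] at hl; omega
    obtain ⟨k', hk', g, hg⟩ := h
    obtain ⟨k, hk, h2⟩ := bwd hk' hi
    refine ⟨k, hk, g * (T k p.length).2⁻¹, ?_⟩
    have h3 : S k' = conjL (T k p.length).2⁻¹ (stepAt p.length (S k)) := by
      rw [h2, conjL_inv_conjL]
    have e2 : p ++ a :: b :: q = unstepAt p.length (p ++ b :: (b⁻¹ * a * b) :: q) := by
      rw [← e1, unstepAt_stepAt]
    rw [e2, hg, h3, ← conjL_mul, unstepAt_conjL, unstepAt_stepAt]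

theorem inOrb_equiv {l l' : List (Aff ℤ)} (h : HEquiv l l') : InOrb l ↔ InOrb l' := by
  refine HEquiv.induct (P := fun l l' => InOrb l ↔ InOrb l') ?_ ?_ ?_ ?_ h
  · intro l l' h; exact inOrb_step h
  · intro l; exact Iff.rfl
  · intro l l' h; exact h.symm
  · intro a b c h h'; exact h.trans h'

theorem finite_init : FiniteOrbit init := by
  refine ⟨{l | ∃ k < 40, l = S k}, ?_, ?_⟩
  · have : {l | ∃ k < 40, l = S k} = S '' {k | k < 40} := by
      ext l
      constructor
      · rintro ⟨k, hk, rfl⟩; exact ⟨k, hk, rfl⟩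
      · rintro ⟨k, hk, rfl⟩; exact ⟨k, hk, rfl⟩
    rw [this]
    exact (Set.finite_lt_nat 40).image S
  · intro l' h
    have h0 : InOrb init := ⟨0, by norm_num, gi, leqb_eq chk_init⟩
    obtain ⟨k, hk, g, hg⟩ := (inOrb_equiv h).mp h0
    exact ⟨S k, ⟨k, hk, rfl⟩, g, hg⟩

end Six

theorem six_proof : Stmt_SIX := by
  intro W _ a
  have h := Six.finite_init.map (Aff.map (zmultiplesHom W a))
  have hX : Aff.map (zmultiplesHom W a) (stdX 1) = stdX a := by
    ext i
    · fin_cases i <;> simp [stdX]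
    · simp [stdX]
  have hR : Aff.map (zmultiplesHom W a) stdR = stdR := by
    ext i
    · fin_cases i <;> simp [stdR]
    · simp [stdR]
  have e : Six.init.map (Aff.map (zmultiplesHom W a)) =
      [stdX a, (stdX a)⁻¹ * stdR, stdX a, (stdX a)⁻¹ * stdR, stdX a, (stdX a)⁻¹ * stdR] := by
    simp only [Six.init, List.map_cons, List.map_nil, map_mul, map_inv, hX, hR]
  rwa [e] at h

end Pool.Agent.MCF
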