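import Pool.Agent.MCF.G0
import Pool.Agent.MCF.SIX

namespace Pool.Agent.MCF

open Equiv

variable {W : Type} [AddCommGroup W]

/-- the standard tuples have finite orbits -/
theorem std_finite (a : W) {k : ℕ} (hk : k ≤ 3) (n : ℕ) :
    FiniteOrbit (stdList a k ++ List.replicate n 1) := by
  apply insert_ones
  have h6 := six_proof W a
  set X := stdX a with hX
  set R := (stdR : Aff W) with hR
  have hXR : X * (X⁻¹ * R) = R := by group
  interval_cases k
  · have := mrg_proof _ [[X, X⁻¹ * R], [X, X⁻¹ * R], [X, X⁻¹ * R]] (by simpa using h6)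
    simpa [stdList, hXR, ← hX, ← hR, List.replicate] using this
  · have := mrg_proof _ [[X], [X⁻¹ * R], [X, X⁻¹ * R], [X, X⁻¹ * R]] (by simpa using h6)
    simpa [stdList, hXR, ← hX, ← hR, List.replicate] using this
  · have := mrg_proof _ [[X], [X⁻¹ * R], [X], [X⁻¹ * R], [X, X⁻¹ * R]] (by simpa using h6)
    simpa [stdList, hXR, ← hX, ← hR, List.replicate] using this
  · simpa [stdList, ← hX, ← hR, List.replicate] using h6

variable [Module ℚ W]

omit [Module ℚ W] in
theorem pow_six_eq (a : Aff W) : a ^ 6 = Aff.tr (a ^ 6).v := by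
  apply eq_tr_of_s
  have : (a ^ 6).s = a.s ^ 6 := by
    have := map_pow (Aff.perm (W := W)) a 6
    simpa using this
  rw [this, perm_pow_six]

omit [Module ℚ W] in
theorem refl_sq {x : Aff W} (h : IsRefl x.s) : x ^ 6 = Aff.tr (3 • (x.v + act x.s x.v)) := by
  have h2 : x ^ 2 = Aff.tr (x.v + act x.s x.v) := by
    rw [pow_two]
    apply Aff.ext'
    · rw [Aff.mul_v']; rfl
    · simp [h.mul_self]
  have : x ^ 6 = (x ^ 2) ^ 3 := by rw [← pow_mul]
  rw [this, h2, tr_pow]

omit [AddCommGroup W] [Module ℚ W] in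
theorem tr_inj {v w : Fin 3 → W} (h : Aff.tr v = Aff.tr w) : v = w := congrArg Aff.v h

theorem torsfree_eq {v w : Fin 3 → W} {n : ℕ} (hn : 0 < n) (h : n • v = n • w) : v = w := by
  have : n • (v - w) = 0 := by rw [nsmul_sub, h, sub_self]
  exact sub_eq_zero.mp (torsfree_fun hn this)

/-- rigidity of pairs -/
theorem pair_rigid {x y x' y' : Aff W} (hx : IsRefl x.s) (hy : IsRefl y.s) (hne : x.s ≠ y.s)
    (hx0 : Sum0 x.v) (hx0' : Sum0 x'.v)
    (hs : x'.s = x.s) (hs' : y'.s = y.s) (h6 : x' ^ 6 = x ^ 6) (h6' : y' ^ 6 = y ^ 6)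
    (hp : x' * y' = x * y) : x' = x ∧ y' = y := by
  have hx' : IsRefl x'.s := by rw [hs]; exact hx
  have hy' : IsRefl y'.s := by rw [hs']; exact hy
  rw [refl_sq hx, refl_sq hx', hs] at h6
  rw [refl_sq hy, refl_sq hy', hs'] at h6'
  have e1 := torsfree_eq (by norm_num) (tr_inj h6)
  have e2 := torsfree_eq (by norm_num) (tr_inj h6')
  have e3 := congrArg Aff.v hp
  rw [Aff.mul_v', Aff.mul_v', hs] at e3
  -- δ = x'.v - x.v ; act s δ = -δ ; y'.v - y.v = -act s δ = δ
  set δ := x'.v - x.v with hδ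
  have d1 : act x.s δ = - δ := by
    rw [hδ, act_sub]
    linear_combination (norm := module) (1:ℚ) • e1
  have d2 : act x.s (y'.v - y.v) = - δ := by
    rw [hδ, act_sub]
    linear_combination (norm := module) (1:ℚ) • e3
  have d3 : y'.v - y.v = δ := by
    have : act x.s (act x.s (y'.v - y.v)) = act x.s (- δ) := by rw [d2]
    rw [← act_mul, hx.mul_self, act_one, act_neg, d1, neg_neg] at this
    exact this
  have d4 : act y.s δ = - δ := by
    rw [← d3, act_sub]
    linear_combination (norm := module) (1:ℚ) • e2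
  have d5 : act (x.s * y.s) δ = δ := by
    rw [act_mul, d4, act_neg, d1, neg_neg]
  have d6 : δ = 0 := rot_fix (hx.mul_isRot hy hne) (hx0'.sub hx0) d5
  constructor
  · exact Aff.ext' (sub_eq_zero.mp d6) hs
  · rw [d6] at d3
    exact Aff.ext' (sub_eq_zero.mp d3) hs'

/-- data of a pair of elements compared by rigidity -/
def RR (p : Aff W × Aff W) : Prop :=
  p.2.s = p.1.s ∧ p.2 ^ 6 = p.1 ^ 6 ∧ Sum0 p.1.v ∧ Sum0 p.2.v

/-- a part of a list of pairs with equal products is diagonal -/
theorem part_rigid {D : List (Aff W × Aff W)} (hR : ∀ p ∈ D, RR p)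
    (hD : RotPart (D.map (fun p => p.1.s)))
    (hp : (D.map Prod.snd).prod = (D.map Prod.fst).prod) : ∀ p ∈ D, p.2 = p.1 := by
  rcases hD with ⟨ρ, hρ, e⟩ | ⟨s, t, hs, ht, hst, e⟩
  · obtain ⟨b, rfl, hb⟩ := List.map_eq_singleton_iff.mp e
    intro p hp'
    simp only [List.mem_singleton] at hp'
    subst hp'
    simpa using hp
  · obtain ⟨b, c, rfl⟩ : ∃ b c, D = [b, c] := by
      have : D.length = 2 := by have := congrArg List.length e; simpa using this
      exact List.length_eq_two.mp this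
    simp only [List.map_cons, List.map_nil, List.cons.injEq, and_true] at e
    obtain ⟨rb1, rb2, rb3, rb4⟩ := hR b (by simp)
    obtain ⟨rc1, rc2, rc3, rc4⟩ := hR c (by simp)
    have := pair_rigid (x := b.1) (y := c.1) (x' := b.2) (y' := c.2)
      (by rw [e.1]; exact hs) (by rw [e.2]; exact ht) (by rw [e.1, e.2]; exact hst)
      rb3 rb4 rb1 rc1 rb2 rc2 (by simpa using hp)
    intro p hp'
    simp only [List.mem_cons, List.not_mem_nil, or_false] at hp'
    rcases hp' with rfl | rfl
    · exact this.1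
    · exact this.2

theorem triv_rigid {p : Aff W × Aff W} (hR : RR p) (h1 : p.1.s = 1) : p.2 = p.1 := by
  have h2 : p.2.s = 1 := by rw [hR.1, h1]
  have e1 : p.1 = Aff.tr p.1.v := eq_tr_of_s h1
  have e2 : p.2 = Aff.tr p.2.v := eq_tr_of_s h2
  have h6 := hR.2.1
  rw [e1, e2, tr_pow, tr_pow] at h6
  have := torsfree_eq (by norm_num) (tr_inj h6)
  rw [e1, e2, this]

omit [Module ℚ W] in
/-- membership classes are invariant under Hurwitz equivalence -/
theorem mem_conj_of_equiv {G : Type*} [Group G] {l l' : List G} (h : HEquiv l l') :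
    ∀ a ∈ l', ∃ b ∈ l, ∃ g : G, a = g * b * g⁻¹ := by
  have key : ∀ {l l' : List G}, HEquiv l l' →
      ((∀ a ∈ l', ∃ b ∈ l, ∃ g : G, a = g * b * g⁻¹) ∧
        (∀ a ∈ l, ∃ b ∈ l', ∃ g : G, a = g * b * g⁻¹)) := by
    intro l l' h
    refine HEquiv.induct (P := fun l l' =>
      ((∀ a ∈ l', ∃ b ∈ l, ∃ g : G, a = g * b * g⁻¹) ∧
        (∀ a ∈ l, ∃ b ∈ l', ∃ g : G, a = g * b * g⁻¹))) ?_ ?_ ?_ ?_ h
    · rintro _ _ ⟨p, a, b, q⟩
      constructor
      · intro x hx
        simp only [List.mem_append, List.mem_cons] at hx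
        rcases hx with hx | rfl | rfl | hx
        · exact ⟨x, by simp [hx], 1, by simp⟩
        · exact ⟨x, by simp, 1, by simp⟩
        · exact ⟨a, by simp, b⁻¹, by simp⟩
        · exact ⟨x, by simp [hx], 1, by simp⟩
      · intro x hx
        simp only [List.mem_append, List.mem_cons] at hx
        rcases hx with hx | rfl | rfl | hx
        · exact ⟨x, by simp [hx], 1, by simp⟩
        · exact ⟨b⁻¹ * x * b, by simp, b, by group⟩
        · exact ⟨x, by simp, 1, by simp⟩
        · exact ⟨x, by simp [hx], 1, by simp⟩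
    · intro l
      exact ⟨fun a ha => ⟨a, ha, 1, by simp⟩, fun a ha => ⟨a, ha, 1, by simp⟩⟩
    · intro l l' h; exact ⟨h.2, h.1⟩
    · intro a b c h h'
      constructor
      · intro x hx
        obtain ⟨y, hy, g, rfl⟩ := h'.1 x hx
        obtain ⟨z, hz, k, rfl⟩ := h.1 y hy
        exact ⟨z, hz, g * k, by group⟩
      · intro x hx
        obtain ⟨y, hy, g, rfl⟩ := h.2 x hx
        obtain ⟨z, hz, k, rfl⟩ := h'.2 y hy
        exact ⟨z, hz, g * k, by group⟩
  exact (key h).1

theorem finite_lists {α : Type*} {s : Set α} (hs : s.Finite) (n : ℕ) :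
    {l : List α | l.length = n ∧ ∀ x ∈ l, x ∈ s}.Finite := by
  have := hs.to_subtype
  have h1 : {l : List s | l.length = n}.Finite := List.finite_length_eq s n
  refine (h1.image (List.map Subtype.val)).subset ?_
  rintro l ⟨hl, hx⟩
  refine ⟨l.attach.map (fun x => ⟨x.1, hx x.1 x.2⟩), by simpa using hl, ?_⟩
  simp

omit [Module ℚ W] in
theorem RR.of_step {p q : Aff W × Aff W} (hp : RR p) (hq : RR q) : RR (q⁻¹ * p * q) := by
  obtain ⟨p1, p2, p3, p4⟩ := hp
  obtain ⟨q1, q2, q3, q4⟩ := hq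
  refine ⟨?_, ?_, ?_, ?_⟩
  · simp [p1, q1]
  · simp only [Prod.fst_mul, Prod.snd_mul, Prod.fst_inv, Prod.snd_inv]
    have e : ∀ a b : Aff W, (b⁻¹ * a * b) ^ 6 = b⁻¹ * a ^ 6 * b := by
      intro a b
      have := conj_pow (i := 6) (a := b⁻¹) (b := a)
      simpa using this
    rw [e, e, p2, pow_six_eq p.1]
    have e2 : ∀ (v : Fin 3 → W) (b : Aff W), b⁻¹ * Aff.tr v * b = Aff.tr (act b.s⁻¹ v) := by
      intro v b
      have := Aff.conj_tr b⁻¹ v
      simpa using this
    rw [e2, e2, q1]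
  · exact (q3.invA.mulA p3).mulA q3
  · exact (q4.invA.mulA p4).mulA q4

omit [Module ℚ W] in
theorem RR.of_step' {p q : Aff W × Aff W} (hp : RR (q⁻¹ * p * q)) (hq : RR q) : RR p := by
  have hq' : RR q⁻¹ := by
    obtain ⟨q1, q2, q3, q4⟩ := hq
    refine ⟨by simp [q1], ?_, q3.invA, q4.invA⟩
    simp only [Prod.fst_inv, Prod.snd_inv, inv_pow, q2]
  have := hp.of_step hq'
  have e : q⁻¹⁻¹ * (q⁻¹ * p * q) * q⁻¹ = p := by group
  rwa [e] at this

omit [Module ℚ W] in
theorem RR.of_equiv {P Q : List (Aff W × Aff W)} (h : HEquiv P Q) (hP : ∀ p ∈ P, RR p) :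
    ∀ p ∈ Q, RR p := by
  have key : ∀ {P Q : List (Aff W × Aff W)}, HEquiv P Q →
      ((∀ p ∈ P, RR p) ↔ (∀ p ∈ Q, RR p)) := by
    intro P Q h
    refine HEquiv.induct (P := fun P Q => ((∀ p ∈ P, RR p) ↔ (∀ p ∈ Q, RR p))) ?_ ?_ ?_ ?_ h
    · rintro _ _ ⟨p, a, b, q⟩
      constructor
      · intro h x hx
        simp only [List.mem_append, List.mem_cons] at hx
        rcases hx with hx | rfl | rfl | hx
        · exact h x (by simp [hx])
        · exact h x (by simp)
        · exact (h a (by simp)).of_step (h b (by simp))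
        · exact h x (by simp [hx])
      · intro h x hx
        simp only [List.mem_append, List.mem_cons] at hx
        rcases hx with hx | rfl | rfl | hx
        · exact h x (by simp [hx])
        · exact RR.of_step' (h (b⁻¹ * x * b) (by simp)) (h b (by simp))
        · exact h x (by simp)
        · exact h x (by simp [hx])
    · intro l; rfl
    · intro l l' h; exact h.symm
    · intro a b c h h'; exact h.trans h'
  exact (key h).mp hP

/-- rigidity in normal form -/
theorem nf_rigid {D1 D2 ZZ : List (Aff W × Aff W)} (hR : ∀ p ∈ D1 ++ D2 ++ ZZ, RR p)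
    (h1 : RotPart (D1.map (fun p => p.1.s))) (h2 : RotPart (D2.map (fun p => p.1.s)))
    (hZ : ∀ p ∈ ZZ, p.1.s = 1)
    (hp1 : ((D1 ++ D2 ++ ZZ).map Prod.fst).prod = 1)
    (hp2 : ((D1 ++ D2 ++ ZZ).map Prod.snd).prod = 1) :
    ∃ u : Fin 3 → W, ∀ p ∈ D1 ++ D2 ++ ZZ, p.2 = Aff.tr u * p.1 * (Aff.tr u)⁻¹ := by
  have hs1 : (D1.map Prod.fst).prod.s = (D1.map (fun p => p.1.s)).prod := by
    rw [prod_s, List.map_map]; rfl
  have hs2 : (D1.map Prod.snd).prod.s = (D1.map (fun p => p.1.s)).prod := by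
    rw [prod_s, List.map_map]
    congr 1
    apply List.map_congr_left
    intro p hp
    exact (hR p (by simp [hp])).1
  have hrot := h1.prod_isRot
  have s1 : Sum0 (D1.map Prod.fst).prod.v := by
    apply AllSum0.prod
    intro a ha
    obtain ⟨p, hp, rfl⟩ := List.mem_map.mp ha
    exact (hR p (by simp [hp])).2.2.1
  have s2 : Sum0 (D1.map Prod.snd).prod.v := by
    apply AllSum0.prod
    intro a ha
    obtain ⟨p, hp, rfl⟩ := List.mem_map.mp ha
    exact (hR p (by simp [hp])).2.2.2
  obtain ⟨c1, hc1, e1⟩ := exists_center (a := (D1.map Prod.fst).prod) (by rw [hs1]; exact hrot) s1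
  obtain ⟨c2, hc2, e2⟩ := exists_center (a := (D1.map Prod.snd).prod) (by rw [hs2]; exact hrot) s2
  have e3 : Aff.tr c1 * (D1.map Prod.fst).prod * (Aff.tr c1)⁻¹ =
      Aff.tr c2 * (D1.map Prod.snd).prod * (Aff.tr c2)⁻¹ := by
    apply Aff.ext'
    · rw [e1, e2]
    · simp [hs1, hs2]
  set u := c1 - c2 with hu
  have hu0 : Sum0 u := hc1.sub hc2
  have htru : Aff.tr u = (Aff.tr c2)⁻¹ * Aff.tr c1 := by
    have : Aff.tr c2 * Aff.tr u = Aff.tr c1 := by rw [tr_mul_tr, hu]; congr 1; abel
    rw [← this]; group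
  refine ⟨u, ?_⟩
  -- conjugated list of pairs
  let f : Aff W × Aff W → Aff W × Aff W := fun p => (Aff.tr u * p.1 * (Aff.tr u)⁻¹, p.2)
  have hf : ∀ p, RR p → RR (f p) := by
    rintro p ⟨p1, p2, p3, p4⟩
    refine ⟨by simp [f, p1], ?_, ?_, p4⟩
    · simp only [f]
      rw [conj_pow, p2, pow_six_eq p.1, Aff.conj_tr]
      simp
    · exact p3.conjA (by simpa using hu0)
  have hfs : ∀ L : List (Aff W × Aff W), (L.map f).map (fun p => p.1.s) =
      L.map (fun p => p.1.s) := by
    intro L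
    rw [List.map_map]
    apply List.map_congr_left
    intro p _
    simp [f]
  have hff : ∀ L : List (Aff W × Aff W), ((L.map f).map Prod.fst).prod =
      Aff.tr u * (L.map Prod.fst).prod * (Aff.tr u)⁻¹ := by
    intro L
    rw [← conjL_prod, conjL, List.map_map, List.map_map]
    rfl
  have hfsnd : ∀ L : List (Aff W × Aff W), (L.map f).map Prod.snd = L.map Prod.snd := by
    intro L
    rw [List.map_map]; rfl
  have hD1 : ∀ p ∈ D1.map f, p.2 = p.1 := by
    apply part_rigid
    · intro p hp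
      obtain ⟨q, hq, rfl⟩ := List.mem_map.mp hp
      exact hf q (hR q (by simp [hq]))
    · rw [hfs]; exact h1
    · rw [hfsnd, hff, htru]
      have : (Aff.tr c2)⁻¹ * Aff.tr c1 * (D1.map Prod.fst).prod *
          ((Aff.tr c2)⁻¹ * Aff.tr c1)⁻¹ =
          (Aff.tr c2)⁻¹ * (Aff.tr c1 * (D1.map Prod.fst).prod * (Aff.tr c1)⁻¹) * Aff.tr c2 := by
        group
      rw [this, e3]; group
  have hZZ : ∀ p ∈ ZZ.map f, p.2 = p.1 := by
    intro p hp
    obtain ⟨q, hq, rfl⟩ := List.mem_map.mp hp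
    exact triv_rigid (hf q (hR q (by simp [hq]))) (by simp [f, hZ q hq])
  have hprodeq : ∀ L : List (Aff W × Aff W), (∀ p ∈ L, p.2 = p.1) →
      (L.map Prod.snd).prod = (L.map Prod.fst).prod := by
    intro L hL
    congr 1
    apply List.map_congr_left
    exact hL
  have hD2 : ∀ p ∈ D2.map f, p.2 = p.1 := by
    apply part_rigid
    · intro p hp
      obtain ⟨q, hq, rfl⟩ := List.mem_map.mp hp
      exact hf q (hR q (by simp [hq]))
    · rw [hfs]; exact h2
    · have t1 : (((D1 ++ D2 ++ ZZ).map f).map Prod.fst).prod = 1 := by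
        rw [hff, hp1]; simp
      have t2 : (((D1 ++ D2 ++ ZZ).map f).map Prod.snd).prod = 1 := by
        rw [hfsnd, hp2]
      simp only [List.map_append, List.prod_append] at t1 t2
      rw [hprodeq _ hD1, hprodeq _ hZZ, ← t1] at t2
      exact mul_left_cancel (mul_right_cancel t2)
  intro p hp
  have hmem : f p ∈ D1.map f ∨ f p ∈ D2.map f ∨ f p ∈ ZZ.map f := by
    simp only [List.mem_append] at hp
    rcases hp with (hp | hp) | hp
    · exact Or.inl (List.mem_map_of_mem hp)
    · exact Or.inr (Or.inl (List.mem_map_of_mem hp))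
    · exact Or.inr (Or.inr (List.mem_map_of_mem hp))
  rcases hmem with h | h | h
  · exact hD1 _ h
  · exact hD2 _ h
  · exact hZZ _ h

/-- genus zero: every tuple has a finite orbit -/
theorem genus_zero {parts : List (List (Aff W))} {Z : List (Aff W)}
    (h0 : AllSum0 (parts.flatten ++ Z))
    (hr : ∀ C ∈ parts, RotPart (C.map Aff.s)) (hZ : ∀ z ∈ Z, z.s = 1)
    (hlen : parts.length = 2) (hp : (parts.flatten ++ Z).prod = 1) :
    FiniteOrbit (parts.flatten ++ Z) := by
  obtain ⟨C1, C2, rfl⟩ := List.length_eq_two.mp hlen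
  have hl : ([C1, C2].flatten ++ Z) = C1 ++ C2 ++ Z := by simp
  rw [hl] at h0 hp ⊢
  set l := C1 ++ C2 ++ Z with hldef
  -- rigidity in the orbit
  have rig : ∀ l' l'', HEquiv l l' → HEquiv l l'' →
      l'.map (fun a => (a.s, a ^ 6)) = l''.map (fun a => (a.s, a ^ 6)) →
      ∃ g, l'' = conjL g l' := by
    intro l' l'' e' e'' hinv
    have hlen' : l'.length = l''.length := by rw [← e'.length_eq, e''.length_eq]
    set P := l'.zip l'' with hP
    have hP1 : P.map Prod.fst = l' := by rw [hP]; exact List.map_fst_zip hlen'.le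
    have hP2 : P.map Prod.snd = l'' := by rw [hP]; exact List.map_snd_zip hlen'.ge
    have hRP : ∀ p ∈ P, RR p := by
      intro p hp
      have h2 : ∀ p ∈ P, (p.2.s, p.2 ^ 6) = (p.1.s, p.1 ^ 6) := by
        have : P.map (fun p => (p.1.s, p.1 ^ 6)) = P.map (fun p => (p.2.s, p.2 ^ 6)) := by
          have t1 : P.map (fun p => (p.1.s, p.1 ^ 6)) = l'.map (fun a => (a.s, a ^ 6)) := by
            rw [← hP1, List.map_map]; rfl
          have t2 : P.map (fun p => (p.2.s, p.2 ^ 6)) = l''.map (fun a => (a.s, a ^ 6)) := by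
            rw [← hP2, List.map_map]; rfl
          rw [t1, t2, hinv]
        intro p hp
        exact ((List.map_inj_left.mp this) p hp).symm
      have h3 := h2 p hp
      simp only [Prod.mk.injEq] at h3
      refine ⟨h3.1, h3.2, ?_, ?_⟩
      · exact (h0.of_equiv e') p.1 (by rw [← hP1]; exact List.mem_map_of_mem hp)
      · exact (h0.of_equiv e'') p.2 (by rw [← hP2]; exact List.mem_map_of_mem hp)
    -- lift the equivalence l' ~ l
    obtain ⟨P', hPP', hP'1⟩ := HEquiv.lift (MonoidHom.fst (Aff W) (Aff W)) (l := P) (m := l)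
      (by
        have : P.map (MonoidHom.fst (Aff W) (Aff W)) = l' := hP1
        rw [this]; exact e'.symm)
    have hP'1' : P'.map Prod.fst = l := hP'1
    have hRP' := RR.of_equiv hPP' hRP
    rw [hldef] at hP'1'
    obtain ⟨D12, ZZ, rfl, hD12, hZZ⟩ := List.map_eq_append_iff.mp hP'1'
    obtain ⟨D1, D2, rfl, hD1, hD2⟩ := List.map_eq_append_iff.mp hD12
    have q2 : ((D1 ++ D2 ++ ZZ).map Prod.snd).prod = 1 := by
      have := (hPP'.map (MonoidHom.snd (Aff W) (Aff W))).prod_eq
      have t2 : P.map (MonoidHom.snd (Aff W) (Aff W)) = l'' := hP2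
      rw [t2, ← e''.prod_eq, hp] at this
      exact this.symm
    obtain ⟨u, hu⟩ := nf_rigid hRP'
      (by
        have : D1.map (fun p => p.1.s) = C1.map Aff.s := by rw [← hD1, List.map_map]; rfl
        rw [this]; exact hr C1 (by simp))
      (by
        have : D2.map (fun p => p.1.s) = C2.map Aff.s := by rw [← hD2, List.map_map]; rfl
        rw [this]; exact hr C2 (by simp))
      (by
        intro p hp
        apply hZ
        rw [← hZZ]; exact List.mem_map_of_mem hp)
      (by rw [hP'1']; exact hp) q2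
    -- transport back
    let Γ : Subgroup (Aff W × Aff W) :=
      { carrier := {p | p.2 = Aff.tr u * p.1 * (Aff.tr u)⁻¹}
        mul_mem' := by
          intro a b ha hb
          simp only [Set.mem_ofPred_eq] at *
          simp only [Prod.snd_mul, Prod.fst_mul, ha, hb]
          group
        one_mem' := by simp
        inv_mem' := by
          intro a ha
          simp only [Set.mem_ofPred_eq] at *
          simp only [Prod.snd_inv, Prod.fst_inv, ha]
          group }
    have hcl : Subgroup.closure {x | x ∈ P} ≤ Γ := by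
      rw [hPP'.closure_eq, Subgroup.closure_le]
      intro p hp
      exact hu p hp
    refine ⟨Aff.tr u, ?_⟩
    rw [← hP1, ← hP2, conjL, List.map_map]
    apply List.map_congr_left
    intro p hp
    exact hcl (Subgroup.subset_closure hp)
  -- finitely many invariants
  set F6 : Set (Perm (Fin 3) × Aff W) :=
    Set.univ ×ˢ (⋃ a ∈ {a | a ∈ l}, Set.range (fun σ : Perm (Fin 3) => Aff.tr (act σ (a ^ 6).v)))
    with hF6
  have hF6fin : F6.Finite := by
    apply Set.Finite.prod Set.finite_univ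
    apply Set.Finite.biUnion (List.finite_toSet l)
    intro a _
    exact Set.finite_range _
  set Φ : List (Aff W) → List (Perm (Fin 3) × Aff W) := fun l' => l'.map (fun a => (a.s, a ^ 6))
    with hΦ
  have hΦmem : ∀ l', HEquiv l l' → Φ l' ∈
      {L : List (Perm (Fin 3) × Aff W) | L.length = l.length ∧ ∀ x ∈ L, x ∈ F6} := by
    intro l' e
    refine ⟨by simp [hΦ, e.length_eq], ?_⟩
    intro x hx
    obtain ⟨a, ha, rfl⟩ := List.mem_map.mp hx
    obtain ⟨b, hb, g, rfl⟩ := mem_conj_of_equiv e a ha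
    refine ⟨Set.mem_univ _, ?_⟩
    simp only [Set.mem_iUnion]
    refine ⟨b, hb, g.s, ?_⟩
    simp only
    rw [conj_pow, pow_six_eq b, Aff.conj_tr]
    simp
  have hfin := finite_lists hF6fin l.length
  set T := {L | ∃ l', HEquiv l l' ∧ Φ l' = L} with hT
  have hTfin : T.Finite := hfin.subset (by
    rintro L ⟨l', e, rfl⟩; exact hΦmem l' e)
  have hch : ∀ L : T, ∃ l', HEquiv l l' ∧ Φ l' = L.1 := fun L => L.2
  choose r hr1 hr2 using hch
  have := hTfin.to_subtype
  refine ⟨Set.range r, Set.finite_range r, ?_⟩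
  intro l'' e''
  refine ⟨r ⟨Φ l'', l'', e'', rfl⟩, ⟨_, rfl⟩, ?_⟩
  exact rig _ _ (hr1 _) e'' (hr2 ⟨Φ l'', l'', e'', rfl⟩)

end Pool.Agent.MCF
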