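import Pool.Agent.MCF.Basic

namespace Pool.Agent.MCF

open Equiv

/-- `σ` is a 3-cycle. -/
def IsRot (σ : Perm (Fin 3)) : Prop := σ ≠ 1 ∧ σ ^ 3 = 1
/-- `σ` is a transposition. -/
def IsRefl (σ : Perm (Fin 3)) : Prop := σ ≠ 1 ∧ σ ^ 2 = 1

instance : DecidablePred IsRot := fun σ => inferInstanceAs (Decidable (σ ≠ 1 ∧ σ ^ 3 = 1))
instance : DecidablePred IsRefl := fun σ => inferInstanceAs (Decidable (σ ≠ 1 ∧ σ ^ 2 = 1))

/-- ramification number: 3 minus the number of cycles -/
def ram (σ : Perm (Fin 3)) : ℕ := σ.support.card - 1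

/-- A list of permutations which is a single 3-cycle or a pair of different transpositions. -/
def RotPart (c : List (Perm (Fin 3))) : Prop :=
  (∃ ρ, IsRot ρ ∧ c = [ρ]) ∨ (∃ x y, IsRefl x ∧ IsRefl y ∧ x ≠ y ∧ c = [x, y])

/-- The list generates a transitive subgroup of `S₃`. -/
def Transitive (τ : List (Perm (Fin 3))) : Prop :=
  ∀ i j : Fin 3, ∃ g ∈ Subgroup.closure {x | x ∈ τ}, g i = j

/-- the monomial matrix of an element of `(ℂˣ)³ ⋊ S₃` -/
def Aff.matrix (a : Aff (Additive ℂˣ)) : Matrix (Fin 3) (Fin 3) ℂ :=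
  fun i j => if i = a.s j then (((a.v i).toMul : ℂˣ) : ℂ) else 0

/-- the monomial matrix, as a homomorphism -/
def Aff.matHom : Aff (Additive ℂˣ) →* Matrix (Fin 3) (Fin 3) ℂ where
  toFun := Aff.matrix
  map_one' := by
    ext i j
    by_cases h : i = j
    · simp [Aff.matrix, h, Matrix.one_apply]
    · simp [Aff.matrix, h, Matrix.one_apply]
  map_mul' a b := by
    ext i j
    rw [Matrix.mul_apply, Finset.sum_eq_single (b.s j)]
    · by_cases h : i = a.s (b.s j)
      · have h2 : a.s⁻¹ i = b.s j := by rw [h]; simp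
        simp only [Aff.matrix, Aff.mul_s, Perm.mul_apply, Aff.mul_v, if_pos h, toMul_add,
          Units.val_mul, h2, if_true]
      · simp only [Aff.matrix, Aff.mul_s, Perm.mul_apply]
        rw [if_neg h]
        have h2 : ¬ i = a.s (b.s j) := h
        simp [h2]
    · intro k _ hk
      simp only [Aff.matrix, if_neg hk, mul_zero]
    · intro h; exact absurd (Finset.mem_univ _) h

/-- the monomial matrix, as a homomorphism to `GL₃(ℂ)` -/
def Aff.mat : Aff (Additive ℂˣ) →* GL (Fin 3) ℂ := MonoidHom.toHomUnits Aff.matHom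

theorem Aff.mat_apply (a : Aff (Additive ℂˣ)) (i j : Fin 3) :
    (Aff.mat a : Matrix (Fin 3) (Fin 3) ℂ) i j =
      if i = a.s j then (((a.v i).toMul : ℂˣ) : ℂ) else 0 := rfl

/-- MRG: coalescence of consecutive entries preserves finiteness of the orbit. -/
def Stmt_MRG : Prop := ∀ (G : Type) [Group G] (parts : List (List G)),
  FiniteOrbit parts.flatten → FiniteOrbit (parts.map List.prod)

/-- IMP: finite orbit modulo `GL₃(ℂ)` implies finite orbit modulo the monomial group. -/
def Stmt_IMP : Prop := ∀ l : List (Aff (Additive ℂˣ)), Transitive (l.map Aff.perm) →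
  FiniteOrbit (l.map Aff.mat) → FiniteOrbit l

/-- TOR: finiteness of orbits can be checked modulo torsion. -/
def Stmt_TOR : Prop := ∀ (A W : Type) [AddCommGroup A] [AddCommGroup W] (φ : A →+ W),
  Function.Surjective φ → (∀ a, φ a = 0 → ∃ n : ℕ, 0 < n ∧ n • a = 0) →
  (∀ n : ℕ, 0 < n → {a : A | n • a = 0}.Finite) →
  ∀ l : List (Aff A), FiniteOrbit (l.map (Aff.map φ)) → FiniteOrbit l

/-- The basic glide reflection: matrix of shape `(0 1)` with entries `1, z, z⁻¹`. -/
def stdX {W : Type} [AddCommGroup W] (a : W) : Aff W := ⟨![0, a, -a], swap 0 1⟩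
/-- The rotation `0 ↦ 1 ↦ 2 ↦ 0`. -/
def stdR {W : Type} [AddCommGroup W] : Aff W := ⟨![0, 0, 0], finRotate 3⟩

/-- SIX: the six-tuple `(X, Y, X, Y, X, Y)`, `X Y = R`, has a finite orbit. -/
def Stmt_SIX : Prop := ∀ (W : Type) [AddCommGroup W] (a : W),
  FiniteOrbit [stdX a, (stdX a)⁻¹ * stdR, stdX a, (stdX a)⁻¹ * stdR, stdX a, (stdX a)⁻¹ * stdR]

/-- NF: normal form of product-one transitive tuples in `S₃`. -/
def Stmt_NF : Prop := ∀ τ : List (Perm (Fin 3)), τ.prod = 1 → Transitive τ →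
  ∃ (parts : List (List (Perm (Fin 3)))) (v : ℕ), (∀ c ∈ parts, RotPart c) ∧
    HEquiv τ (parts.flatten ++ List.replicate v 1) ∧ (τ.map ram).sum = 2 * parts.length ∧
    2 ≤ parts.length

/-- SLG: finite orbit in `GL₃(ℂ)` implies finite orbit in `SL₃(ℂ)`. -/
def Stmt_SLG : Prop := ∀ l : List (Matrix.SpecialLinearGroup (Fin 3) ℂ),
  FiniteOrbit (l.map Matrix.SpecialLinearGroup.toGL) → FiniteOrbit l

/-- FIN: tuples generating a finite group have finite orbits. -/
def Stmt_FIN : Prop := ∀ (G : Type) [Group G] (l : List G),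
  Finite (Subgroup.closure {x | x ∈ l}) → FiniteOrbit l

end Pool.Agent.MCF
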