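import Pool.Agent.MCF.Cyc

namespace Pool.Agent.MCF

open Equiv

variable {W : Type} [AddCommGroup W] [Module ℚ W]

omit [Module ℚ W] in
/-- pushing a trivial entry around its right neighbour -/
theorem push_one (z a : Aff W) (q : List (Aff W)) :
    HEquiv (z :: a :: q) ((a⁻¹ * z * a) :: ((a⁻¹ * z * a)⁻¹ * a * (a⁻¹ * z * a)) :: q) := by
  have h1 := HEquiv.step [] z a q
  have h2 := HEquiv.step [] a (a⁻¹ * z * a) q
  exact (by simpa using h1 : HEquiv (z :: a :: q) (a :: (a⁻¹ * z * a) :: q)).trans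
    (by simpa using h2)

omit [Module ℚ W] in
/-- the combined push: first part -/
theorem push_two (z a b : Aff W) (q : List (Aff W)) :
    HEquiv (z :: a :: b :: q)
      ((a * (b⁻¹ * (a⁻¹ * z * a) * b) * a⁻¹) :: a ::
        ((b⁻¹ * (a⁻¹ * z * a) * b)⁻¹ * b * (b⁻¹ * (a⁻¹ * z * a) * b)) :: q) := by
  have h1 := HEquiv.step [] z a (b :: q)
  have h2 := (push_one (a⁻¹ * z * a) b q).cons a
  set z2 := b⁻¹ * (a⁻¹ * z * a) * b with hz2
  have h3 := HEquiv.step [] (a * z2 * a⁻¹) a ((z2⁻¹ * b * z2) :: q)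
  have e : a⁻¹ * (a * z2 * a⁻¹) * a = z2 := by group
  rw [e] at h3
  exact ((by simpa using h1 : HEquiv (z :: a :: b :: q) (a :: (a⁻¹ * z * a) :: b :: q)).trans
    h2).trans (by simpa using h3.symm)

omit [Module ℚ W] in
theorem tri_step {ρ : Perm (Fin 3)} (w : Fin 3 → W) (α β : Fin 3 → W) (c : Aff W) :
    HEquiv [Aff.tr w, ⟨α, ρ⟩, ⟨β, ρ⟩, c]
      [Aff.tr w, ⟨α + (act ρ w - w), ρ⟩, ⟨β - (w - act ρ⁻¹ w), ρ⟩, c] := by
  -- P2 applied to y = [tr (ρ w), α, β - (1-ρ⁻¹) w, c] is the left side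
  have h1 := push_two (Aff.tr (act ρ w)) (⟨α, ρ⟩ : Aff W) ⟨β - (w - act ρ⁻¹ w), ρ⟩ [c]
  have h2 := push_one (Aff.tr (act ρ w)) (⟨α, ρ⟩ : Aff W) [⟨β - (w - act ρ⁻¹ w), ρ⟩, c]
  have e0 : (⟨α, ρ⟩ : Aff W)⁻¹ * Aff.tr (act ρ w) * ⟨α, ρ⟩ = Aff.tr w := by
    have := Aff.conj_tr ((⟨α, ρ⟩ : Aff W)⁻¹) (act ρ w)
    rw [inv_inv] at this
    rw [this]
    simp [← act_mul]
  have e1 : (⟨β - (w - act ρ⁻¹ w), ρ⟩ : Aff W)⁻¹ * Aff.tr w *
      ⟨β - (w - act ρ⁻¹ w), ρ⟩ = Aff.tr (act ρ⁻¹ w) := by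
    have := Aff.conj_tr ((⟨β - (w - act ρ⁻¹ w), ρ⟩ : Aff W)⁻¹) w
    rw [inv_inv] at this
    rw [this]
    simp
  rw [e0] at h1 h2
  rw [e1] at h1
  have e2 : (⟨α, ρ⟩ : Aff W) * Aff.tr (act ρ⁻¹ w) * (⟨α, ρ⟩ : Aff W)⁻¹ = Aff.tr w := by
    rw [Aff.conj_tr]; simp [← act_mul]
  rw [e2] at h1
  have e3 : (Aff.tr (act ρ⁻¹ w))⁻¹ * (⟨β - (w - act ρ⁻¹ w), ρ⟩ : Aff W) *
      Aff.tr (act ρ⁻¹ w) = ⟨β, ρ⟩ := by
    apply Aff.ext'
    · rw [Aff.mul_v', Aff.mul_v', Aff.inv_v']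
      simp only [Aff.tr_v, Aff.tr_s, Aff.mul_s, Aff.inv_s, inv_one, act_one, one_mul]
      rw [← act_mul, mul_inv_cancel, act_one]
      abel
    · simp
  rw [e3] at h1
  have e4 : (Aff.tr w)⁻¹ * (⟨α, ρ⟩ : Aff W) * Aff.tr w = ⟨α + (act ρ w - w), ρ⟩ := by
    apply Aff.ext'
    · rw [Aff.mul_v', Aff.mul_v', Aff.inv_v']
      simp only [Aff.tr_v, Aff.tr_s, Aff.mul_s, Aff.inv_s, inv_one, act_one, one_mul]
      abel
    · simp
  rw [e4] at h2
  exact h1.symm.trans h2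

omit [Module ℚ W] in
theorem tri_iter {ρ : Perm (Fin 3)} (w : Fin 3 → W) (α β : Fin 3 → W) (c : Aff W) (n : ℕ) :
    HEquiv [Aff.tr w, ⟨α, ρ⟩, ⟨β, ρ⟩, c]
      [Aff.tr w, ⟨α + n • (act ρ w - w), ρ⟩, ⟨β - n • (w - act ρ⁻¹ w), ρ⟩, c] := by
  induction n with
  | zero => simpa using HEquiv.refl _
  | succ n ih =>
    have := tri_step (ρ := ρ) w (α + n • (act ρ w - w)) (β - n • (w - act ρ⁻¹ w)) c
    have e1 : α + n • (act ρ w - w) + (act ρ w - w) = α + (n+1) • (act ρ w - w) := by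
      rw [succ_nsmul]; abel
    have e2 : β - n • (w - act ρ⁻¹ w) - (w - act ρ⁻¹ w) = β - (n+1) • (w - act ρ⁻¹ w) := by
      rw [succ_nsmul]; abel
    rw [e1, e2] at this
    exact ih.trans this

/-- three rotations of the same direction and one trivial entry -/
theorem tri_four {z a b c : Aff W} (h : FiniteOrbit [z, a, b, c]) (hz : z.s = 1)
    (hz0 : Sum0 z.v) (ha : IsRot a.s) (hb : b.s = a.s) (hc : c.s = a.s) : z = 1 := by
  have e1 : z = Aff.tr z.v := eq_tr_of_s hz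
  have e2 : b = ⟨b.v, a.s⟩ := Aff.ext' rfl hb
  obtain ⟨i, j, hij, g, hg⟩ := h.pigeonhole
    (fun n => [Aff.tr z.v, ⟨a.v + n • (act a.s z.v - z.v), a.s⟩,
      ⟨b.v - n • (z.v - act a.s⁻¹ z.v), a.s⟩, c]) (by
      intro n
      have := tri_iter (ρ := a.s) z.v a.v b.v c n
      have e3 : [z, a, b, c] = [Aff.tr z.v, ⟨a.v, a.s⟩, ⟨b.v, a.s⟩, c] := by
        rw [← e1, ← e2]
      rw [e3]
      exact this)
  simp only [conjL_cons, conjL_nil, List.cons.injEq, and_true] at hg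
  obtain ⟨g1, g2, g3, g4⟩ := hg
  have hact : act g.s z.v = z.v := by
    rw [Aff.conj_tr] at g1
    exact (congrArg Aff.v g1).symm
  have hcomm : g.s * a.s = a.s * g.s := by
    have := congrArg Aff.s g4
    simp only [Aff.mul_s, Aff.inv_s] at this
    rw [hc] at this
    exact (eq_mul_inv_iff_mul_eq.mp this).symm
  have hw : z.v = 0 := by
    rcases ha.of_commute hcomm with h1 | h1
    · -- g is a translation commuting with c
      have e3 : g = Aff.tr g.v := eq_tr_of_s h1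
      have hgc : Aff.tr g.v * c = c * Aff.tr g.v := by
        rw [← e3]; exact (eq_mul_inv_iff_mul_eq.mp g4).symm
      have hga : act a.s g.v = g.v := by rw [← hc]; exact tr_commute_iff.mp hgc
      have g2' := eq_mul_inv_iff_mul_eq.mp g2
      rw [e3] at g2'
      have hv := congrArg Aff.v g2'
      rw [Aff.mul_v', Aff.mul_v'] at hv
      simp only [Aff.tr_v, Aff.tr_s, act_one] at hv
      rw [hga] at hv
      have h3 : j • (act a.s z.v - z.v) = i • (act a.s z.v - z.v) := by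
        have h4 : a.v + j • (act a.s z.v - z.v) = a.v + i • (act a.s z.v - z.v) := by
          have h5 : a.v + j • (act a.s z.v - z.v) + g.v =
              a.v + i • (act a.s z.v - z.v) + g.v := by rw [hv]; abel
          exact add_right_cancel h5
        exact add_left_cancel h4
      have h4 : (j - i) • (act a.s z.v - z.v) = 0 := by
        rw [sub_nsmul _ hij.le, h3]; simp
      have h5 := torsfree_fun (by omega) h4
      exact rot_fix ha hz0 (sub_eq_zero.mp h5)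
    · exact rot_fix h1 hz0 hact
  rw [e1, hw]; rfl

/-- three rotations of the same direction and trivial entries, product one -/
theorem tri (MRG : Stmt_MRG) {a b c : Aff W} {Z : List (Aff W)}
    (h : FiniteOrbit ([a, b, c] ++ Z)) (h0 : AllSum0 ([a, b, c] ++ Z)) (hZ : ∀ z ∈ Z, z.s = 1)
    (ha : IsRot a.s) (hb : b.s = a.s) (hc : c.s = a.s) (hp : ([a, b, c] ++ Z).prod = 1) :
    ∀ z ∈ Z, z = 1 := by
  intro z hz
  obtain ⟨Z1, Z2, rfl⟩ := List.append_of_mem hz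
  have hz1 : z.s = 1 := hZ z (by simp)
  have hz0 : Sum0 z.v := h0 z (by simp)
  -- rotate: [z] ++ Z2 ++ [a,b,c] ++ Z1
  have e := HEquiv.rotate (X := [a, b, c] ++ Z1) (Y := z :: Z2) (by simpa using hp)
  have h1 : FiniteOrbit ([[z], Z2 ++ [a], [b], [c] ++ Z1] : List (List (Aff W))).flatten := by
    have := FiniteOrbit.of_equiv (by simpa [List.append_assoc] using h :
      FiniteOrbit (([a, b, c] ++ Z1) ++ (z :: Z2))) e
    simpa [List.append_assoc] using this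
  have h2 := MRG _ _ h1
  simp only [List.map_cons, List.map_nil, List.prod_cons, List.prod_nil, mul_one,
    List.prod_append] at h2
  have hprod1 : ∀ L : List (Aff W), (∀ x ∈ L, x.s = 1) → L.prod.s = 1 := by
    intro L hL
    rw [prod_s]
    apply List.prod_eq_one
    intro x hx
    obtain ⟨y, hy, rfl⟩ := List.mem_map.mp hx
    exact hL y hy
  have hZ1 : Z1.prod.s = 1 := hprod1 Z1 (fun x hx => hZ x (by simp [hx]))
  have hZ2 : Z2.prod.s = 1 := hprod1 Z2 (fun x hx => hZ x (by simp [hx]))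
  exact tri_four h2 hz1 hz0 (by simpa [hZ2] using ha) (by simp [hZ2, hb]) (by simp [hZ1, hZ2, hc])

end Pool.Agent.MCF
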